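import Pool.Agent.H19.UR.Sh

/-!
# Module Win: the windows `win a b A = ∑ t^n A`, `a ≤ n ≤ b`

All by unfolding `win` (`le_iSup₂_of_le`, `iSup₂_le`) and `sh_sh`, `sh_iSup`.
* `win_sh`: `t^m win a b A = win (a+m) (b+m) A`. `win_fg`: finite supremum of f.g. modules (`sh_fg`).
* `win_win`: `win a b (win a' b' A) = win (a+a') (b+b') A` if `a ≤ b`, `a' ≤ b'`: every `n` in `[a+a', b+b']` is
  `m + m'` with `m ∈ [a,b]`, `m' ∈ [a',b']`.
* `win_succ`, `win_pred`: split off the last / the first translate.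
* `exists_win`: if the `S`-span of `A` is everything, `x = ∑ s_j a_j`, `s_j = ∑ t^n i(c)`
  (`Lau.expand`), `t^n i(c) a = t^n (c a) ∈ t^n A`; induction over the span (`Submodule.span_induction`): the set of `x`
  which lie in some `win (-n) n A` is an `S`-submodule: closed under sums (monotone in `n`) and under
  `s •`: by `Lau.ind` it is enough to treat `s = t^m i r`: `t^m (win (-n) n A) = win (m-n) (m+n) A ≤ win (-(|m|+n)) (|m|+n) A`. -/

set_option autoImplicit false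

open Pool.Agent.H16.UN

namespace Pool.Agent.H19.UR

variable {R S : Type} [Ring R] [StarRing R] [Ring S] [StarRing S] [Module R S] (𝓛 : Lau R S)
  {M : Type} [AddCommGroup M] [Module R M] [Module S M] [IsScalarTower R S M]

theorem sh_le_win {a b n : ℤ} (h : a ≤ n) (h' : n ≤ b) (A : Submodule R M) : sh 𝓛 n A ≤ win 𝓛 a b A :=
  le_iSup₂_of_le n ⟨h, h'⟩ le_rfl

theorem win_le {a b : ℤ} {A B : Submodule R M} (h : ∀ n, a ≤ n → n ≤ b → sh 𝓛 n A ≤ B) :
    win 𝓛 a b A ≤ B := iSup₂_le fun n hn => h n hn.1 hn.2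

theorem win_mono {a b a' b' : ℤ} (h : a' ≤ a) (h' : b ≤ b') {A B : Submodule R M} (hAB : A ≤ B) :
    win 𝓛 a b A ≤ win 𝓛 a' b' B :=
  win_le 𝓛 fun n h1 h2 =>
    (sh_mono 𝓛 n hAB).trans (sh_le_win 𝓛 (h.trans h1) (h2.trans h') B)

theorem win_sh (m a b : ℤ) (A : Submodule R M) : sh 𝓛 m (win 𝓛 a b A) = win 𝓛 (a + m) (b + m) A := by
  unfold win
  simp only [sh_iSup, sh_sh]
  apply le_antisymm
  · refine iSup₂_le fun n hn => ?_
    exact le_iSup₂_of_le (m + n) ⟨by omega, by omega⟩ le_rfl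
  · refine iSup₂_le fun n hn => ?_
    refine le_iSup₂_of_le (n - m) ⟨by omega, by omega⟩ ?_
    rw [show m + (n - m) = n by ring]

theorem win_win {a b a' b' : ℤ} (h : a ≤ b) (h' : a' ≤ b') (A : Submodule R M) :
    win 𝓛 a b (win 𝓛 a' b' A) = win 𝓛 (a + a') (b + b') A := by
  apply le_antisymm
  · refine win_le 𝓛 fun n h1 h2 => ?_
    rw [win_sh]
    exact win_mono 𝓛 (by omega) (by omega) le_rfl
  · refine win_le 𝓛 fun n h1 h2 => ?_
    obtain ⟨m, hm1, hm2, hm3, hm4⟩ : ∃ m : ℤ, a ≤ m ∧ m ≤ b ∧ a' ≤ n - m ∧ n - m ≤ b' := by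
      rcases le_total a (n - b') with h3 | h3
      · exact ⟨n - b', h3, by omega, by omega, by omega⟩
      · exact ⟨a, le_rfl, h, by omega, by omega⟩
    have e : sh 𝓛 n A = sh 𝓛 m (sh 𝓛 (n - m) A) := by
      rw [sh_sh, show m + (n - m) = n by ring]
    rw [e]
    exact (sh_mono 𝓛 m (sh_le_win 𝓛 hm3 hm4 A)).trans (sh_le_win 𝓛 hm1 hm2 _)

theorem win_succ {a b : ℤ} (h : a ≤ b + 1) (A : Submodule R M) :
    win 𝓛 a (b + 1) A = win 𝓛 a b A ⊔ sh 𝓛 (b + 1) A := by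
  apply le_antisymm
  · refine win_le 𝓛 fun n h1 h2 => ?_
    rcases h2.lt_or_eq with h3 | h3
    · exact (sh_le_win 𝓛 h1 (by omega) A).trans le_sup_left
    · rw [h3]
      exact le_sup_right
  · exact sup_le (win_mono 𝓛 le_rfl (by omega) le_rfl) (sh_le_win 𝓛 h le_rfl A)

theorem win_pred {a b : ℤ} (h : a ≤ b) (A : Submodule R M) :
    win 𝓛 a b A = sh 𝓛 a A ⊔ win 𝓛 (a + 1) b A := by
  apply le_antisymm
  · refine win_le 𝓛 fun n h1 h2 => ?_
    rcases h1.lt_or_eq with h3 | h3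
    · exact (sh_le_win 𝓛 (by omega) h2 A).trans le_sup_right
    · rw [← h3]
      exact le_sup_left
  · exact sup_le (sh_le_win 𝓛 le_rfl h A) (win_mono 𝓛 (by omega) le_rfl le_rfl)

theorem win_fg (a b : ℤ) {A : Submodule R M} (h : A.FG) : (win 𝓛 a b A).FG := by
  have e : win 𝓛 a b A = ⨆ n ∈ Finset.Icc a b, sh 𝓛 n A := by
    unfold win
    simp only [Finset.mem_Icc]
  rw [e]
  exact Submodule.fg_biSup _ _ fun n _ => sh_fg 𝓛 n h

theorem exists_win {A : Submodule R M} (h : Submodule.span S (A : Set M) = ⊤) (x : M) :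
    ∃ n : ℕ, x ∈ win 𝓛 (-(n : ℤ)) n A := by
  have hx : x ∈ Submodule.span S (A : Set M) := by rw [h]; trivial
  induction hx using Submodule.span_induction with
  | mem y hy =>
    refine ⟨0, sh_le_win 𝓛 (n := 0) (by simp) (by simp) A ?_⟩
    rw [sh_zero]
    exact hy
  | zero => exact ⟨0, Submodule.zero_mem _⟩
  | add y z _ _ hy hz =>
    obtain ⟨n1, h1⟩ := hy
    obtain ⟨n2, h2⟩ := hz
    refine ⟨n1 + n2, Submodule.add_mem _ ?_ ?_⟩
    · exact win_mono 𝓛 (by push_cast; omega) (by push_cast; omega) le_rfl h1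
    · exact win_mono 𝓛 (by push_cast; omega) (by push_cast; omega) le_rfl h2
  | smul s y _ hy =>
    obtain ⟨n, hn⟩ := hy
    refine 𝓛.ind (p := fun s => ∃ k : ℕ, s • y ∈ win 𝓛 (-(k : ℤ)) k A) ?_ ?_ ?_ s
    · refine ⟨0, ?_⟩
      rw [zero_smul]
      exact Submodule.zero_mem _
    · rintro s1 s2 ⟨k1, h1⟩ ⟨k2, h2⟩
      refine ⟨k1 + k2, ?_⟩
      rw [add_smul]
      refine Submodule.add_mem _ ?_ ?_
      · exact win_mono 𝓛 (by push_cast; omega) (by push_cast; omega) le_rfl h1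
      · exact win_mono 𝓛 (by push_cast; omega) (by push_cast; omega) le_rfl h2
    · intro m r
      refine ⟨n + m.natAbs, ?_⟩
      rw [mul_smul, 𝓛.i_smul]
      have h1 : ((𝓛.t ^ m : Sˣ) : S) • (r • y) ∈ sh 𝓛 m (win 𝓛 (-(n : ℤ)) n A) := by
        rw [mem_sh, smul_smul, ← Units.val_mul, ← zpow_add, neg_add_cancel, zpow_zero,
          Units.val_one, one_smul]
        exact Submodule.smul_mem _ _ hn
      rw [win_sh] at h1
      exact win_mono 𝓛 (by omega) (by omega) le_rfl h1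

end Pool.Agent.H19.UR
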