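import Pool.Agent.H19.UR.TEx
import Pool.Agent.H19.UR.Win

/-!
# The cochains of `T` as an `R`-module: definitions and simple facts (step (4b))

`W = D.T.ι → S = (X₁.ι ⊕ X₂.ι) → S`; a cochain of degree `q + 1` is `(v, u)`, `v` on `X₁` of degree `q + 1`, `u` on `X₂`
of degree `q`. `BT q ≤ ZT q ≤ W` are the coboundaries and cocycles of degree `q + 1`, `VT q = {(0, i u) : u ∈ Zc X₂ q}`.

* `tower`: `𝓛.smul_eq`, `mul_assoc`.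
* `Zc_map`: `w (Y.D)ᴴ = 0` gives `w Fᴴ (X.D)ᴴ = w (X.D F)ᴴ = w (F Y.D)ᴴ = 0`; degrees by `hF.hom`.
* `Bc_le_Zc`: `D D = 0`, degrees by `X.hdeg`.
* `mem_Zc_tw`: `σ` applied to `u (X.D.map σ⁻¹)ᴴ = 0` (`Lau.star_σ`).
* `i_phiH`: as `TD.cf_phiH` (entries of `φᴴ`: `star (t i(f₁) - i(f₀)) = i(star f₁) e t⁻¹ - i(star f₀)`).
* `BT_of`: `vecMul_TH`. `BT_rel`: `BT_of` with `w = i w₀`, `z = 0` and `i_phiH`, `i_conjTranspose`, `i_vecMul`.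
* `BT_p`: `BT_of` with `w = 0`, `z = - i z₀`.
* `cf_mem`: coefficients (`hom_cf`, `cf_vecMul`, `vecMul_TH`).
* `VT_le`: `vecMul_TH` with `v = 0`. -/

set_option autoImplicit false

open Matrix Pool.Agent.H16.UN

namespace Pool.Agent.H19.UR

section general

variable {R S : Type} [Ring R] [StarRing R] [Ring S] [StarRing S] [Module R S]

private theorem BDef_hom {T : Type} [Ring T] [StarRing T] {X Y : FC T} {F : Matrix X.ι Y.ι T} {k l : ℤ}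
    (hF : ∀ a b, F a b ≠ 0 → Y.deg b = k → X.deg a = l) {w : Y.ι → T} (hw : Y.Hom k w) :
    X.Hom l (w ᵥ* Fᴴ) := by
  intro a ha
  have h1 : (w ᵥ* Fᴴ) a = ∑ b, w b * star (F a b) := rfl
  rw [h1] at ha
  obtain ⟨b, -, hb⟩ := Finset.exists_ne_zero_of_sum_ne_zero ha
  have h2 : w b ≠ 0 := left_ne_zero_of_mul hb
  have h3 : F a b ≠ 0 := fun h0 => right_ne_zero_of_mul hb (by rw [h0, star_zero])
  exact hF a b h3 (hw b h2)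

theorem Lau.tower (𝓛 : Lau R S) : IsScalarTower R S S :=
  ⟨fun r x y => by rw [smul_eq_mul, smul_eq_mul, 𝓛.smul_eq, 𝓛.smul_eq, mul_assoc]⟩

theorem Zc_map {X Y : FC R} {F : Matrix X.ι Y.ι R} (hF : IsMap X Y F) {k : ℤ} {w : Y.ι → R}
    (hw : w ∈ Zc Y k) : w ᵥ* Fᴴ ∈ Zc X k := by
  obtain ⟨h1, h2⟩ := hw
  refine ⟨BDef_hom (fun a b h hb => (hF.hom a b h).trans hb) h1, ?_⟩
  rw [vecMul_vecMul, ← conjTranspose_mul, hF.comm, conjTranspose_mul, ← vecMul_vecMul, h2,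
    zero_vecMul]

theorem Bc_le_Zc (X : FC R) (k : ℤ) : Bc X k ≤ Zc X k := by
  rintro v ⟨w, h1, rfl⟩
  refine ⟨BDef_hom (fun a b h hb => ?_) h1, ?_⟩
  · have h2 := X.hdeg a b h
    omega
  · rw [vecMul_vecMul, ← conjTranspose_mul, X.hD, conjTranspose_zero, vecMul_zero]

private theorem BDef_tw (𝓛 : Lau R S) (X : FC R) (u : X.ι → R) (b : X.ι) :
    𝓛.σ ((u ᵥ* (tw 𝓛 X).Dᴴ) b) = ((fun a => 𝓛.σ (u a)) ᵥ* X.Dᴴ) b := by
  show 𝓛.σ (∑ a, u a * star (𝓛.σ⁻¹ (X.D b a))) = ∑ a, 𝓛.σ (u a) * star (X.D b a)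
  rw [map_sum]
  refine Finset.sum_congr rfl fun a _ => ?_
  have h : 𝓛.σ (𝓛.σ⁻¹ (X.D b a)) = X.D b a := 𝓛.σ.apply_symm_apply _
  rw [map_mul, 𝓛.star_σ, h]

private theorem BDef_twHom (𝓛 : Lau R S) {X : FC R} {k : ℤ} {u : X.ι → R} :
    (tw 𝓛 X).Hom k u ↔ X.Hom k (fun a => 𝓛.σ (u a)) := by
  constructor
  · intro h a ha
    exact h a fun h0 => ha (by show 𝓛.σ (u a) = 0; rw [h0, map_zero])
  · intro h a ha
    exact h a fun h0 => ha (𝓛.σ.injective (h0.trans (map_zero 𝓛.σ).symm))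

theorem mem_Zc_tw {𝓛 : Lau R S} {X : FC R} {k : ℤ} {u : X.ι → R} :
    u ∈ Zc (tw 𝓛 X) k ↔ (fun a => 𝓛.σ (u a)) ∈ Zc X k := by
  rw [mem_Zc, mem_Zc, BDef_twHom]
  refine and_congr Iff.rfl ⟨fun h => ?_, fun h => ?_⟩
  · funext b
    rw [← BDef_tw, h]
    exact map_zero 𝓛.σ
  · funext b
    apply 𝓛.σ.injective
    rw [BDef_tw, h]
    exact (map_zero 𝓛.σ).symm

theorem mem_Bc_tw {𝓛 : Lau R S} {X : FC R} {k : ℤ} {u : X.ι → R} :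
    u ∈ Bc (tw 𝓛 X) k ↔ (fun a => 𝓛.σ (u a)) ∈ Bc X k := by
  rw [mem_Bc, mem_Bc]
  constructor
  · rintro ⟨w, h1, rfl⟩
    refine ⟨fun a => 𝓛.σ (w a), (BDef_twHom 𝓛).1 h1, ?_⟩
    funext b
    exact (BDef_tw 𝓛 X w b).symm
  · rintro ⟨w, h1, h2⟩
    have e : (fun a => 𝓛.σ (𝓛.σ.symm (w a))) = w := by
      funext a
      exact 𝓛.σ.apply_symm_apply _
    refine ⟨fun a => 𝓛.σ.symm (w a), (BDef_twHom 𝓛).2 (by rw [e]; exact h1), ?_⟩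
    funext b
    apply 𝓛.σ.injective
    refine (BDef_tw 𝓛 X (fun a => 𝓛.σ.symm (w a)) b).trans ?_
    rw [e]
    exact congrFun h2 b

end general

variable {R S : Type} [Ring R] [StarRing R] [Ring S] [StarRing S] [Module R S] {𝓛 : Lau R S}
  {M : Type} [AddCommGroup M] [Module R M] [Module S M] [IsScalarTower R S M]
  {M₁ N' : Submodule R M} (D : TD 𝓛 M₁ N')

namespace TD

/-- `u ↦ (0, i u)` -/
def p : (D.X₂.ι → R) →ₗ[R] (D.T.ι → S) where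
  toFun u := Sum.elim 0 (fun a => 𝓛.i (u a))
  map_add' u v := by
    funext a
    rcases a with a | a
    · simp
    · simp
  map_smul' r u := by
    funext a
    rcases a with a | a
    · simp
    · simp [𝓛.smul_eq]

/-- `(v, u) ↦` the coefficient `0` of `v` -/
def c₀ : (D.T.ι → S) →ₗ[R] (D.X₁.ι → R) where
  toFun x := cf 𝓛 0 (fun a => x (Sum.inl a))
  map_add' x y := by
    funext a
    simp
  map_smul' r x := by
    funext a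
    simp [𝓛.smul_eq, 𝓛.co_i_mul]

/-- the cocycles `(0, i u)`, `u` a cocycle of `X₂` -/
def VT (q : ℕ) : Submodule R (D.T.ι → S) := (Zc D.X₂ (q : ℤ)).map D.p

variable [IsScalarTower R S S]

/-- the coboundaries of degree `q + 1` as an `R`-module -/
def BT (q : ℕ) : Submodule R (D.T.ι → S) := (Bc D.T ((q : ℤ) + 1)).restrictScalars R

/-- the cocycles of degree `q + 1` as an `R`-module -/
def ZT (q : ℕ) : Submodule R (D.T.ι → S) := (Zc D.T ((q : ℤ) + 1)).restrictScalars R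

theorem mem_BT {q : ℕ} {x : D.T.ι → S} : x ∈ D.BT q ↔ x ∈ Bc D.T ((q : ℤ) + 1) := Iff.rfl

theorem mem_ZT {q : ℕ} {x : D.T.ι → S} : x ∈ D.ZT q ↔ x ∈ Zc D.T ((q : ℤ) + 1) := Iff.rfl

theorem sh_BT (q : ℕ) (n : ℤ) : sh 𝓛 n (D.BT q) = D.BT q := sh_restrict 𝓛 n _

theorem sh_ZT (q : ℕ) (n : ℤ) : sh 𝓛 n (D.ZT q) = D.ZT q := sh_restrict 𝓛 n _

/-- `(i w) φᴴ = e i(w f₁ᴴ) t⁻¹ - i(w f₀ᴴ)` -/
theorem i_phiH (w : D.X₁.ι → R) :
    (fun a => 𝓛.i (w a)) ᵥ* D.phiᴴ =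
      fun b => (𝓛.e : S) * (𝓛.i ((w ᵥ* D.f₁ᴴ) b) * ((𝓛.t⁻¹ : Sˣ) : S)) - 𝓛.i ((w ᵥ* D.f₀ᴴ) b) := by
  funext a
  simp only [vecMul, dotProduct, conjTranspose_apply, phi_apply, star_sub, star_mul,
    ← 𝓛.istar, 𝓛.tstar, mul_sub, Finset.sum_sub_distrib, map_sum, map_mul]
  congr 1
  rw [Finset.sum_mul, Finset.mul_sum]
  refine Finset.sum_congr rfl fun b _ => ?_
  have h1 : 𝓛.i (w b) * (𝓛.i (star (D.f₁ a b)) * ((𝓛.e : S) * ((𝓛.t⁻¹ : Sˣ) : S))) =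
      𝓛.e • (𝓛.i (w b) * 𝓛.i (star (D.f₁ a b)) * ((𝓛.t⁻¹ : Sˣ) : S)) := by
    rw [← zsmul_eq_mul, mul_smul_comm, mul_smul_comm, mul_assoc]
  rw [h1, zsmul_eq_mul]

theorem BT_of {q : ℕ} {w : D.X₁.ι → S} {z : D.X₂.ι → S} (hw : (D.X₁.map 𝓛.i).Hom (q : ℤ) w)
    (hz : (D.X₂.map 𝓛.i).Hom ((q : ℤ) - 1) z) :
    (Sum.elim (w ᵥ* D.X₁.Dᴴ.map 𝓛.i) (w ᵥ* D.phiᴴ - z ᵥ* D.X₂.Dᴴ.map 𝓛.i) : D.T.ι → S) ∈ D.BT q := by
  rw [mem_BT, mem_Bc]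
  refine ⟨Sum.elim w z, ?_, D.vecMul_TH w z⟩
  rintro (a | a) ha
  · have h1 : D.X₁.deg a = (q : ℤ) := hw a ha
    show D.X₁.deg a = (q : ℤ) + 1 - 1
    omega
  · have h1 : D.X₂.deg a = (q : ℤ) - 1 := hz a ha
    show D.X₂.deg a + 1 = (q : ℤ) + 1 - 1
    omega

omit [IsScalarTower R S S] in
private theorem BDef_iHom {X : FC R} {k : ℤ} {w : X.ι → R} (hw : X.Hom k w) :
    (X.map 𝓛.i).Hom k (fun a => 𝓛.i (w a)) := fun a ha =>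
  hw a fun h0 => ha (by show 𝓛.i (w a) = 0; rw [h0, map_zero])

omit [IsScalarTower R S S] in
private theorem BDef_i0 {ι : Type} : (fun a : ι => 𝓛.i ((0 : ι → R) a)) = 0 := by
  funext a
  exact map_zero 𝓛.i

/-- the relation of a cocycle `w` of `X₁` -/
theorem BT_rel {q : ℕ} {w : D.X₁.ι → R} (hw : w ∈ Zc D.X₁ (q : ℤ)) :
    (Sum.elim 0 (fun b => (𝓛.e : S) * (𝓛.i ((w ᵥ* D.f₁ᴴ) b) * ((𝓛.t⁻¹ : Sˣ) : S)) -
      𝓛.i ((w ᵥ* D.f₀ᴴ) b)) : D.T.ι → S) ∈ D.BT q := by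
  have h := D.BT_of (q := q) (w := fun a => 𝓛.i (w a)) (z := 0) (BDef_iHom hw.1)
    (fun a ha => absurd rfl ha)
  rw [D.i_phiH, i_vecMul, hw.2, BDef_i0, zero_vecMul, sub_zero] at h
  exact h

theorem BT_p {q : ℕ} {u : D.X₂.ι → R} (hu : u ∈ Bc D.X₂ (q : ℤ)) : D.p u ∈ D.BT q := by
  obtain ⟨z, hz, rfl⟩ := hu
  have hz' : (D.X₂.map 𝓛.i).Hom ((q : ℤ) - 1) (-(fun a => 𝓛.i (z a))) := fun a ha =>
    BDef_iHom hz a fun h0 => ha (by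
      have h1 : 𝓛.i (z a) = 0 := h0
      show -𝓛.i (z a) = 0
      rw [h1, neg_zero])
  have h := D.BT_of (q := q) (w := 0) (z := -(fun a => 𝓛.i (z a)))
    (fun a ha => absurd rfl ha) hz'
  rw [zero_vecMul, zero_vecMul, neg_vecMul, sub_neg_eq_add, zero_add, i_vecMul] at h
  exact h

theorem BT_le_ZT (q : ℕ) : D.BT q ≤ D.ZT q := fun _ hx => Bc_le_Zc D.T _ hx

theorem VT_le_ZT (q : ℕ) : D.VT q ≤ D.ZT q := by
  rintro _ ⟨u, hu, rfl⟩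
  rw [mem_ZT, mem_Zc]
  constructor
  · rintro (a | a) ha
    · exact absurd rfl ha
    · have h1 : D.X₂.deg a = (q : ℤ) := BDef_iHom (𝓛 := 𝓛) hu.1 a ha
      show D.X₂.deg a + 1 = (q : ℤ) + 1
      omega
  · have h := D.vecMul_TH 0 (fun a => 𝓛.i (u a))
    rw [zero_vecMul, zero_vecMul, i_vecMul, hu.2, BDef_i0, sub_zero, Sum.elim_zero_zero] at h
    exact h

theorem cf_mem {q : ℕ} {x : D.T.ι → S} (hx : x ∈ D.ZT q) (n : ℤ) :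
    cf 𝓛 n (fun a => x (Sum.inl a)) ∈ Zc D.X₁ ((q : ℤ) + 1) := by
  rw [mem_ZT, mem_Zc] at hx
  obtain ⟨h1, h2⟩ := hx
  have h3 : (D.X₁.map 𝓛.i).Hom ((q : ℤ) + 1) (fun a => x (Sum.inl a)) := fun a ha =>
    h1 (Sum.inl a) ha
  refine ⟨(hom_cf 𝓛).1 h3 n, ?_⟩
  have h4 : Sum.elim (fun a => x (Sum.inl a)) (fun a => x (Sum.inr a)) = x := by
    funext a
    rcases a with a | a <;> rfl
  have h5 := D.vecMul_TH (fun a => x (Sum.inl a)) (fun a => x (Sum.inr a))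
  rw [h4] at h5
  have h6 : (fun a => x (Sum.inl a)) ᵥ* D.X₁.Dᴴ.map 𝓛.i = 0 := by
    funext a
    have h7 := congrFun (h2.symm.trans h5) (Sum.inl a)
    exact h7.symm
  rw [← cf_vecMul, h6, cf_zero]

end TD

end Pool.Agent.H19.UR
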