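import Pool.Agent.H19.UR.BDef

/-!
# Module BP: `t⁻¹ V` over `V + B` (step (s+))

`C₁_res h D`: `D.C₁` (the cone of `f₁ : tw X₂ → X₁`, `(v, u) C₁.Dᴴ = (v D₁ᴴ, v f₁ᴴ - u (tw X₂).Dᴴ)`) is nonnegative and exact in
positive degrees; `hR.aus D.C₁ _ _ (q + 1)`: `Le (q+1) (Bc C₁ (q+1)) (Zc C₁ (q+1))`. The map `j : u ↦ (0, u)` sends
`Zc (tw X₂) q` to `Zc C₁ (q+1)`, so by `Le.comap` and `Le.right`: `Le (q+1) ((Bc C₁ (q+1)).comap j) (Zc (tw X₂) q)`.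
Let `p₁ : (X₂.ι → R) →ₗ[R] (D.T.ι → S)`, `p₁ u = (0, i(u) t⁻¹)`. `t • p₁ u = D.p (σ u)`.
* `(Zc (tw X₂) q).map p₁ = sh 𝓛 (-1) (D.VT q)` (`mem_Zc_tw`; only `≥` is needed: `x ∈ sh (-1) V` means `t x = D.p u'`, `u' ∈ Zc X₂ q`,
  so `x = p₁ (σ⁻¹ u')`).
* `(Bc C₁ (q+1)).comap j ≤ (V ⊔ BT).comap p₁`: if `(0, u) = (w, z) C₁.Dᴴ`, then `w ∈ Zc X₁ q`, `u = w f₁ᴴ - z (tw X₂).Dᴴ`.
  `p₁ (z (tw X₂).Dᴴ) ∈ BT`: it is `t⁻¹ D.p (σ (z (tw X₂).Dᴴ))`, and `σ (z (tw X₂).Dᴴ) = σ(z) D₂ᴴ ∈ Bc X₂ q` (`mem_Bc_tw`, `BT_p`,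
  `BT` is an `S`-submodule). By `BT_rel` times `e` (`e e = 1`): `p₁ (w f₁ᴴ) = e • D.p (w f₀ᴴ) + (element of BT)`,
  `w f₀ᴴ ∈ Zc X₂ q` (`Zc_map D.m₀`).
Conclusion by `Le.left` and `Le.map`, `Le.right`. -/

set_option autoImplicit false

open Matrix Pool.Agent.H16.UN

namespace Pool.Agent.H19.UR

variable {R S : Type} [Ring R] [StarRing R] [Ring S] [StarRing S] [Module R S] {𝓛 : Lau R S}
  {M : Type} [AddCommGroup M] [Module R M] [Module S M] [IsScalarTower R S M]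
  {M₁ N' : Submodule R M} [IsScalarTower R S S] {d : ℤ}

omit [AddCommGroup M] [Module R M] [Module S M] [IsScalarTower R S M] in
private theorem BP_comm (r : R) :
    ((𝓛.t⁻¹ : Sˣ) : S) * 𝓛.i (𝓛.σ r) = 𝓛.i r * ((𝓛.t⁻¹ : Sˣ) : S) := by
  have h := 𝓛.comm r
  calc ((𝓛.t⁻¹ : Sˣ) : S) * 𝓛.i (𝓛.σ r)
      = ((𝓛.t⁻¹ : Sˣ) : S) * (𝓛.i (𝓛.σ r) * (𝓛.t : S)) * ((𝓛.t⁻¹ : Sˣ) : S) := by
        rw [mul_assoc, mul_assoc, Units.mul_inv, mul_one]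
    _ = ((𝓛.t⁻¹ : Sˣ) : S) * ((𝓛.t : S) * 𝓛.i r) * ((𝓛.t⁻¹ : Sˣ) : S) := by rw [h]
    _ = 𝓛.i r * ((𝓛.t⁻¹ : Sˣ) : S) := by rw [← mul_assoc, Units.inv_mul, one_mul]

/-- `u ↦ (0, i(u) t⁻¹)` -/
private def BP_p (D : TD 𝓛 M₁ N') : (D.X₂.ι → R) →ₗ[R] (D.T.ι → S) where
  toFun u := Sum.elim 0 (fun a => 𝓛.i (u a) * ((𝓛.t⁻¹ : Sˣ) : S))
  map_add' u v := by
    funext a
    rcases a with a | a
    · simp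
    · simp [add_mul]
  map_smul' r u := by
    funext a
    rcases a with a | a
    · simp
    · simp [𝓛.smul_eq, mul_assoc]

/-- `u ↦ (0, u)` -/
private def BP_j (D : TD 𝓛 M₁ N') : (D.X₂.ι → R) →ₗ[R] (D.C₁.ι → R) where
  toFun u := Sum.elim 0 u
  map_add' u v := by
    funext a
    rcases a with a | a
    · simp
    · simp
  map_smul' r u := by
    funext a
    rcases a with a | a
    · simp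
    · simp

private theorem BP_C (D : TD 𝓛 M₁ N') (v : D.X₁.ι → R) (u : D.X₂.ι → R) :
    (Sum.elim v u : D.C₁.ι → R) ᵥ* D.C₁.Dᴴ =
      Sum.elim (v ᵥ* D.X₁.Dᴴ) (v ᵥ* D.f₁ᴴ - u ᵥ* (tw 𝓛 D.X₂).Dᴴ) := by
  have h : D.C₁.Dᴴ = fromBlocks D.X₁.Dᴴ D.f₁ᴴ 0 (-(tw 𝓛 D.X₂).Dᴴ) := by
    show (fromBlocks D.X₁.D 0 D.f₁ (-(tw 𝓛 D.X₂).D))ᴴ = _
    rw [fromBlocks_conjTranspose, conjTranspose_zero, conjTranspose_neg]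
  rw [h, vecMul_fromBlocks, vecMul_zero, add_zero, vecMul_neg, sub_eq_add_neg]
  rfl

private theorem BP_pp (D : TD 𝓛 M₁ N') (u : D.X₂.ι → R) :
    BP_p D u = ((𝓛.t⁻¹ : Sˣ) : S) • D.p (fun a => 𝓛.σ (u a)) := by
  funext a
  rcases a with a | a
  · show (0 : S) = ((𝓛.t⁻¹ : Sˣ) : S) • (0 : S)
    rw [smul_zero]
  · show 𝓛.i (u a) * ((𝓛.t⁻¹ : Sˣ) : S) = ((𝓛.t⁻¹ : Sˣ) : S) * 𝓛.i (𝓛.σ (u a))
    exact (BP_comm (u a)).symm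

private theorem BP_Z (D : TD 𝓛 M₁ N') (q : ℕ) :
    Zc (tw 𝓛 D.X₂) (q : ℤ) ≤ (Zc D.C₁ ((q + 1 : ℕ) : ℤ)).comap (BP_j D) := by
  intro u hu
  rw [Submodule.mem_comap, mem_Zc]
  obtain ⟨h1, h2⟩ := mem_Zc.1 hu
  constructor
  · rintro (a | a) ha
    · exact absurd rfl ha
    · have h3 : D.X₂.deg a = (q : ℤ) := h1 a ha
      show D.X₂.deg a + 1 = ((q + 1 : ℕ) : ℤ)
      push_cast
      omega
  · show (Sum.elim 0 u : D.C₁.ι → R) ᵥ* D.C₁.Dᴴ = 0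
    rw [BP_C, zero_vecMul, zero_vecMul, h2, sub_zero, Sum.elim_zero_zero]

private theorem BP_B (D : TD 𝓛 M₁ N') (q : ℕ) :
    (Bc D.C₁ ((q + 1 : ℕ) : ℤ)).comap (BP_j D) ≤ (D.VT q ⊔ D.BT q).comap (BP_p D) := by
  intro u hu
  rw [Submodule.mem_comap] at hu ⊢
  obtain ⟨w', hw', he⟩ := mem_Bc.1 hu
  set w : D.X₁.ι → R := fun a => w' (Sum.inl a) with hw
  set z : D.X₂.ι → R := fun a => w' (Sum.inr a) with hz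
  have e1 : w' = (Sum.elim w z : D.C₁.ι → R) := by
    funext a
    rcases a with a | a <;> rfl
  rw [e1, BP_C] at he
  have he1 : w ᵥ* D.X₁.Dᴴ = 0 := funext fun a => congrFun he (Sum.inl a)
  have he2 : w ᵥ* D.f₁ᴴ - z ᵥ* (tw 𝓛 D.X₂).Dᴴ = u := funext fun a => congrFun he (Sum.inr a)
  have hwZ : w ∈ Zc D.X₁ (q : ℤ) := by
    refine mem_Zc.2 ⟨fun a ha => ?_, he1⟩
    have h3 : D.X₁.deg a = ((q + 1 : ℕ) : ℤ) - 1 := hw' (Sum.inl a) ha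
    rw [h3]
    push_cast
    ring
  have hzB : z ᵥ* (tw 𝓛 D.X₂).Dᴴ ∈ Bc (tw 𝓛 D.X₂) (q : ℤ) := by
    refine mem_Bc.2 ⟨z, fun a ha => ?_, rfl⟩
    have h3 : D.X₂.deg a + 1 = ((q + 1 : ℕ) : ℤ) - 1 := hw' (Sum.inr a) ha
    show D.X₂.deg a = (q : ℤ) - 1
    push_cast at h3
    omega
  have h1 : BP_p D (z ᵥ* (tw 𝓛 D.X₂).Dᴴ) ∈ D.BT q := by
    rw [BP_pp, D.mem_BT]
    exact (Bc D.T ((q : ℤ) + 1)).smul_mem _ (D.mem_BT.1 (D.BT_p (mem_Bc_tw.1 hzB)))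
  have h2 : BP_p D (w ᵥ* D.f₁ᴴ) ∈ D.VT q ⊔ D.BT q := by
    have h3 := D.BT_rel hwZ
    have h4 : (Sum.elim 0 (fun b => (𝓛.e : S) * (𝓛.i ((w ᵥ* D.f₁ᴴ) b) * ((𝓛.t⁻¹ : Sˣ) : S)) -
        𝓛.i ((w ᵥ* D.f₀ᴴ) b)) : D.T.ι → S) =
        𝓛.e • BP_p D (w ᵥ* D.f₁ᴴ) - D.p (w ᵥ* D.f₀ᴴ) := by
      funext b
      rcases b with b | b
      · show (0 : S) = 𝓛.e • (0 : S) - 0
        rw [smul_zero, sub_zero]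
      · show (𝓛.e : S) * (𝓛.i ((w ᵥ* D.f₁ᴴ) b) * ((𝓛.t⁻¹ : Sˣ) : S)) - 𝓛.i ((w ᵥ* D.f₀ᴴ) b) =
          𝓛.e • (𝓛.i ((w ᵥ* D.f₁ᴴ) b) * ((𝓛.t⁻¹ : Sˣ) : S)) - 𝓛.i ((w ᵥ* D.f₀ᴴ) b)
        rw [zsmul_eq_mul]
    rw [h4] at h3
    have h5 := (D.BT q).toAddSubgroup.zsmul_mem h3 𝓛.e
    rw [smul_sub, smul_smul, 𝓛.he, one_smul] at h5
    have h6 : D.p (w ᵥ* D.f₀ᴴ) ∈ D.VT q := ⟨_, Zc_map D.m₀ hwZ, rfl⟩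
    have h7 := (D.VT q).toAddSubgroup.zsmul_mem h6 𝓛.e
    have h8 : BP_p D (w ᵥ* D.f₁ᴴ) = 𝓛.e • D.p (w ᵥ* D.f₀ᴴ) +
        (BP_p D (w ᵥ* D.f₁ᴴ) - 𝓛.e • D.p (w ᵥ* D.f₀ᴴ)) := by abel
    rw [h8]
    exact Submodule.add_mem_sup h7 h5
  rw [← he2, map_sub]
  exact Submodule.sub_mem _ h2 (Submodule.mem_sup_right h1)

private theorem BP_V (D : TD 𝓛 M₁ N') (q : ℕ) :
    sh 𝓛 (-1) (D.VT q) ≤ (Zc (tw 𝓛 D.X₂) (q : ℤ)).map (BP_p D) := by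
  intro x hx
  rw [mem_sh, neg_neg, zpow_one] at hx
  obtain ⟨u', hu', he⟩ := hx
  have e : (fun a => 𝓛.σ (𝓛.σ.symm (u' a))) = u' := by
    funext a
    exact 𝓛.σ.apply_symm_apply _
  refine ⟨fun a => 𝓛.σ.symm (u' a), mem_Zc_tw.2 (by rw [e]; exact hu'), ?_⟩
  rw [BP_pp, e, he, smul_smul, Units.inv_mul, one_smul]

theorem TD.le_plus (hR : Aus R d) (h : GP 𝓛 M₁ N') (D : TD 𝓛 M₁ N') (q : ℕ) :
    Le (q + 1) (D.VT q ⊔ D.BT q) (sh 𝓛 (-1) (D.VT q)) := by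
  have hn : IsNoetherianRing R := hR.noeth
  obtain ⟨ε, hε⟩ := C₁_res h D
  have h1 := hR.aus D.C₁ hε.nonneg hε.exact (q + 1) (by omega)
  have h2 := (Le.comap (BP_j D) h1).right (BP_Z D q)
  have h3 := h2.left (BP_B D q)
  exact (Le.map (BP_p D) h3).right (BP_V D q)

end Pool.Agent.H19.UR
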