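import Pool.Agent.H19.UR.BDef

/-!
# Module BQ: the cocycles over those with all coefficients coboundaries (step (b5a))

`F J = {x ∈ ZT q : cf n (x ∘ inl) ∈ Bc X₁ (q+1) for all n ∉ J}` for a finite set `J` of integers (a submodule over `R`:
`cf_add`, `cf_i_smul`, `𝓛.smul_eq`). `P b = sh 𝓛 b ((Bc X₁ (q+1)).comap D.c₀)`, `Z b = sh 𝓛 b ((Zc X₁ (q+1)).comap D.c₀)`;
`x ∈ P b ↔ cf b (x ∘ inl) ∈ Bc X₁ (q+1)` (`mem_sh`, `cf_t_smul` with `m = -b`, `n = 0`), same for `Z b`; `ZT q ≤ Z b` (`TD.cf_mem`).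
`hR.aus D.X₁ D.h₁.nonneg D.h₁.exact (q + 1)`, `Le.comap D.c₀`, `Le.sh b`: `Le (q+1) (P b) (Z b)`. `F (insert b J) ≤ ZT ≤ Z b`, so `Le.right`,
`Le.inf`: `Le (q+1) (P b ⊓ F (insert b J)) (F (insert b J))`, and `P b ⊓ F (insert b J) ≤ F J`: `Le.left`:
`Le (q+1) (F J) (F (insert b J))`. `Finset.induction`, `Le.trans`: `Le (q+1) (QT q) (F J)` (`QT q = F ∅`). `Le.directed` (`J` over
`Finset ℤ`, `J ∪ J'`), `ZT q ≤ ⨆ J, F J` (`cf_fin`: take for `J` the set of the nonzero coefficients), `Le.right`. -/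

set_option autoImplicit false

open Matrix Pool.Agent.H16.UN

namespace Pool.Agent.H19.UR

variable {R S : Type} [Ring R] [StarRing R] [Ring S] [StarRing S] [Module R S] {𝓛 : Lau R S}
  {M : Type} [AddCommGroup M] [Module R M] [Module S M] [IsScalarTower R S M]
  {M₁ N' : Submodule R M} [IsScalarTower R S S]

/-- the cocycles `(v, u)` with all coefficients of `v` coboundaries -/
def TD.QT (D : TD 𝓛 M₁ N') (q : ℕ) : Submodule R (D.T.ι → S) where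
  carrier := {x | x ∈ D.ZT q ∧ ∀ n, cf 𝓛 n (fun a => x (Sum.inl a)) ∈ Bc D.X₁ ((q : ℤ) + 1)}
  add_mem' := by
    rintro x y ⟨h1, h2⟩ ⟨h3, h4⟩
    refine ⟨add_mem h1 h3, fun n => ?_⟩
    have := add_mem (h2 n) (h4 n)
    rwa [← cf_add] at this
  zero_mem' := by
    refine ⟨zero_mem _, fun n => ?_⟩
    have h : cf 𝓛 n (fun a => (0 : D.T.ι → S) (Sum.inl a)) = 0 := cf_zero 𝓛 n
    rw [h]
    exact zero_mem _
  smul_mem' := by
    rintro r x ⟨h1, h2⟩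
    refine ⟨Submodule.smul_mem _ r h1, fun n => ?_⟩
    have h : cf 𝓛 n (fun a => (r • x) (Sum.inl a)) =
        (𝓛.σ ^ (-n)) r • cf 𝓛 n (fun a => x (Sum.inl a)) := by
      rw [← cf_i_smul]
      congr 1
      funext a
      simp [𝓛.smul_eq]
    rw [h]
    exact Submodule.smul_mem _ _ (h2 n)

theorem TD.le_QT {d : ℤ} (hR : Aus R d) (D : TD 𝓛 M₁ N') (q : ℕ) :
    Le (q + 1) (D.QT q) (D.ZT q) := by
  have := hR.noeth
  have hP : ∀ (b : ℤ) (A : Submodule R (D.X₁.ι → R)) (x : D.T.ι → S),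
      x ∈ sh 𝓛 b (A.comap D.c₀) ↔ cf 𝓛 b (fun a => x (Sum.inl a)) ∈ A := by
    intro b A x
    have h1 : D.c₀ (((𝓛.t ^ (-b) : Sˣ) : S) • x) = cf 𝓛 b (fun a => x (Sum.inl a)) := by
      show cf 𝓛 0 (((𝓛.t ^ (-b) : Sˣ) : S) • (fun a => x (Sum.inl a))) = _
      rw [cf_t_smul, zero_sub, neg_neg]
    rw [mem_sh, Submodule.mem_comap, h1]
  have hA : Le (q + 1) (Bc D.X₁ ((q : ℤ) + 1)) (Zc D.X₁ ((q : ℤ) + 1)) := by
    have h1 := hR.aus D.X₁ D.h₁.nonneg D.h₁.exact (q + 1) (by omega)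
    rwa [Nat.cast_add, Nat.cast_one] at h1
  let F : Finset ℤ → Submodule R (D.T.ι → S) := fun J =>
    D.ZT q ⊓ ⨅ (n : ℤ) (_ : n ∉ J), sh 𝓛 n ((Bc D.X₁ ((q : ℤ) + 1)).comap D.c₀)
  have hF : ∀ (J : Finset ℤ) (x : D.T.ι → S), x ∈ F J ↔
      x ∈ D.ZT q ∧ ∀ n, n ∉ J → cf 𝓛 n (fun a => x (Sum.inl a)) ∈ Bc D.X₁ ((q : ℤ) + 1) := by
    intro J x
    show x ∈ D.ZT q ⊓ ⨅ (n : ℤ) (_ : n ∉ J), sh 𝓛 n ((Bc D.X₁ ((q : ℤ) + 1)).comap D.c₀) ↔ _
    rw [Submodule.mem_inf]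
    refine and_congr Iff.rfl ?_
    simp only [Submodule.mem_iInf]
    exact forall_congr' fun n => forall_congr' fun _ => hP n _ x
  have hQF : ∀ J, D.QT q ≤ F J := fun J x hx => (hF J x).2 ⟨hx.1, fun n _ => hx.2 n⟩
  have hmain : ∀ J, Le (q + 1) (D.QT q) (F J) := by
    intro J
    induction J using Finset.induction_on with
    | empty =>
      refine Le.of_le _ fun x hx => ?_
      have h1 := (hF ∅ x).1 hx
      exact ⟨h1.1, fun n => h1.2 n (Finset.notMem_empty n)⟩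
    | insert b J _ ih =>
      refine ih.trans (hQF J) ?_
      have h1 := (hA.comap D.c₀).sh 𝓛 b
      have h2 : F (insert b J) ≤ sh 𝓛 b ((Zc D.X₁ ((q : ℤ) + 1)).comap D.c₀) := fun x hx =>
        (hP b _ x).2 (D.cf_mem ((hF _ x).1 hx).1 b)
      refine ((h1.right h2).inf).left fun x hx => ?_
      obtain ⟨h3, h4⟩ := Submodule.mem_inf.1 hx
      have h5 := (hF _ x).1 h4
      refine (hF J x).2 ⟨h5.1, fun n hn => ?_⟩
      rcases eq_or_ne n b with h6 | h6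
      · rw [h6]
        exact (hP b _ x).1 h3
      · exact h5.2 n fun h7 => (Finset.mem_insert.1 h7).elim h6 hn
  have hmono : ∀ J J' : Finset ℤ, J ⊆ J' → F J ≤ F J' := fun J J' h x hx => by
    have h1 := (hF J x).1 hx
    exact (hF J' x).2 ⟨h1.1, fun n hn => h1.2 n fun h2 => hn (h h2)⟩
  have hdir : Directed (· ≤ ·) F := fun J J' =>
    ⟨J ∪ J', hmono _ _ Finset.subset_union_left, hmono _ _ Finset.subset_union_right⟩
  refine (Le.directed F hdir hmain).right fun x hx => ?_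
  refine (le_iSup F (cf_fin 𝓛 (fun a => x (Sum.inl a))).toFinset) ((hF _ x).2 ⟨hx, fun n hn => ?_⟩)
  have h1 : cf 𝓛 n (fun a => x (Sum.inl a)) = 0 := by
    by_contra h2
    exact hn ((Set.Finite.mem_toFinset _).2 h2)
  rw [h1]
  exact zero_mem _

end Pool.Agent.H19.UR
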