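import Pool.Agent.H19.UR.Win

/-!
# Module BW: windows of `V` over `V + B` (step (b5c))

`B` invariant: `sh n B = B`. From `h2` by `Le.sh (-k)`, `sh_sh`, `sh_sup`: `Le q (sh (-k) V ⊔ B) (sh (-k-1) V)`; from `h1` by
`Le.sh (k+1)`: `Le q (sh k V ⊔ B) (sh (k+1) V)`. `U n = B ⊔ win (-n) n V`, `U 0 = B ⊔ V`. Induction on `n`:
`U (n+1) = U n ⊔ sh (n+1) V ⊔ sh (-n-1) V` (`win_succ`, `win_pred`, `win_mono`), `sh n V ⊔ B ≤ U n`, `sh (-n) V ⊔ B ≤ U n`, so
`Le q (U n) (sh (n+1) V)` and `Le q (U n) (sh (-n-1) V)` by `Le.left`; `Le q (U n) (U n)` (`Le.of_le`), `Le.sup` gives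
`Le q (U n) (U (n+1))`, and `Le.trans` (`V ⊔ B ≤ U n`). `le_wins`: `Le.directed` (the `U n` increase). -/

set_option autoImplicit false

open Pool.Agent.H16.UN

namespace Pool.Agent.H19.UR

variable {R S : Type} [Ring R] [StarRing R] [Ring S] [StarRing S] [Module R S] (𝓛 : Lau R S)
  {M : Type} [AddCommGroup M] [Module R M] [Module S M] [IsScalarTower R S M]

theorem le_win [IsNoetherianRing R] {q : ℕ} {V B : Submodule R M} (hB : ∀ n, sh 𝓛 n B = B)
    (h1 : Le q (sh 𝓛 (-1) V ⊔ B) V) (h2 : Le q (V ⊔ B) (sh 𝓛 (-1) V)) (n : ℕ) :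
    Le q (V ⊔ B) (B ⊔ win 𝓛 (-(n : ℤ)) n V) := by
  have hV : ∀ k : ℕ, V ≤ win 𝓛 (-(k : ℤ)) k V := by
    intro k
    have h := sh_le_win 𝓛 (a := -(k : ℤ)) (b := k) (n := 0) (by omega) (by omega) V
    rwa [sh_zero] at h
  induction n with
  | zero =>
    refine Le.of_le q (sup_le le_sup_right (win_le 𝓛 fun m hm1 hm2 => ?_))
    have hm : m = 0 := by
      push_cast at hm1 hm2
      omega
    rw [hm, sh_zero]
    exact le_sup_left
  | succ n ih =>
    have ha : Le q (B ⊔ win 𝓛 (-(n : ℤ)) n V) (sh 𝓛 ((n : ℤ) + 1) V) := by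
      have h3 := h1.sh 𝓛 ((n : ℤ) + 1)
      rw [sh_sup, sh_sh, hB, add_neg_cancel_right] at h3
      exact h3.left (sup_le ((sh_le_win 𝓛 (by omega) le_rfl V).trans le_sup_right) le_sup_left)
    have hb : Le q (B ⊔ win 𝓛 (-(n : ℤ)) n V) (sh 𝓛 (-(n : ℤ) + -1) V) := by
      have h3 := h2.sh 𝓛 (-(n : ℤ))
      rw [sh_sup, sh_sh, hB] at h3
      exact h3.left (sup_le ((sh_le_win 𝓛 le_rfl (by omega) V).trans le_sup_right) le_sup_left)
    have hc : Le q (B ⊔ win 𝓛 (-(n : ℤ)) n V) (B ⊔ win 𝓛 (-(n : ℤ)) n V) := Le.of_le q le_rfl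
    refine ih.trans (sup_le ((hV n).trans le_sup_right) le_sup_left) ?_
    refine ((hc.sup ha).sup hb).right (sup_le ?_ (win_le 𝓛 fun m hm1 hm2 => ?_))
    · exact le_sup_left.trans (le_sup_left.trans le_sup_left)
    · push_cast at hm1 hm2
      rcases eq_or_ne m ((n : ℤ) + 1) with h4 | h4
      · rw [h4]
        exact le_sup_right.trans le_sup_left
      · rcases eq_or_ne m (-(n : ℤ) + -1) with h5 | h5
        · rw [h5]
          exact le_sup_right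
        · exact ((sh_le_win 𝓛 (by omega) (by omega) V).trans le_sup_right).trans
            (le_sup_left.trans le_sup_left)

theorem le_wins [IsNoetherianRing R] {q : ℕ} {V B : Submodule R M} (hB : ∀ n, sh 𝓛 n B = B)
    (h1 : Le q (sh 𝓛 (-1) V ⊔ B) V) (h2 : Le q (V ⊔ B) (sh 𝓛 (-1) V)) :
    Le q (V ⊔ B) (⨆ n : ℕ, B ⊔ win 𝓛 (-(n : ℤ)) n V) := by
  refine Le.directed _ ?_ fun n => le_win 𝓛 hB h1 h2 n
  intro k l
  refine ⟨k + l, ?_, ?_⟩
  · exact sup_le_sup le_rfl (win_mono 𝓛 (by push_cast; omega) (by push_cast; omega) le_rfl)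
  · exact sup_le_sup le_rfl (win_mono 𝓛 (by push_cast; omega) (by push_cast; omega) le_rfl)

end Pool.Agent.H19.UR
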