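import Pool.Agent.H19.UR.BM
import Pool.Agent.H19.UR.BP
import Pool.Agent.H19.UR.BW
import Pool.Agent.H19.UR.BQ

/-!
# Module BFin: the cocycles over `V + B` (steps (b5b), (b5))

* `QT_le`: `x = (v, u) ∈ QT q`. As in `coex_map` (`Up.lean`): choose `w_n` of degree `q` on `X₁` with `w_n D₁ᴴ = cf n v` and `w_n = 0` where
  `cf n v = 0`; `exists_cf`: `w` over `S` of degree `q` with `w D₁ᴴ = v` (`hom_cf`, `cf_vecMul`, `cf_ext`). With `BT_of`, `z = 0`: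
  `x - (w D₁ᴴ, w φᴴ) = (0, u')` with `(w D₁ᴴ, w φᴴ) ∈ BT ≤ ZT`, so `(0, u') ∈ ZT`: `u' D₂ᴴ = 0` (`vecMul_TH`) and `u'` of degree `q`, so
  `cf n u' ∈ Zc X₂ q` for all `n`. `(0, u') = ∑_{n ∈ supp} t^n • D.p (cf n u')` (`Lau.expand`, or `cf_ext` on both sides), in
  `win (-N) N V` for `N` large (`sh_le_win`, `mem_sh`).
* `TD.le_ZT`: `E = ⨆ n, BT ⊔ win (-n) n V`; `le_wins` with `le_minus`, `le_plus`, `sh_BT`: `Le (q+1) (V ⊔ BT) E`; `TD.le_QT`, `QT_le`, `Le.left`: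
  `Le (q+1) E ZT`; `Le.trans` (`V ⊔ BT ≤ E`: `n = 0`, `sh_zero`). `haveI := hR.noeth`. -/

set_option autoImplicit false

open Matrix Pool.Agent.H16.UN

namespace Pool.Agent.H19.UR

variable {R S : Type} [Ring R] [StarRing R] [Ring S] [StarRing S] [Module R S] {𝓛 : Lau R S}
  {M : Type} [AddCommGroup M] [Module R M] [Module S M] [IsScalarTower R S M]
  {M₁ N' : Submodule R M} [IsScalarTower R S S]

/-- a cochain `(0, u)` with all coefficients of `u` cocycles lies in a window of `V` -/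
private theorem bFin_win (D : TD 𝓛 M₁ N') (q : ℕ) (u : D.X₂.ι → S)
    (hu : ∀ n, cf 𝓛 n u ∈ Zc D.X₂ (q : ℤ)) :
    ∃ n : ℕ, (Sum.elim 0 u : D.T.ι → S) ∈ win 𝓛 (-(n : ℤ)) n (D.VT q) := by
  classical
  have e : (Sum.elim 0 u : D.T.ι → S) =
      ∑ n ∈ (cf_fin 𝓛 u).toFinset, ((𝓛.t ^ n : Sˣ) : S) • D.p (cf 𝓛 n u) := by
    funext a
    rw [Finset.sum_apply]
    rcases a with a | a
    · show (0 : S) = ∑ n ∈ (cf_fin 𝓛 u).toFinset, ((𝓛.t ^ n : Sˣ) : S) • (0 : S)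
      simp
    · show u a = ∑ n ∈ (cf_fin 𝓛 u).toFinset, ((𝓛.t ^ n : Sˣ) : S) * 𝓛.i (𝓛.co n (u a))
      conv_lhs => rw [𝓛.expand (u a)]
      refine Finset.sum_subset ?_ ?_
      · intro n hn
        rw [Set.Finite.mem_toFinset] at hn ⊢
        intro h0
        exact hn (congrFun h0 a)
      · intro n _ hn
        rw [Set.Finite.mem_toFinset] at hn
        have h0 : 𝓛.co n (u a) = 0 := by
          by_contra h1
          exact hn h1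
        rw [h0, map_zero, mul_zero]
  refine ⟨(cf_fin 𝓛 u).toFinset.sup Int.natAbs, ?_⟩
  rw [e]
  refine Submodule.sum_mem _ fun n hn => ?_
  have h1 : Int.natAbs n ≤ (cf_fin 𝓛 u).toFinset.sup Int.natAbs := Finset.le_sup (f := Int.natAbs) hn
  refine sh_le_win 𝓛 (n := n) (by omega) (by omega) (D.VT q) ?_
  rw [mem_sh, smul_smul, ← Units.val_mul, ← _root_.zpow_add, neg_add_cancel, zpow_zero, Units.val_one,
    one_smul]
  exact Submodule.mem_map_of_mem (hu n)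

theorem TD.QT_le (D : TD 𝓛 M₁ N') (q : ℕ) :
    D.QT q ≤ ⨆ n : ℕ, D.BT q ⊔ win 𝓛 (-(n : ℤ)) n (D.VT q) := by
  classical
  rintro x ⟨hx, hc⟩
  have h1 : ∀ n, ∃ w, D.X₁.Hom (q : ℤ) w ∧ w ᵥ* D.X₁.Dᴴ = cf 𝓛 n (fun a => x (Sum.inl a)) ∧
      (cf 𝓛 n (fun a => x (Sum.inl a)) = 0 → w = 0) := fun n => by
    by_cases h0 : cf 𝓛 n (fun a => x (Sum.inl a)) = 0
    · exact ⟨0, fun a ha => absurd rfl ha, by rw [h0, zero_vecMul], fun _ => rfl⟩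
    · obtain ⟨w, h2, h3⟩ := hc n
      rw [add_sub_cancel_right] at h2
      exact ⟨w, h2, h3, fun h4 => absurd h4 h0⟩
  choose w hw1 hw2 hw3 using h1
  obtain ⟨W, hW⟩ := exists_cf 𝓛 w
    ((cf_fin 𝓛 (fun a => x (Sum.inl a))).subset fun n hn h0 => hn (hw3 n h0))
  have hWh : (D.X₁.map 𝓛.i).Hom (q : ℤ) W := (hom_cf 𝓛).2 fun n => by rw [hW]; exact hw1 n
  have hWd : W ᵥ* D.X₁.Dᴴ.map 𝓛.i = fun a => x (Sum.inl a) := cf_ext 𝓛 fun n => by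
    rw [cf_vecMul, hW, hw2]
  have hb := D.BT_of (q := q) (w := W) (z := (0 : D.X₂.ι → S)) hWh (fun a ha => absurd rfl ha)
  rw [hWd] at hb
  set b : D.T.ι → S := Sum.elim (fun a => x (Sum.inl a))
    (W ᵥ* D.phiᴴ - (0 : D.X₂.ι → S) ᵥ* D.X₂.Dᴴ.map 𝓛.i) with hbdef
  set u : D.X₂.ι → S := fun a => x (Sum.inr a) - b (Sum.inr a) with hu
  have e : x = b + (Sum.elim (0 : D.X₁.ι → S) u : D.T.ι → S) := by
    funext a
    rcases a with a | a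
    · show x (Sum.inl a) = x (Sum.inl a) + 0
      rw [add_zero]
    · show x (Sum.inr a) = b (Sum.inr a) + (x (Sum.inr a) - b (Sum.inr a))
      abel
  have hz : (Sum.elim 0 u : D.T.ι → S) ∈ Zc D.T ((q : ℤ) + 1) := by
    have h2 : (Sum.elim 0 u : D.T.ι → S) = x - b := by
      rw [eq_sub_iff_add_eq, add_comm]
      exact e.symm
    rw [h2]
    exact sub_mem hx (D.BT_le_ZT q hb)
  obtain ⟨hz1, hz2⟩ := mem_Zc.1 hz
  have hz3 : u ᵥ* D.X₂.Dᴴ.map 𝓛.i = 0 := by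
    rw [D.vecMul_TH] at hz2
    funext a
    have h3 := congrFun hz2 (Sum.inr a)
    simp only [Sum.elim_inr, zero_vecMul, zero_sub, Pi.neg_apply, Pi.zero_apply, neg_eq_zero] at h3
    exact h3
  have hu1 : (D.X₂.map 𝓛.i).Hom (q : ℤ) u := by
    intro a ha
    have h3 : D.X₂.deg a + 1 = (q : ℤ) + 1 := hz1 (Sum.inr a) ha
    show D.X₂.deg a = (q : ℤ)
    omega
  have hu2 : ∀ n, cf 𝓛 n u ∈ Zc D.X₂ (q : ℤ) := fun n =>
    mem_Zc.2 ⟨(hom_cf 𝓛).1 hu1 n, by rw [← cf_vecMul, hz3, cf_zero]⟩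
  obtain ⟨n, hn⟩ := bFin_win D q u hu2
  rw [e]
  exact (le_iSup (fun n : ℕ => D.BT q ⊔ win 𝓛 (-(n : ℤ)) n (D.VT q)) n)
    (Submodule.add_mem_sup hb hn)

theorem TD.le_ZT {d : ℤ} (hR : Aus R d) (h : GP 𝓛 M₁ N') (D : TD 𝓛 M₁ N') (q : ℕ) :
    Le (q + 1) (D.VT q ⊔ D.BT q) (D.ZT q) := by
  have := hR.noeth
  have h1 := le_wins 𝓛 (fun n => D.sh_BT q n) (TD.le_minus hR h D q) (TD.le_plus hR h D q)
  refine Le.trans ?_ h1 (Le.left (TD.QT_le D q) (TD.le_QT hR D q))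
  refine le_trans (sup_le ?_ le_sup_left)
    (le_iSup (fun n : ℕ => D.BT q ⊔ win 𝓛 (-(n : ℤ)) n (D.VT q)) 0)
  refine le_trans ?_ le_sup_right
  have h2 := sh_le_win 𝓛 (a := -((0 : ℕ) : ℤ)) (b := ((0 : ℕ) : ℤ)) (n := 0) (by simp) (by simp)
    (D.VT q)
  rwa [sh_zero] at h2

end Pool.Agent.H19.UR
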