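import Pool.Agent.H19.UR.BDef

/-!
# Module BM: `V` over `B`, and `V` over `t⁻¹ V + B` (steps (b3), (b4), (s-))

* `VT_fg`: `Zc X₂ q` is a submodule of the noetherian module `X₂.ι → R`; `FG.map`.
* `le_VT`: `q = 0`: `Le.zero`. `q ≥ 1`: `hR.aus D.X₂ D.h₂.nonneg D.h₂.exact q`: `Le q (Bc X₂ q) (Zc X₂ q)`;
  `Bc X₂ q ≤ (D.BT q).comap D.p` (`BT_p`), `Le.left`, `Le.map`.
* `le_minus`: `C₀_res h D`: `D.C₀` is nonnegative and exact in positive degrees, so `hR.aus D.C₀ _ _ (q + 1)`: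
  `Le (q + 1) (Bc C₀ (q+1)) (Zc C₀ (q+1))`. The linear map `j : u ↦ (0, u)` (`Sum.elim 0 u`) sends `Zc X₂ q` to
  `Zc C₀ (q+1)` (`C₀.D = fromBlocks X₁.D 0 f₀ (-X₂.D)`, `(v, u) C₀.Dᴴ = (v D₁ᴴ, v f₀ᴴ - u D₂ᴴ)`), so by `Le.comap` and
  `Le.right`: `Le (q+1) ((Bc C₀ (q+1)).comap j) (Zc X₂ q)`. If `(0, u) = (w, z) C₀.Dᴴ` (`w` of degree `q` on `X₁`, `z` of degree
  `q - 1` on `X₂`) then `w ∈ Zc X₁ q` and `u = w f₀ᴴ - z D₂ᴴ`. `D.p (z D₂ᴴ) ∈ BT` (`BT_p`) and, by `BT_rel`,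
  `D.p (w f₀ᴴ) = (0, e i(w f₁ᴴ) t⁻¹) - (element of BT)`, where `(0, e i(y) t⁻¹) ∈ sh (-1) V`, `y = w f₁ᴴ ∈ Zc (tw X₂) q` (`Zc_map D.m₁`):
  `t (0, e i(y) t⁻¹) = (0, e i(σ y)) = e • D.p (σ y)` and `σ y ∈ Zc X₂ q` (`mem_Zc_tw`). So
  `(Bc C₀ (q+1)).comap j ≤ (sh (-1) V ⊔ BT).comap D.p`; `Le.left`, `Le.map`. -/

set_option autoImplicit false

open Matrix Pool.Agent.H16.UN

namespace Pool.Agent.H19.UR

variable {R S : Type} [Ring R] [StarRing R] [Ring S] [StarRing S] [Module R S] {𝓛 : Lau R S}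
  {M : Type} [AddCommGroup M] [Module R M] [Module S M] [IsScalarTower R S M]
  {M₁ N' : Submodule R M} [IsScalarTower R S S] {d : ℤ}

theorem TD.VT_fg (hR : Aus R d) (D : TD 𝓛 M₁ N') (q : ℕ) : (D.VT q).FG := by
  have := hR.noeth
  have h1 : (Zc D.X₂ (q : ℤ)).FG := IsNoetherian.noetherian _
  exact h1.map D.p

theorem TD.le_VT (hR : Aus R d) (D : TD 𝓛 M₁ N') (q : ℕ) : Le q (D.BT q) (D.VT q) := by
  have := hR.noeth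
  rcases Nat.eq_zero_or_pos q with rfl | hq
  · exact Le.zero hR _ _
  · have h1 : Le q (Bc D.X₂ (q : ℤ)) (Zc D.X₂ (q : ℤ)) := hR.aus D.X₂ D.h₂.nonneg D.h₂.exact q hq
    have h2 : Bc D.X₂ (q : ℤ) ≤ (D.BT q).comap D.p := fun u hu => D.BT_p hu
    exact (h1.left h2).map D.p

private def BM_j (D : TD 𝓛 M₁ N') : (D.X₂.ι → R) →ₗ[R] (D.C₀.ι → R) where
  toFun u := Sum.elim 0 u
  map_add' u v := by
    funext a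
    rcases a with a | a
    · simp
    · simp
  map_smul' r u := by
    funext a
    rcases a with a | a
    · simp
    · simp

omit [IsScalarTower R S S] [IsScalarTower R S M] in
private theorem BM_C0 (D : TD 𝓛 M₁ N') (v : D.X₁.ι → R) (u : D.X₂.ι → R) :
    (Sum.elim v u ᵥ* D.C₀.Dᴴ : D.X₁.ι ⊕ D.X₂.ι → R) =
      Sum.elim (v ᵥ* D.X₁.Dᴴ) (v ᵥ* D.f₀ᴴ - u ᵥ* D.X₂.Dᴴ) := by
  have h : D.C₀.Dᴴ = fromBlocks D.X₁.Dᴴ D.f₀ᴴ 0 (-D.X₂.Dᴴ) := by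
    show (fromBlocks D.X₁.D 0 D.f₀ (-D.X₂.D))ᴴ = _
    rw [fromBlocks_conjTranspose, conjTranspose_zero, conjTranspose_neg]
  rw [h, vecMul_fromBlocks, vecMul_zero, add_zero, vecMul_neg, sub_eq_add_neg]
  rfl

omit [IsScalarTower R S S] [IsScalarTower R S M] in
private theorem BM_Zc (D : TD 𝓛 M₁ N') (q : ℕ) :
    Zc D.X₂ (q : ℤ) ≤ (Zc D.C₀ (((q + 1 : ℕ) : ℤ))).comap (BM_j D) := by
  intro u hu
  obtain ⟨h1, h2⟩ := mem_Zc.1 hu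
  refine mem_Zc.2 ⟨?_, ?_⟩
  · rintro (a | a) ha
    · exact absurd rfl ha
    · show D.X₂.deg a + 1 = ((q + 1 : ℕ) : ℤ)
      rw [h1 a ha]
      push_cast
      rfl
  · have h3 := BM_C0 D 0 u
    rw [h2, zero_vecMul, zero_vecMul, sub_zero] at h3
    refine Eq.trans h3 ?_
    funext a
    rcases a with a | a
    · rfl
    · rfl

private theorem BM_sh (D : TD 𝓛 M₁ N') (q : ℕ) {y : D.X₂.ι → R}
    (hy : (fun a => 𝓛.σ (y a)) ∈ Zc D.X₂ (q : ℤ)) :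
    (Sum.elim 0 (fun b => (𝓛.e : S) * (𝓛.i (y b) * ((𝓛.t⁻¹ : Sˣ) : S))) : D.T.ι → S) ∈
      sh 𝓛 (-1) (D.VT q) := by
  rw [mem_sh, neg_neg, zpow_one]
  have h1 : ((𝓛.t : Sˣ) : S) •
      (Sum.elim 0 (fun b => (𝓛.e : S) * (𝓛.i (y b) * ((𝓛.t⁻¹ : Sˣ) : S))) : D.T.ι → S) =
      𝓛.e • D.p (fun a => 𝓛.σ (y a)) := by
    funext a
    rcases a with a | a
    · show ((𝓛.t : Sˣ) : S) * 0 = 𝓛.e • (0 : S)
      rw [mul_zero, smul_zero]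
    · show ((𝓛.t : Sˣ) : S) * ((𝓛.e : S) * (𝓛.i (y a) * ((𝓛.t⁻¹ : Sˣ) : S))) =
        𝓛.e • 𝓛.i (𝓛.σ (y a))
      rw [zsmul_eq_mul, ← mul_assoc, ← (Int.cast_commute 𝓛.e ((𝓛.t : Sˣ) : S)).eq, mul_assoc,
        ← mul_assoc ((𝓛.t : Sˣ) : S), 𝓛.comm, mul_assoc, Units.mul_inv, mul_one]
  rw [h1]
  exact zsmul_mem (Submodule.mem_map_of_mem hy) _

private theorem BM_key (D : TD 𝓛 M₁ N') (q : ℕ) :
    (Bc D.C₀ (((q + 1 : ℕ) : ℤ))).comap (BM_j D) ≤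
      (sh 𝓛 (-1) (D.VT q) ⊔ D.BT q).comap D.p := by
  intro u hu
  obtain ⟨x, hx, hxu⟩ := mem_Bc.1 hu
  obtain ⟨w, z, rfl⟩ : ∃ (w : D.X₁.ι → R) (z : D.X₂.ι → R), x = Sum.elim w z :=
    ⟨fun a => x (Sum.inl a), fun a => x (Sum.inr a), by
      funext a
      rcases a with a | a
      · rfl
      · rfl⟩
  have h0 := BM_C0 D w z
  have h0' : (Sum.elim (w ᵥ* D.X₁.Dᴴ) (w ᵥ* D.f₀ᴴ - z ᵥ* D.X₂.Dᴴ) : D.X₁.ι ⊕ D.X₂.ι → R) =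
      BM_j D u := h0.symm.trans hxu
  have hw0 : w ᵥ* D.X₁.Dᴴ = 0 := by
    funext a
    exact congrFun h0' (Sum.inl a)
  have hu0 : w ᵥ* D.f₀ᴴ - z ᵥ* D.X₂.Dᴴ = u := by
    funext a
    exact congrFun h0' (Sum.inr a)
  have hw : w ∈ Zc D.X₁ (q : ℤ) := by
    refine mem_Zc.2 ⟨fun a ha => ?_, hw0⟩
    have h1 : D.X₁.deg a = ((q + 1 : ℕ) : ℤ) - 1 := hx (Sum.inl a) ha
    rw [h1]
    push_cast
    ring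
  have hz : z ᵥ* D.X₂.Dᴴ ∈ Bc D.X₂ (q : ℤ) := by
    refine mem_Bc.2 ⟨z, fun a ha => ?_, rfl⟩
    have h1 : D.X₂.deg a + 1 = ((q + 1 : ℕ) : ℤ) - 1 := hx (Sum.inr a) ha
    have h2 : ((q + 1 : ℕ) : ℤ) = (q : ℤ) + 1 := by push_cast; rfl
    omega
  have hy : (fun a => 𝓛.σ ((w ᵥ* D.f₁ᴴ) a)) ∈ Zc D.X₂ (q : ℤ) :=
    mem_Zc_tw.1 (Zc_map D.m₁ hw)
  have h1 := BM_sh D q hy
  have h2 := D.BT_rel hw
  have h3 := D.BT_p hz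
  have h4 : D.p u =
      (Sum.elim 0 (fun b => (𝓛.e : S) * (𝓛.i ((w ᵥ* D.f₁ᴴ) b) * ((𝓛.t⁻¹ : Sˣ) : S))) : D.T.ι → S) -
      (Sum.elim 0 (fun b => (𝓛.e : S) * (𝓛.i ((w ᵥ* D.f₁ᴴ) b) * ((𝓛.t⁻¹ : Sˣ) : S)) -
        𝓛.i ((w ᵥ* D.f₀ᴴ) b)) : D.T.ι → S) - D.p (z ᵥ* D.X₂.Dᴴ) := by
    rw [← hu0, map_sub]
    congr 1
    funext a
    rcases a with a | a
    · show (0 : S) = 0 - 0
      rw [sub_zero]
    · show 𝓛.i ((w ᵥ* D.f₀ᴴ) a) = (𝓛.e : S) * (𝓛.i ((w ᵥ* D.f₁ᴴ) a) * ((𝓛.t⁻¹ : Sˣ) : S)) -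
        ((𝓛.e : S) * (𝓛.i ((w ᵥ* D.f₁ᴴ) a) * ((𝓛.t⁻¹ : Sˣ) : S)) - 𝓛.i ((w ᵥ* D.f₀ᴴ) a))
      abel
  rw [Submodule.mem_comap, h4]
  refine Submodule.sub_mem _ (Submodule.sub_mem _ ?_ ?_) ?_
  · exact Submodule.mem_sup_left h1
  · exact Submodule.mem_sup_right h2
  · exact Submodule.mem_sup_right h3

theorem TD.le_minus (hR : Aus R d) (h : GP 𝓛 M₁ N') (D : TD 𝓛 M₁ N') (q : ℕ) :
    Le (q + 1) (sh 𝓛 (-1) (D.VT q) ⊔ D.BT q) (D.VT q) := by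
  have := hR.noeth
  obtain ⟨ε, hε⟩ := C₀_res h D
  have h1 : Le (q + 1) (Bc D.C₀ (((q + 1 : ℕ) : ℤ))) (Zc D.C₀ (((q + 1 : ℕ) : ℤ))) :=
    hR.aus D.C₀ hε.nonneg hε.exact (q + 1) (Nat.succ_le_succ (Nat.zero_le q))
  have h2 := (h1.comap (BM_j D)).right (BM_Zc D q)
  exact (h2.left (BM_key D q)).map D.p

end Pool.Agent.H19.UR
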