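import Pool.Agent.H16.UN.Good

/-!
# Resolutions, grade, the Auslander condition (Theorem U, block 4)

Complexes `FC R` as in `Pool.Agent.H16.UN.Def`: row vectors, left modules. The cochains of `X` are the
row vectors with the differential `v ↦ v Dᴴ`; the cohomology of the dual is again a left module by
means of the involution.
-/

set_option autoImplicit false

open Matrix Pool.Agent.H16.UN

namespace Pool.Agent.H19.UR

section basic

variable {R : Type} [Ring R]

/-- evaluation of a row vector: the linear map with `e_a ↦ ε a` -/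
def ev {ι : Type} [Fintype ι] {K : Type} [AddCommGroup K] [Module R K] (ε : ι → K) :
    (ι → R) →ₗ[R] K where
  toFun v := ∑ a, v a • ε a
  map_add' v w := by simp [add_smul, Finset.sum_add_distrib]
  map_smul' r v := by simp [Finset.smul_sum, mul_smul]

/-- `X` with the augmentation `ε` is a resolution of `K` by free modules of finite rank -/
structure IsRes (X : FC R) {K : Type} [AddCommGroup K] [Module R K] (ε : X.ι → K) : Prop where
  nonneg : ∀ a, 0 ≤ X.deg a
  exact : ∀ k, 0 < k → X.Ex k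
  aug : ∀ w, X.Hom 1 w → ev ε (w ᵥ* X.D) = 0
  ker : ∀ v, X.Hom 0 v → ev ε v = 0 → X.Bd 0 v
  surj : ∀ x : K, ∃ v, X.Hom 0 v ∧ ev ε v = x

end basic

section grade

variable (R : Type) [Ring R] [StarRing R]

/-- `Ext^i(K, R) = 0` for `i < j`, by means of one resolution -/
def Gr (j : ℕ) (K : Type) [AddCommGroup K] [Module R K] : Prop :=
  ∃ (X : FC R) (ε : X.ι → K), IsRes X ε ∧ ∀ i : ℤ, i < j → X.CoEx i

variable {R}

/-- the cocycles of degree `i` of the dual of `X` -/
def Zc (X : FC R) (i : ℤ) : Submodule R (X.ι → R) where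
  carrier := {v | X.Hom i v ∧ v ᵥ* X.Dᴴ = 0}
  add_mem' := by
    rintro v w ⟨h1, h2⟩ ⟨h3, h4⟩
    refine ⟨fun a ha => ?_, by rw [add_vecMul, h2, h4, add_zero]⟩
    by_cases hv : v a = 0
    · exact h3 a fun hw => ha (by simp [hv, hw])
    · exact h1 a hv
  zero_mem' := ⟨fun a ha => absurd rfl ha, zero_vecMul _⟩
  smul_mem' := by
    rintro r v ⟨h1, h2⟩
    exact ⟨fun a ha => h1 a fun hv => ha (by simp [hv]), by rw [smul_vecMul, h2, smul_zero]⟩

/-- the coboundaries of degree `i` of the dual of `X` -/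
def Bc (X : FC R) (i : ℤ) : Submodule R (X.ι → R) where
  carrier := {v | ∃ w, X.Hom (i - 1) w ∧ w ᵥ* X.Dᴴ = v}
  add_mem' := by
    rintro v w ⟨v', h1, h2⟩ ⟨w', h3, h4⟩
    refine ⟨v' + w', fun a ha => ?_, by rw [add_vecMul, h2, h4]⟩
    by_cases hv : v' a = 0
    · exact h3 a fun hw => ha (by simp [hv, hw])
    · exact h1 a hv
  zero_mem' := ⟨0, fun a ha => absurd rfl ha, zero_vecMul _⟩
  smul_mem' := by
    rintro r v ⟨v', h1, h2⟩
    exact ⟨r • v', fun a ha => h1 a fun hv => ha (by simp [hv]), by rw [smul_vecMul, h2]⟩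

theorem mem_Zc {X : FC R} {i : ℤ} {v : X.ι → R} : v ∈ Zc X i ↔ X.Hom i v ∧ v ᵥ* X.Dᴴ = 0 := Iff.rfl

theorem mem_Bc {X : FC R} {i : ℤ} {v : X.ι → R} :
    v ∈ Bc X i ↔ ∃ w, X.Hom (i - 1) w ∧ w ᵥ* X.Dᴴ = v := Iff.rfl

/-- `A ≼ B` at level `q`: for every finitely generated submodule `K` of `B` the module `K / (K ∩ A)`
has grade at least `q` (all finitely generated submodules of `(A + B) / A` have grade `≥ q`) -/
def Le {M : Type} [AddCommGroup M] [Module R M] (q : ℕ) (A B : Submodule R M) : Prop :=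
  ∀ K : Submodule R M, K.FG → K ≤ B → Gr R q (K ⧸ A.submoduleOf K)

/-- `(g1)`, `(g2)`, `(g3)`: noetherian, resolutions of length at most `d`, the Auslander condition:
finitely generated submodules of `Ext^q(N, R)` have grade at least `q` -/
structure Aus (R : Type) [Ring R] [StarRing R] (d : ℤ) : Prop where
  noeth : IsNoetherianRing R
  res : ∀ (K : Type) [AddCommGroup K] [Module R K], Module.Finite R K →
    ∃ (X : FC R) (ε : X.ι → K), IsRes X ε ∧ ∀ a, X.deg a ≤ d
  aus : ∀ Y : FC R, (∀ a, 0 ≤ Y.deg a) → (∀ k, 0 < k → Y.Ex k) → ∀ q : ℕ, 1 ≤ q →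
    Le q (Bc Y q) (Zc Y q)

end grade

end Pool.Agent.H19.UR
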