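import Pool.Agent.H19.UR.TDef

/-!
# Module TCoex: the dual of `T` is exact below `q` (step (4a))

Cochains of `T`: `x = Sum.elim v u`, `v` on `X₁` of degree `i`, `u` on `X₂` of degree `i - 1`;
`x D_T^H = (v D₁^H, v φ^H - u D₂^H)` (`TD.vecMul_TH`; every `x` is `Sum.elim (x ∘ inl) (x ∘ inr)`).
Let `i < q` and `v D₁^H = 0`, `v φ^H = u D₂^H`.
CLAIM: `v = w D₁^H` with `w` over `S` of degree `i - 1`. Induction on the length of an interval `[a, N]` with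
`v_n = 0` outside (`v_n = cf 𝓛 n v`, `cf_fin`), for all `u`: if `v ≠ 0`, take the coefficient `N` of `v φ^H = u D₂^H`
(`TD.cf_phiH`, `cf_vecMul`): `v_(N+1) = 0`, so `- v_N f₀^H = u_N D₂^H`. Also `v_N D₁^H = 0`. So `(v_N, - u_N)` is a
cocycle of degree `i` of `C₀` (its `D^H` is `fromBlocks D₁^H f₀^H 0 (-D₂^H)`), `h₀` gives `(w₀, z₀)` over `R` with
`w₀ D₁^H = v_N`, `w₀` of degree `i - 1`. Replace `v` by `v - (t^N i(w₀)) D₁^H` (coefficient `N` now `0`, the others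
unchanged: `cf_t_smul`, `cf_vecMul`, `cf_i`) and `u` by `u - (t^N i(w₀)) φ^H`: `D₁^H φ^H = φ^H D₂^H` (conjugate transpose
of `TD.phi_map.comm`).
Then `x - (w, 0) D_T^H = (0, u - w φ^H)`, `u' = u - w φ^H` has `u' D₂^H = 0` and degree `i - 1 < q - 1`: `u' = z D₂^H` by
`coex_map` and `h₂`; `x = (w, -z) D_T^H`. -/

set_option autoImplicit false

open Matrix Pool.Agent.H16.UN

namespace Pool.Agent.H19.UR

variable {R S : Type} [Ring R] [StarRing R] [Ring S] [StarRing S] [Module R S] {𝓛 : Lau R S}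
  {M : Type} [AddCommGroup M] [Module R M] [Module S M] [IsScalarTower R S M]
  {M₁ N' : Submodule R M}

private lemma TCoex_sub {T : Type} [Ring T] {X : FC T} {k : ℤ} {v w : X.ι → T}
    (hv : X.Hom k v) (hw : X.Hom k w) : X.Hom k (v - w) := by
  intro a ha
  by_cases h : v a = 0
  · exact hw a fun h1 => ha (by rw [Pi.sub_apply, h, h1, sub_zero])
  · exact hv a h

private lemma TCoex_add {T : Type} [Ring T] {X : FC T} {k : ℤ} {v w : X.ι → T}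
    (hv : X.Hom k v) (hw : X.Hom k w) : X.Hom k (v + w) := by
  intro a ha
  by_cases h : v a = 0
  · exact hw a fun h1 => ha (by rw [Pi.add_apply, h, h1, add_zero])
  · exact hv a h

private lemma TCoex_vm {T : Type} [Ring T] [StarRing T] {X Y : FC T} {F : Matrix Y.ι X.ι T}
    {k l : ℤ} (hF : ∀ b a, F b a ≠ 0 → X.deg a = k → Y.deg b = l) {w : X.ι → T}
    (hw : X.Hom k w) : Y.Hom l (w ᵥ* Fᴴ) := by
  intro b hb
  have h1 : (w ᵥ* Fᴴ) b = ∑ a, w a * star (F b a) := rfl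
  rw [h1] at hb
  obtain ⟨a, -, ha⟩ := Finset.exists_ne_zero_of_sum_ne_zero hb
  have h2 : w a ≠ 0 := left_ne_zero_of_mul ha
  have h3 : F b a ≠ 0 := fun h0 => right_ne_zero_of_mul ha (by rw [h0, star_zero])
  exact hF b a h3 (hw a h2)

private lemma TCoex_D1 (D : TD 𝓛 M₁ N') : (D.X₁.map 𝓛.i).Dᴴ = D.X₁.Dᴴ.map 𝓛.i :=
  i_conjTranspose 𝓛 D.X₁.D

private lemma TCoex_D2 (D : TD 𝓛 M₁ N') : (D.X₂.map 𝓛.i).Dᴴ = D.X₂.Dᴴ.map 𝓛.i :=
  i_conjTranspose 𝓛 D.X₂.D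

private lemma TCoex_DD (D : TD 𝓛 M₁ N') : D.X₁.Dᴴ.map 𝓛.i * D.X₁.Dᴴ.map 𝓛.i = 0 := by
  have h := congrArg conjTranspose (D.X₁.map 𝓛.i).hD
  rw [conjTranspose_mul, conjTranspose_zero, TCoex_D1] at h
  exact h

private lemma TCoex_DP (D : TD 𝓛 M₁ N') :
    D.X₁.Dᴴ.map 𝓛.i * D.phiᴴ = D.phiᴴ * D.X₂.Dᴴ.map 𝓛.i := by
  have h := congrArg conjTranspose D.phi_map.comm
  rw [conjTranspose_mul, conjTranspose_mul, TCoex_D1, TCoex_D2] at h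
  exact h.symm

private lemma TCoex_C0 (D : TD 𝓛 M₁ N') (v : D.X₁.ι → R) (u : D.X₂.ι → R) :
    Sum.elim v u ᵥ* D.C₀.Dᴴ =
      Sum.elim (v ᵥ* D.X₁.Dᴴ) (v ᵥ* D.f₀ᴴ - u ᵥ* D.X₂.Dᴴ) := by
  have h : D.C₀.Dᴴ = fromBlocks D.X₁.Dᴴ D.f₀ᴴ 0 (-D.X₂.Dᴴ) := by
    show (fromBlocks D.X₁.D 0 D.f₀ (-D.X₂.D))ᴴ = _
    rw [fromBlocks_conjTranspose, conjTranspose_zero, conjTranspose_neg]
  rw [h, vecMul_fromBlocks, vecMul_zero, add_zero, vecMul_neg, sub_eq_add_neg]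
  rfl

private lemma TCoex_hD (D : TD 𝓛 M₁ N') {i : ℤ} {w : D.X₁.ι → S}
    (hw : (D.X₁.map 𝓛.i).Hom (i - 1) w) :
    (D.X₁.map 𝓛.i).Hom i (w ᵥ* D.X₁.Dᴴ.map 𝓛.i) := by
  rw [← TCoex_D1]
  refine TCoex_vm (X := D.X₁.map 𝓛.i) (Y := D.X₁.map 𝓛.i) (fun b a h h1 => ?_) hw
  have h2 := (D.X₁.map 𝓛.i).hdeg b a h
  rw [h2, h1, sub_add_cancel]

private lemma TCoex_hP (D : TD 𝓛 M₁ N') {i : ℤ} {w : D.X₁.ι → S}
    (hw : (D.X₁.map 𝓛.i).Hom i w) : (D.X₂.map 𝓛.i).Hom i (w ᵥ* D.phiᴴ) := by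
  refine TCoex_vm (X := D.X₁.map 𝓛.i) (Y := D.X₂.map 𝓛.i) (fun b a h h1 => ?_) hw
  have h2 := D.phi_map.hom b a h
  rw [h2, h1]

private lemma TCoex_core (D : TD 𝓛 M₁ N') (i : ℤ) (h₀ : D.C₀.CoEx i) (a : ℤ) (k : ℕ) :
    ∀ (v : D.X₁.ι → S) (u : D.X₂.ι → S), (D.X₁.map 𝓛.i).Hom i v →
      (D.X₂.map 𝓛.i).Hom (i - 1) u → v ᵥ* D.X₁.Dᴴ.map 𝓛.i = 0 →
      v ᵥ* D.phiᴴ = u ᵥ* D.X₂.Dᴴ.map 𝓛.i → (∀ n : ℤ, n < a ∨ a + k ≤ n → cf 𝓛 n v = 0) →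
      ∃ w, (D.X₁.map 𝓛.i).Hom (i - 1) w ∧ w ᵥ* D.X₁.Dᴴ.map 𝓛.i = v := by
  induction k with
  | zero =>
    intro v u _ _ _ _ hs
    have hv0 : v = 0 := cf_ext 𝓛 fun n => by
      rw [cf_zero]
      refine hs n ?_
      rcases lt_or_ge n a with h | h
      · exact Or.inl h
      · exact Or.inr (by simpa using h)
    exact ⟨0, fun a ha => absurd rfl ha, by rw [zero_vecMul, hv0]⟩
  | succ k ih =>
    intro v u hv hu h1 h2 hs
    obtain ⟨N, hN⟩ : ∃ N : ℤ, N = a + k := ⟨_, rfl⟩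
    have hvN1 : cf 𝓛 (N + 1) v = 0 := hs _ (Or.inr (by push_cast; omega))
    have e1 : cf 𝓛 N v ᵥ* D.X₁.Dᴴ = 0 := by rw [← cf_vecMul, h1, cf_zero]
    have e2 : cf 𝓛 N v ᵥ* D.f₀ᴴ + cf 𝓛 N u ᵥ* D.X₂.Dᴴ = 0 := by
      have e3 := congrArg (cf 𝓛 N) h2
      rw [D.cf_phiH, cf_vecMul, hvN1, zero_vecMul] at e3
      rw [← e3]
      funext x
      simp
    obtain ⟨y, hy1, hy2⟩ := h₀ (Sum.elim (cf 𝓛 N v) (-(cf 𝓛 N u))) (by
      rintro (x | x) hx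
      · exact (hom_cf 𝓛).1 hv N x hx
      · have hx' : cf 𝓛 N u x ≠ 0 := fun h0 => hx (by
          show -(cf 𝓛 N u x) = 0
          rw [h0, neg_zero])
        have h3 : D.X₂.deg x = i - 1 := (hom_cf 𝓛).1 hu N x hx'
        show D.X₂.deg x + 1 = i
        rw [h3, sub_add_cancel]) (by
      rw [TCoex_C0, e1, neg_vecMul, sub_neg_eq_add, e2]
      funext x
      rcases x with x | x <;> rfl)
    obtain ⟨w₀, hw₀⟩ : ∃ w₀ : D.X₁.ι → R, w₀ = fun x => y (Sum.inl x) := ⟨_, rfl⟩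
    obtain ⟨z₀, hz₀⟩ : ∃ z₀ : D.X₂.ι → R, z₀ = fun x => y (Sum.inr x) := ⟨_, rfl⟩
    have hy : y = Sum.elim w₀ z₀ := by
      funext x
      rcases x with x | x
      · rw [hw₀]; rfl
      · rw [hz₀]; rfl
    rw [hy, TCoex_C0] at hy2
    have e4 : w₀ ᵥ* D.X₁.Dᴴ = cf 𝓛 N v := by
      funext x
      exact congrFun hy2 (Sum.inl x)
    obtain ⟨W, hW⟩ : ∃ W : D.X₁.ι → S, W = ((𝓛.t ^ N : Sˣ) : S) • fun x => 𝓛.i (w₀ x) := ⟨_, rfl⟩
    have hcW : ∀ n, cf 𝓛 n W = if n = N then w₀ else 0 := fun n => by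
      rw [hW, cf_t_smul, cf_i]
      by_cases h : n = N
      · rw [if_pos h, if_pos (by omega)]
      · rw [if_neg h, if_neg (by omega)]
    have hWH : (D.X₁.map 𝓛.i).Hom (i - 1) W := by
      rw [hom_cf]
      intro n
      rw [hcW]
      split_ifs
      · intro x hx
        rw [hw₀] at hx
        exact hy1 (Sum.inl x) hx
      · intro x hx
        exact absurd rfl hx
    have hcWD : ∀ n, cf 𝓛 n (W ᵥ* D.X₁.Dᴴ.map 𝓛.i) = if n = N then cf 𝓛 N v else 0 := fun n => by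
      rw [cf_vecMul, hcW]
      split_ifs
      · exact e4
      · exact zero_vecMul _
    obtain ⟨w', hw'1, hw'2⟩ := ih (v - W ᵥ* D.X₁.Dᴴ.map 𝓛.i) (u - W ᵥ* D.phiᴴ)
      (TCoex_sub hv (TCoex_hD D hWH)) (TCoex_sub hu (TCoex_hP D hWH))
      (by rw [sub_vecMul, h1, vecMul_vecMul, TCoex_DD, vecMul_zero, sub_zero])
      (by rw [sub_vecMul, sub_vecMul, h2, vecMul_vecMul, vecMul_vecMul, TCoex_DP])
      (by
        intro n hn
        rw [cf_sub, hcWD]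
        by_cases h : n = N
        · rw [if_pos h, h, sub_self]
        · rw [if_neg h, sub_zero]
          refine hs n ?_
          rcases hn with hn | hn
          · exact Or.inl hn
          · exact Or.inr (by push_cast; omega))
    exact ⟨w' + W, TCoex_add hw'1 hWH, by rw [add_vecMul, hw'2, sub_add_cancel]⟩

theorem TD.coex (D : TD 𝓛 M₁ N') (q : ℤ) (h₀ : ∀ i, i < q → D.C₀.CoEx i)
    (h₂ : ∀ i, i < q - 1 → D.X₂.CoEx i) : ∀ i, i < q → D.T.CoEx i := by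
  intro i hi x hx hx0
  obtain ⟨v, hv⟩ : ∃ v : D.X₁.ι → S, v = fun a => x (Sum.inl a) := ⟨_, rfl⟩
  obtain ⟨u, hu⟩ : ∃ u : D.X₂.ι → S, u = fun a => x (Sum.inr a) := ⟨_, rfl⟩
  have hxe : x = Sum.elim v u := by
    funext a
    rcases a with a | a
    · rw [hv]; rfl
    · rw [hu]; rfl
  have hvH : (D.X₁.map 𝓛.i).Hom i v := fun a ha => by
    rw [hv] at ha
    exact hx (Sum.inl a) ha
  have huH : (D.X₂.map 𝓛.i).Hom (i - 1) u := fun a ha => by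
    rw [hu] at ha
    have h1 : D.X₂.deg a + 1 = i := hx (Sum.inr a) ha
    show D.X₂.deg a = i - 1
    omega
  rw [hxe, D.vecMul_TH] at hx0
  have h1 : v ᵥ* D.X₁.Dᴴ.map 𝓛.i = 0 := by
    funext a
    exact congrFun hx0 (Sum.inl a)
  have h2 : v ᵥ* D.phiᴴ = u ᵥ* D.X₂.Dᴴ.map 𝓛.i := by
    rw [← sub_eq_zero]
    funext a
    exact congrFun hx0 (Sum.inr a)
  obtain ⟨A, hA⟩ := (cf_fin 𝓛 v).bddAbove
  obtain ⟨B, hB⟩ := (cf_fin 𝓛 v).bddBelow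
  obtain ⟨w, hw1, hw2⟩ := TCoex_core D i (h₀ i hi) B (A - B + 1).toNat v u hvH huH h1 h2 (by
    intro n hn
    by_contra h3
    have h4 : n ≤ A := hA h3
    have h5 : B ≤ n := hB h3
    have h6 : A - B + 1 ≤ ((A - B + 1).toNat : ℤ) := Int.self_le_toNat _
    rcases hn with hn | hn
    · omega
    · omega)
  have h3 : (u - w ᵥ* D.phiᴴ) ᵥ* (D.X₂.map 𝓛.i).Dᴴ = 0 := by
    rw [TCoex_D2, sub_vecMul, ← h2, vecMul_vecMul, ← TCoex_DP, ← vecMul_vecMul, hw2, sub_self]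
  obtain ⟨z, hz1, hz2⟩ := coex_map 𝓛 (h₂ (i - 1) (by omega)) (u - w ᵥ* D.phiᴴ)
    (TCoex_sub huH (TCoex_hP D hw1)) h3
  rw [TCoex_D2] at hz2
  refine ⟨Sum.elim w (-z), ?_, ?_⟩
  · rintro (a | a) ha
    · exact hw1 a ha
    · have h4 : z a ≠ 0 := fun h0 => ha (by
        show -(z a) = 0
        rw [h0, neg_zero])
      have h5 : D.X₂.deg a = i - 1 - 1 := hz1 a h4
      show D.X₂.deg a + 1 = i - 1
      omega
  · rw [hxe, D.vecMul_TH, hw2, neg_vecMul, hz2]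
    congr 1
    abel

end Pool.Agent.H19.UR
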