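import Pool.Agent.H19.UR.TDef
import Pool.Agent.H16.UN.Hml

/-!
# Module TRes: `T` is a resolution of the `S`-module `M`

Notation: for a row vector `v` over `S` write `v_n = cf 𝓛 n v`; `w(v) = ∑_n t^n ε₁(v_n) ∈ M` for `v` on `X₁` in degree
`0`: this is `ev (fun a => (ε₁ a : M)) v` (write `v a = ∑ t^n i(co n (v a))`, `Lau.expand`; `t^n i(r) x = t^n (r x)`).
* degrees: clear (`X₁.deg ≥ 0`, `X₂.deg + 1 ≥ 0`).
* `aug`: `(v, u)` of degree `1`: `v` in degree `1` of `X₁`, `u` in degree `0` of `X₂`. `ev (v D₁) = 0` (coefficientwise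
  `D.h₁.aug`); `ev (u φ)`: the coefficient `n` of `u φ` is `(σ⁻¹ u_(n-1)) f₁ - u_n f₀` (`TD.cf_phi`); `ε₁` of it is
  `t⁻¹ ε₂(u_(n-1)) - ε₂(u_n)` (`l₁` with `v = σ⁻¹ u_(n-1)`, `l₀`); `∑ t^n (t⁻¹ ε₂(u_(n-1)) - ε₂(u_n)) = 0`.
* exact in degree `k ≥ 2`: cycle `(v, u)`: `u D₂ = 0`, `u` of degree `k - 1 ≥ 1`: `u = u' D₂` (`ex_map`, `D.h₂.exact`).
  `(v, u) + (0, u') D_T = (v + u' φ, 0)` is a cycle, so `v + u' φ = v' D₁` (`ex_map`, `D.h₁.exact`). So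
  `(v, u) = (v', -u') D_T`.
* exact in degree `1`: `v D₁ + u φ = 0`, `v` of degree `1`, `u` of degree `0`. Coefficient `n`:
  `(σ⁻¹ u_(n-1)) f₁ - u_n f₀ = - v_n D₁`, apply `ε₁` (`D.h₁.aug`): `t⁻¹ ε₂(u_(n-1)) = ε₂(u_n)` in `M`. For `n` very negative
  `u_n = 0`, hence by induction `ε₂(u_n) = 0` for all `n`; `D.h₂.ker`: `u_n = u'_n D₂`, so `u = u' D₂` (`exists_cf`, with
  `u'_n = 0` where `u_n = 0`). The rest as before.
* `ker`: `v` of degree `0` on `X₁`, `∑ t^n ε₁(v_n) = 0` (the `X₂` part of a vector of degree `0` is `0`). Induction on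
  the length of an interval `[a, b]` outside of which `v_n = 0`. If `a = b`: `t^a ε₁(v_a) = 0`, so `ε₁(v_a) = 0`,
  `v_a = y D₁` (`D.h₁.ker`) and `v = (t^a i(y)) D₁`. If `a < b`: `ε₁(v_a) = - ∑_{n > a} t^(n-a) ε₁(v_n)` lies in
  `M₁ ⊓ win 1 (b-a) M₁ ≤ N'` (`hGP.sep`), so `ε₁(v_a) = ε₂(z)`, `z` over `R` of degree `0` (`D.h₂.surj`). Take
  `u = t^a i(z)`: `u φ` has the coefficients `-z f₀` at `a`, `(σ⁻¹ z) f₁` at `a + 1`, else `0` (`TD.cf_phi`);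
  `v' = v + u φ` satisfies `∑ t^n ε₁(v'_n) = 0` (`aug`) and `ε₁(v'_a) = ε₁(v_a) - ε₂(z) = 0`, so `v'_a = y D₁`, and
  `v'' = v' - (t^a i(y)) D₁` has support in `[a+1, b]`: a boundary by induction, hence so is `v`.
* `surj`: `x ∈ win (-n) n M₁` (`hGP.span`): `x = ∑ t^m x_m`, `x_m ∈ M₁`, `x_m = ε₁(v_m)` (`D.h₁.surj`). -/

set_option autoImplicit false

open Matrix Pool.Agent.H16.UN

namespace Pool.Agent.H19.UR

set_option linter.unusedSectionVars false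

variable {R S : Type} [Ring R] [StarRing R] [Ring S] [StarRing S] [Module R S] {𝓛 : Lau R S}
  {M : Type} [AddCommGroup M] [Module R M] [Module S M] [IsScalarTower R S M]
  {M₁ N' : Submodule R M}

section vec

variable (𝓛) {ι κ : Type}

private theorem TRes_hom_add {X : FC R} {i : ℤ} {v w : X.ι → R} (hv : X.Hom i v)
    (hw : X.Hom i w) : X.Hom i (v + w) := by
  intro a ha
  by_cases h0 : v a = 0
  · exact hw a (by intro h1; apply ha; simp [h0, h1])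
  · exact hv a h0

private theorem TRes_hom_neg {X : FC R} {i : ℤ} {v : X.ι → R} (hv : X.Hom i v) :
    X.Hom i (-v) := fun a ha => hv a (by intro h; apply ha; simp [h])

private theorem TRes_hom_sub {X : FC R} {i : ℤ} {v w : X.ι → R} (hv : X.Hom i v)
    (hw : X.Hom i w) : X.Hom i (v - w) := by
  rw [sub_eq_add_neg]; exact TRes_hom_add hv (TRes_hom_neg hw)

private theorem TRes_hom_zero (X : FC R) (i : ℤ) : X.Hom i 0 := fun _ ha => absurd rfl ha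

private theorem TRes_hom_map {X Y : FC R} {F : Matrix X.ι Y.ι R} (hF : HM X Y F) {i : ℤ}
    {v : X.ι → R} (hv : X.Hom i v) : Y.Hom i (v ᵥ* F) := by
  intro b hb
  have h1 : (v ᵥ* F) b = ∑ a, v a * F a b := rfl
  rw [h1] at hb
  obtain ⟨a, -, ha⟩ := Finset.exists_ne_zero_of_sum_ne_zero hb
  rw [← hF a b (right_ne_zero_of_mul ha)]
  exact hv a (left_ne_zero_of_mul ha)

private theorem TRes_hom_D {X : FC R} {i : ℤ} {v : X.ι → R} (hv : X.Hom (i + 1) v) :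
    X.Hom i (v ᵥ* X.D) := by
  intro b hb
  have h1 : (v ᵥ* X.D) b = ∑ a, v a * X.D a b := rfl
  rw [h1] at hb
  obtain ⟨a, -, ha⟩ := Finset.exists_ne_zero_of_sum_ne_zero hb
  have h3 := hv a (left_ne_zero_of_mul ha)
  have h4 := X.hdeg a b (right_ne_zero_of_mul ha)
  omega

/-- the vector `t^n i(w)` -/
private def TRes_mono (n : ℤ) (w : ι → R) : ι → S := fun a => ((𝓛.t ^ n : Sˣ) : S) * 𝓛.i (w a)

private theorem TRes_cf_mono (m n : ℤ) (w : ι → R) :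
    cf 𝓛 m (TRes_mono 𝓛 n w) = if n = m then w else 0 := by
  funext a
  rw [cf_apply]
  show 𝓛.co m (((𝓛.t ^ n : Sˣ) : S) * 𝓛.i (w a)) = _
  rw [𝓛.co_mono]
  split_ifs <;> rfl

private theorem TRes_cf_sum (m : ℤ) (s : Finset ℤ) (f : ℤ → ι → S) :
    cf 𝓛 m (∑ n ∈ s, f n) = ∑ n ∈ s, cf 𝓛 m (f n) := by
  funext a
  rw [cf_apply, Finset.sum_apply, map_sum, Finset.sum_apply]
  rfl

private theorem TRes_sum (v : ι → S) (s : Finset ℤ) (hs : ∀ n, n ∉ s → cf 𝓛 n v = 0) :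
    v = ∑ n ∈ s, TRes_mono 𝓛 n (cf 𝓛 n v) := by
  refine cf_ext 𝓛 fun m => ?_
  rw [TRes_cf_sum]
  simp only [TRes_cf_mono]
  rw [Finset.sum_ite_eq']
  split_ifs with h
  · rfl
  · exact hs m h

private theorem TRes_mono_D [Fintype ι] (n : ℤ) (w : ι → R) (D : Matrix ι κ R) :
    TRes_mono 𝓛 n w ᵥ* D.map 𝓛.i = TRes_mono 𝓛 n (w ᵥ* D) := by
  refine cf_ext 𝓛 fun m => ?_
  rw [cf_vecMul, TRes_cf_mono, TRes_cf_mono]
  split_ifs
  · rfl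
  · rw [zero_vecMul]

private theorem TRes_mono_hom {X : FC R} {k : ℤ} (n : ℤ) {w : X.ι → R} (hw : X.Hom k w) :
    (X.map 𝓛.i).Hom k (TRes_mono 𝓛 n w) := by
  refine (hom_cf 𝓛).2 fun m => ?_
  rw [TRes_cf_mono]
  split_ifs
  · exact hw
  · exact TRes_hom_zero _ _

private theorem TRes_mono_zero (n : ℤ) : TRes_mono 𝓛 n (0 : ι → R) = 0 := by
  funext a
  show ((𝓛.t ^ n : Sˣ) : S) * 𝓛.i 0 = 0
  rw [map_zero, mul_zero]

private theorem TRes_ev_mono [Fintype ι] (ε : ι → M₁) (n : ℤ) (w : ι → R) :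
    ev (fun a => (ε a : M)) (TRes_mono 𝓛 n w) =
      ((𝓛.t ^ n : Sˣ) : S) • ((ev ε w : M₁) : M) := by
  show ∑ a, (((𝓛.t ^ n : Sˣ) : S) * 𝓛.i (w a)) • (ε a : M) =
    ((𝓛.t ^ n : Sˣ) : S) • ((∑ a, w a • ε a : M₁) : M)
  rw [Submodule.coe_sum, Finset.smul_sum]
  refine Finset.sum_congr rfl fun a _ => ?_
  rw [mul_smul, 𝓛.i_smul]
  rfl

private theorem TRes_ev_sum [Fintype ι] (ε : ι → M₁) (v : ι → S) (s : Finset ℤ)
    (hs : ∀ n, n ∉ s → cf 𝓛 n v = 0) :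
    ev (fun a => (ε a : M)) v =
      ∑ n ∈ s, ((𝓛.t ^ n : Sˣ) : S) • ((ev ε (cf 𝓛 n v) : M₁) : M) := by
  conv_lhs => rw [TRes_sum 𝓛 v s hs]
  rw [map_sum]
  exact Finset.sum_congr rfl fun n _ => TRes_ev_mono 𝓛 ε n _

end vec

/-- `(t^n i(w)) φ = t^(n+1) i((σ⁻¹ w) f₁) - t^n i(w f₀)` -/
private theorem TRes_mono_phi (D : TD 𝓛 M₁ N') (n : ℤ) (w : D.X₂.ι → R) :
    TRes_mono 𝓛 n w ᵥ* D.phi =
      TRes_mono 𝓛 (n + 1) ((fun a => (𝓛.σ⁻¹ : R ≃+* R) (w a)) ᵥ* D.f₁) -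
        TRes_mono 𝓛 n (w ᵥ* D.f₀) := by
  refine cf_ext 𝓛 fun m => ?_
  rw [D.cf_phi, cf_sub, TRes_cf_mono, TRes_cf_mono, TRes_cf_mono, TRes_cf_mono]
  congr 1
  · by_cases h : n + 1 = m
    · have h' : n = m - 1 := by omega
      rw [if_pos h, if_pos h']
    · have h' : ¬ n = m - 1 := by omega
      rw [if_neg h, if_neg h']
      have e : (fun a => (𝓛.σ⁻¹ : R ≃+* R) ((0 : D.X₂.ι → R) a)) = 0 := by
        funext a
        show (𝓛.σ⁻¹ : R ≃+* R) 0 = 0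
        exact map_zero _
      rw [e, zero_vecMul]
  · split_ifs
    · rfl
    · rw [zero_vecMul]

private theorem TRes_l₁ (D : TD 𝓛 M₁ N') (w : D.X₂.ι → R) (hw : D.X₂.Hom 0 w) :
    ((ev D.ε₁ ((fun a => (𝓛.σ⁻¹ : R ≃+* R) (w a)) ᵥ* D.f₁) : M₁) : M) =
      ((𝓛.t⁻¹ : Sˣ) : S) • ((ev D.ε₂ w : N') : M) := by
  rw [D.l₁ _ (fun a ha => hw a fun h0 => ha (by
    show (𝓛.σ⁻¹ : R ≃+* R) (w a) = 0
    rw [h0, map_zero]))]
  have e : (fun a => 𝓛.σ ((𝓛.σ⁻¹ : R ≃+* R) (w a))) = w := by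
    funext a
    exact 𝓛.σ.apply_symm_apply _
  rw [e]

/-- the augmentation kills `u φ` -/
private theorem TRes_aug_phi (D : TD 𝓛 M₁ N') (u : D.X₂.ι → S) (hu : (D.X₂.map 𝓛.i).Hom 0 u) :
    ev (fun a => (D.ε₁ a : M)) (u ᵥ* D.phi) = 0 := by
  classical
  have hs : ∀ n, n ∉ (cf_fin 𝓛 u).toFinset → cf 𝓛 n u = 0 := fun n hn => by
    by_contra h0
    exact hn ((cf_fin 𝓛 u).mem_toFinset.2 h0)
  rw [TRes_sum 𝓛 u _ hs, Matrix.sum_vecMul, map_sum]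
  refine Finset.sum_eq_zero fun n _ => ?_
  have h1 := (hom_cf 𝓛).1 hu n
  rw [TRes_mono_phi, map_sub, TRes_ev_mono, TRes_ev_mono, TRes_l₁ D _ h1, D.l₀ _ h1, smul_smul,
    _root_.zpow_add_one, ← Units.val_mul, mul_assoc, mul_inv_cancel, mul_one, sub_self]

/-- the augmentation kills boundaries of `X₁` -/
private theorem TRes_aug_D (D : TD 𝓛 M₁ N') (v : D.X₁.ι → S) (hv : (D.X₁.map 𝓛.i).Hom 1 v) :
    ev (fun a => (D.ε₁ a : M)) (v ᵥ* D.X₁.D.map 𝓛.i) = 0 := by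
  classical
  have hs : ∀ n, n ∉ (cf_fin 𝓛 v).toFinset → cf 𝓛 n v = 0 := fun n hn => by
    by_contra h0
    exact hn ((cf_fin 𝓛 v).mem_toFinset.2 h0)
  rw [TRes_sum 𝓛 v _ hs, Matrix.sum_vecMul, map_sum]
  refine Finset.sum_eq_zero fun n _ => ?_
  rw [TRes_mono_D, TRes_ev_mono, D.h₁.aug _ ((hom_cf 𝓛).1 hv n), Submodule.coe_zero, smul_zero]

/-- the augmentation on the cone only sees the first component -/
private theorem TRes_ev (D : TD 𝓛 M₁ N') (v : D.X₁.ι ⊕ D.X₂.ι → S) :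
    ev (Sum.elim (fun a => (D.ε₁ a : M)) (fun _ => 0) : D.X₁.ι ⊕ D.X₂.ι → M) v =
      ev (fun a => (D.ε₁ a : M)) (v ∘ Sum.inl) := by
  show ∑ a, v a • (Sum.elim (fun a => (D.ε₁ a : M)) (fun _ => 0) : D.X₁.ι ⊕ D.X₂.ι → M) a =
    ∑ a, v (Sum.inl a) • (D.ε₁ a : M)
  rw [Fintype.sum_sum_type]
  simp

/-- `φ` is injective on homology in degree `0` -/
private theorem TRes_inj (D : TD 𝓛 M₁ N') (z : D.X₂.ι → S) (hz : (D.X₂.map 𝓛.i).Hom 0 z)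
    (hb : (D.X₁.map 𝓛.i).Bd 0 (z ᵥ* D.phi)) : (D.X₂.map 𝓛.i).Bd 0 z := by
  classical
  obtain ⟨x, hx, hxz⟩ := hb
  have hx' : x ᵥ* D.X₁.D.map 𝓛.i = z ᵥ* D.phi := hxz
  -- the coefficients
  have h1 : ∀ n, ((ev D.ε₂ (cf 𝓛 n z) : N') : M) =
      ((𝓛.t⁻¹ : Sˣ) : S) • ((ev D.ε₂ (cf 𝓛 (n - 1) z) : N') : M) := fun n => by
    have h2 := congrArg (cf 𝓛 n) hx'
    rw [cf_vecMul, D.cf_phi] at h2
    have h3 := congrArg (fun w => ((ev D.ε₁ w : M₁) : M)) h2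
    beta_reduce at h3
    rw [D.h₁.aug _ ((hom_cf 𝓛).1 hx n), map_sub, Submodule.coe_sub, Submodule.coe_zero,
      TRes_l₁ D _ ((hom_cf 𝓛).1 hz (n - 1)), D.l₀ _ ((hom_cf 𝓛).1 hz n)] at h3
    exact (sub_eq_zero.1 h3.symm).symm
  -- a lower bound of the support
  obtain ⟨N, hN⟩ : ∃ N : ℤ, ∀ n, n ≤ N → cf 𝓛 n z = 0 := by
    obtain ⟨b, hb⟩ := (cf_fin 𝓛 z).bddBelow
    refine ⟨b - 1, fun n hn => ?_⟩
    by_contra h0
    have := hb h0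
    omega
  have h4 : ∀ k : ℕ, ev D.ε₂ (cf 𝓛 (N + k) z) = 0 := fun k => by
    induction k with
    | zero =>
      rw [hN _ (by simp), map_zero]
    | succ k ih =>
      have h5 := h1 (N + (k + 1 : ℕ))
      have e : N + ((k + 1 : ℕ) : ℤ) - 1 = N + k := by push_cast; ring
      rw [e, ih, Submodule.coe_zero, smul_zero] at h5
      exact Subtype.ext h5
  have h6 : ∀ n, ev D.ε₂ (cf 𝓛 n z) = 0 := fun n => by
    rcases le_total n N with h7 | h7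
    · rw [hN n h7, map_zero]
    · have h8 := h4 (n - N).toNat
      have e : N + ((n - N).toNat : ℤ) = n := by omega
      rwa [e] at h8
  have h9 : ∀ n, ∃ w, D.X₂.Hom (0 + 1) w ∧ w ᵥ* D.X₂.D = cf 𝓛 n z ∧ (cf 𝓛 n z = 0 → w = 0) :=
    fun n => by
    by_cases h0 : cf 𝓛 n z = 0
    · exact ⟨0, TRes_hom_zero _ _, by rw [h0, zero_vecMul], fun _ => rfl⟩
    · obtain ⟨w, h2, h3⟩ := D.h₂.ker _ ((hom_cf 𝓛).1 hz n) (h6 n)
      exact ⟨w, h2, h3, fun h4 => absurd h4 h0⟩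
  choose w hw1 hw2 hw3 using h9
  obtain ⟨u, hu⟩ := exists_cf 𝓛 w ((cf_fin 𝓛 z).subset fun n hn h0 => hn (hw3 n h0))
  refine ⟨u, (hom_cf 𝓛).2 fun n => by rw [hu]; exact hw1 n, cf_ext 𝓛 fun n => ?_⟩
  show cf 𝓛 n (u ᵥ* D.X₂.D.map 𝓛.i) = _
  rw [cf_vecMul, hu, hw2]

private theorem TRes_ker (h : GP 𝓛 M₁ N') (D : TD 𝓛 M₁ N') (l : ℕ) :
    ∀ (a : ℤ) (x : D.X₁.ι → S), (D.X₁.map 𝓛.i).Hom 0 x →
      (∀ n, (n < a ∨ a + l < n) → cf 𝓛 n x = 0) → ev (fun a => (D.ε₁ a : M)) x = 0 →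
      ∃ z : D.X₂.ι → S, (D.X₂.map 𝓛.i).Hom 0 z ∧ (D.X₁.map 𝓛.i).Bd 0 (x - z ᵥ* D.phi) := by
  classical
  induction l with
  | zero =>
    intro a x hx hs h0
    have hs' : ∀ n, n ∉ ({a} : Finset ℤ) → cf 𝓛 n x = 0 := fun n hn => by
      rw [Finset.mem_singleton] at hn
      apply hs
      push_cast
      omega
    have h1 := h0
    rw [TRes_ev_sum 𝓛 D.ε₁ x _ hs', Finset.sum_singleton] at h1
    have h2 : ev D.ε₁ (cf 𝓛 a x) = 0 := by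
      have h3 := congrArg (fun y => ((𝓛.t ^ (-a) : Sˣ) : S) • y) h1
      beta_reduce at h3
      rw [smul_smul, ← Units.val_mul, ← _root_.zpow_add, neg_add_cancel, zpow_zero, Units.val_one,
        one_smul, smul_zero] at h3
      exact Subtype.ext h3
    obtain ⟨y, hy, hyD⟩ := D.h₁.ker _ ((hom_cf 𝓛).1 hx a) h2
    refine ⟨0, TRes_hom_zero _ _, TRes_mono 𝓛 a y, TRes_mono_hom 𝓛 a hy, ?_⟩
    show TRes_mono 𝓛 a y ᵥ* D.X₁.D.map 𝓛.i = _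
    rw [TRes_mono_D, hyD, zero_vecMul, sub_zero]
    conv_rhs => rw [TRes_sum 𝓛 x _ hs', Finset.sum_singleton]
  | succ l ih =>
    intro a x hx hs h0
    have hs' : ∀ n, n ∉ insert a (Finset.Icc (a + 1) (a + (l + 1))) → cf 𝓛 n x = 0 := fun n hn => by
      rw [Finset.mem_insert, Finset.mem_Icc] at hn
      apply hs
      push_cast
      omega
    have h1 := h0
    rw [TRes_ev_sum 𝓛 D.ε₁ x _ hs', Finset.sum_insert (by simp)] at h1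
    have h2 : ((ev D.ε₁ (cf 𝓛 a x) : M₁) : M) ∈ N' := by
      apply h.sep (l + 1)
      refine ⟨(ev D.ε₁ (cf 𝓛 a x)).2, ?_⟩
      have h3 := congrArg (fun y => ((𝓛.t ^ (-a) : Sˣ) : S) • y) h1
      beta_reduce at h3
      rw [smul_add, smul_smul, ← Units.val_mul, ← _root_.zpow_add, neg_add_cancel, zpow_zero,
        Units.val_one, one_smul, smul_zero] at h3
      rw [eq_neg_of_add_eq_zero_left h3]
      refine Submodule.neg_mem _ ?_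
      rw [Finset.smul_sum]
      refine Submodule.sum_mem _ fun n hn => ?_
      rw [Finset.mem_Icc] at hn
      refine sh_le_win 𝓛 (n := n - a) (by omega) (by push_cast; omega) M₁ ?_
      rw [mem_sh, smul_smul, smul_smul, ← Units.val_mul, ← Units.val_mul, ← _root_.zpow_add, ← _root_.zpow_add]
      have e : -(n - a) + -a + n = 0 := by ring
      rw [e, zpow_zero, Units.val_one, one_smul]
      exact (ev D.ε₁ (cf 𝓛 n x)).2
    obtain ⟨z, hz, hz2⟩ := D.h₂.surj ⟨_, h2⟩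
    have hz3 : ((ev D.ε₂ z : N') : M) = ((ev D.ε₁ (cf 𝓛 a x) : M₁) : M) := by rw [hz2]
    have hu : (D.X₂.map 𝓛.i).Hom 0 (TRes_mono 𝓛 a z) := TRes_mono_hom 𝓛 a hz
    -- the vector `x + u φ`
    have hx' : (D.X₁.map 𝓛.i).Hom 0 (x + TRes_mono 𝓛 a z ᵥ* D.phi) :=
      TRes_hom_add hx (TRes_hom_map D.phi_map.hom hu)
    have hc : ∀ n, cf 𝓛 n (x + TRes_mono 𝓛 a z ᵥ* D.phi) = cf 𝓛 n x +
        ((if a + 1 = n then ((fun b => (𝓛.σ⁻¹ : R ≃+* R) (z b)) ᵥ* D.f₁) else 0) -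
          (if a = n then z ᵥ* D.f₀ else 0)) := fun n => by
      rw [cf_add, TRes_mono_phi, cf_sub, TRes_cf_mono, TRes_cf_mono]
    have hca : ev D.ε₁ (cf 𝓛 a (x + TRes_mono 𝓛 a z ᵥ* D.phi)) = 0 := by
      rw [hc, if_neg (by omega), if_pos rfl, zero_sub, map_add, map_neg]
      apply Subtype.ext
      rw [Submodule.coe_add, Submodule.coe_neg, D.l₀ _ hz, hz3, add_neg_cancel, Submodule.coe_zero]
    obtain ⟨y, hy, hyD⟩ := D.h₁.ker _ ((hom_cf 𝓛).1 hx' a) hca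
    have hy' : (D.X₁.map 𝓛.i).Hom 1 (TRes_mono 𝓛 a y) := TRes_mono_hom 𝓛 a hy
    have hyD' : TRes_mono 𝓛 a y ᵥ* D.X₁.D.map 𝓛.i =
        TRes_mono 𝓛 a (cf 𝓛 a (x + TRes_mono 𝓛 a z ᵥ* D.phi)) := by
      rw [TRes_mono_D, hyD]
    obtain ⟨z', hz', w, hw, hwD⟩ := ih (a + 1)
      (x + TRes_mono 𝓛 a z ᵥ* D.phi - TRes_mono 𝓛 a y ᵥ* D.X₁.D.map 𝓛.i)
      (TRes_hom_sub hx' (by
        have h5 : (D.X₁.map 𝓛.i).Hom (0 + 1) (TRes_mono 𝓛 a y) := hy'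
        exact TRes_hom_D h5))
      (fun n hn => by
        rw [cf_sub, hyD', TRes_cf_mono]
        by_cases hna : a = n
        · rw [if_pos hna, ← hna, sub_self]
        · rw [if_neg hna, sub_zero, hc, if_neg (by omega), if_neg hna, sub_self, add_zero]
          apply hs
          push_cast
          omega)
      (by rw [map_sub, map_add, h0, TRes_aug_phi D _ hu, TRes_aug_D D _ hy', add_zero, sub_zero])
    refine ⟨z' - TRes_mono 𝓛 a z, TRes_hom_sub hz' hu, w + TRes_mono 𝓛 a y,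
      TRes_hom_add hw hy', ?_⟩
    have hwD' : w ᵥ* D.X₁.D.map 𝓛.i =
      x + TRes_mono 𝓛 a z ᵥ* D.phi - TRes_mono 𝓛 a y ᵥ* D.X₁.D.map 𝓛.i - z' ᵥ* D.phi := hwD
    show (w + TRes_mono 𝓛 a y) ᵥ* D.X₁.D.map 𝓛.i = _
    rw [add_vecMul, hwD', sub_vecMul]
    abel

/-- the `R`-submodule of the values of the augmentation -/
private def TRes_rg (D : TD 𝓛 M₁ N') : Submodule R M where
  carrier := {x | ∃ v : D.X₁.ι → S, (D.X₁.map 𝓛.i).Hom 0 v ∧ ev (fun a => (D.ε₁ a : M)) v = x}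
  add_mem' := by
    rintro x y ⟨v, hv, hvx⟩ ⟨w, hw, hwy⟩
    exact ⟨v + w, TRes_hom_add hv hw, by rw [map_add, hvx, hwy]⟩
  zero_mem' := ⟨0, TRes_hom_zero _ _, map_zero _⟩
  smul_mem' := by
    rintro r x ⟨v, hv, hvx⟩
    exact ⟨𝓛.i r • v, fun a ha => hv a fun h0 => ha (by
      show 𝓛.i r * v a = 0
      rw [h0, mul_zero]), by rw [map_smul, hvx, 𝓛.i_smul]⟩

private theorem TRes_surj (h : GP 𝓛 M₁ N') (D : TD 𝓛 M₁ N') (x : M) :
    ∃ v : D.X₁.ι → S, (D.X₁.map 𝓛.i).Hom 0 v ∧ ev (fun a => (D.ε₁ a : M)) v = x := by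
  obtain ⟨n, hn⟩ := h.span x
  have h1 : win 𝓛 (-(n : ℤ)) n M₁ ≤ TRes_rg D := win_le 𝓛 fun m _ _ y hy => by
    rw [mem_sh] at hy
    obtain ⟨w, hw, hwy⟩ := D.h₁.surj ⟨_, hy⟩
    refine ⟨TRes_mono 𝓛 m w, TRes_mono_hom 𝓛 m hw, ?_⟩
    rw [TRes_ev_mono, hwy]
    show ((𝓛.t ^ m : Sˣ) : S) • (((𝓛.t ^ (-m) : Sˣ) : S) • y) = y
    rw [smul_smul, ← Units.val_mul, ← _root_.zpow_add, add_neg_cancel, zpow_zero, Units.val_one, one_smul]
  exact h1 hn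

theorem TD.res (h : GP 𝓛 M₁ N') (D : TD 𝓛 M₁ N') :
    IsRes D.T (Sum.elim (fun a => (D.ε₁ a : M)) (fun _ => 0) : D.X₁.ι ⊕ D.X₂.ι → M) where
  nonneg a := by
    rcases a with a | a
    · exact D.h₁.nonneg a
    · have h1 := D.h₂.nonneg a
      show (0 : ℤ) ≤ D.X₂.deg a + 1
      omega
  exact k hk := cone_ex (D.X₂.map 𝓛.i) (D.X₁.map 𝓛.i) D.phi D.phi_map 0
    (fun i hi => ex_map 𝓛 (D.h₁.exact i hi)) D.h₂.nonneg (fun i hi => ex_map 𝓛 (D.h₂.exact i hi))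
    (TRes_inj D) k hk
  aug w hw := by
    have e : w = Sum.elim (w ∘ Sum.inl) (w ∘ Sum.inr) := (Sum.elim_comp_inl_inr w).symm
    have h1 : (D.X₁.map 𝓛.i).Hom 1 (w ∘ Sum.inl) := fun a ha => hw (Sum.inl a) ha
    have h2 : (D.X₂.map 𝓛.i).Hom 0 (w ∘ Sum.inr) := fun a ha => by
      have h3 : D.X₂.deg a + 1 = 1 := hw (Sum.inr a) ha
      show D.X₂.deg a = 0
      omega
    rw [e, D.vecMul_T]
    refine (TRes_ev D _).trans ?_
    rw [Sum.elim_comp_inl, map_add, TRes_aug_D D _ h1, TRes_aug_phi D _ h2, add_zero]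
  ker v hv h0 := by
    have h1 : v ∘ Sum.inr = (0 : D.X₂.ι → S) := by
      funext a
      by_contra ha
      have h3 : D.X₂.deg a + 1 = 0 := hv (Sum.inr a) ha
      have h4 := D.h₂.nonneg a
      omega
    have e : v = Sum.elim (v ∘ Sum.inl) 0 := by
      rw [← h1]
      exact (Sum.elim_comp_inl_inr v).symm
    have h2 : (D.X₁.map 𝓛.i).Hom 0 (v ∘ Sum.inl) := fun a ha => hv (Sum.inl a) ha
    have h3 : ev (fun a => (D.ε₁ a : M)) (v ∘ Sum.inl) = 0 := (TRes_ev D v).symm.trans h0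
    obtain ⟨a, l, hal⟩ : ∃ (a : ℤ) (l : ℕ), ∀ n, (n < a ∨ a + l < n) →
        cf 𝓛 n (v ∘ Sum.inl) = 0 := by
      obtain ⟨b, hb⟩ := (cf_fin 𝓛 (v ∘ Sum.inl)).bddBelow
      obtain ⟨c, hc⟩ := (cf_fin 𝓛 (v ∘ Sum.inl)).bddAbove
      refine ⟨b, (c - b).toNat, fun n hn => ?_⟩
      by_contra h0
      have h4 := hb h0
      have h5 := hc h0
      omega
    obtain ⟨z, hz, hzb⟩ := TRes_ker h D l a _ h2 hal h3
    rw [e]
    exact cone_bd (D.X₂.map 𝓛.i) (D.X₁.map 𝓛.i) D.phi D.phi_map 0 D.h₂.nonneg _ z hz hzb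
  surj x := by
    obtain ⟨v, hv, hvx⟩ := TRes_surj h D x
    refine ⟨Sum.elim v 0, ?_, ?_⟩
    · rintro (a | a) ha
      · exact hv a ha
      · exact absurd rfl ha
    · refine (TRes_ev D _).trans ?_
      rw [Sum.elim_comp_inl, hvx]

end Pool.Agent.H19.UR
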