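import Pool.Agent.H19.UR.TEx
import Pool.Agent.H19.UR.TRes
import Pool.Agent.H19.UR.TCoex

/-!
# Module GrA: grade over `S` from grade over `R`; resolutions over `S`

* `gr_of_V`: `have := hR.noeth`; `exists_GP 𝓛 V hV`: `M₁`, `N'` with `Le (q+1) N' M₁`. `exists_TD`: `D`. `C₀_res`:
  `D.C₀` is a resolution of `M₁ ⧸ N'`, of grade `≥ q + 1` (`Le.quot`), so `D.C₀.CoEx i` for `i < q + 1` (`Gr.all`). `Le q ⊥ ⊤`:
  `Le.trans bot_le h1 (h2.level q ≤ q+1)`, so `N'` has grade `≥ q` (`Le.gr`) and `D.X₂.CoEx i` for `i < q`. `TD.coex` with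
  `q + 1`, `TD.res`: the pair `⟨D.T, _⟩` proves `Gr S (q+1) K`.
* `aus_res`: `let _ : Module R K := Module.compHom K 𝓛.i` (`r • x = 𝓛.i r • x`), `IsScalarTower R S K` from `𝓛.smul_eq`;
  `exists_GP` with `V = ⊥`, `exists_TD`, `TD.res`; degrees of `T`: `X₁.deg ≤ d`, `X₂.deg + 1 ≤ d + 1`. -/

set_option autoImplicit false

open Matrix Pool.Agent.H16.UN

namespace Pool.Agent.H19.UR

variable {R S : Type} [Ring R] [StarRing R] [Ring S] [StarRing S] [Module R S] (𝓛 : Lau R S) {d : ℤ}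

include 𝓛 in
theorem gr_of_V (hR : Aus R d) {K : Type} [AddCommGroup K] [Module R K] [Module S K]
    [IsScalarTower R S K] [Module.Finite S K] (q : ℕ) (V : Submodule R K) (hV : V.FG)
    (h1 : Le q ⊥ V) (h2 : Le (q + 1) V ⊤) : Gr S (q + 1) K := by
  have := hR.noeth
  obtain ⟨M₁, N', hGP, hle⟩ := exists_GP 𝓛 V hV
  have h3 : Le (q + 1) N' M₁ := hle (q + 1) h2
  obtain ⟨D, -, -⟩ := exists_TD hR hGP
  have hquot : Gr R (q + 1) (M₁ ⧸ N'.submoduleOf M₁) := h3.quot hGP.fg₁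
  obtain ⟨ε₀, hε₀⟩ := C₀_res hGP D
  have h₀ : ∀ i : ℤ, i < ((q + 1 : ℕ) : ℤ) → D.C₀.CoEx i := fun i hi => hquot.all hε₀ i hi
  have hbot : Le q ⊥ (⊤ : Submodule R K) := Le.trans bot_le h1 (h2.level (Nat.le_succ q))
  have hN' : Gr R q N' := hbot.gr hGP.fg' le_top
  have h₂ : ∀ i : ℤ, i < ((q + 1 : ℕ) : ℤ) - 1 → D.X₂.CoEx i := fun i hi =>
    hN'.all D.h₂ i (by push_cast at hi; omega)
  exact ⟨D.T, _, D.res hGP, D.coex _ h₀ h₂⟩

include 𝓛 in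
theorem aus_res (hR : Aus R d) (K : Type) [AddCommGroup K] [Module S K] [Module.Finite S K] :
    ∃ (X : FC S) (ε : X.ι → K), IsRes X ε ∧ ∀ a, X.deg a ≤ d + 1 := by
  have := hR.noeth
  let _ : Module R K := Module.compHom K 𝓛.i
  have : IsScalarTower R S K := ⟨fun r s x => by
    rw [𝓛.smul_eq, mul_smul]
    rfl⟩
  obtain ⟨M₁, N', hGP, -⟩ := exists_GP 𝓛 (⊥ : Submodule R K) Submodule.fg_bot
  obtain ⟨D, hd1, hd2⟩ := exists_TD hR hGP
  refine ⟨D.T, _, D.res hGP, ?_⟩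
  rintro (a | a)
  · have := hd1 a
    show D.X₁.deg a ≤ d + 1
    omega
  · have := hd2 a
    show D.X₂.deg a + 1 ≤ d + 1
    omega

end Pool.Agent.H19.UR
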