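import Pool.Agent.H42.UR.Coh
import Pool.Agent.H42.UR.Cone

/-!
# The horseshoe lemma
-/

set_option autoImplicit false

open Matrix Pool.Agent.H16.UN Pool.Agent.H42.UR

namespace Pool.Agent.H19.UR

variable {R : Type} [Ring R]

/-- the part of degree `≥ 1` -/
@[reducible] private def tr1 (Z : FC R) : FC R where
  ι := {a : Z.ι // 1 ≤ Z.deg a}
  deg a := Z.deg a
  D := Matrix.of fun a b => Z.D a b
  hdeg a b h := Z.hdeg a b h
  hD := by
    ext a b
    rw [Matrix.mul_apply]
    show ∑ c : {c : Z.ι // 1 ≤ Z.deg c}, Z.D a c * Z.D c b = 0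
    have h1 : (Z.D * Z.D) a b = 0 := by rw [Z.hD]; rfl
    rw [Matrix.mul_apply] at h1
    rw [← h1]
    rw [← Finset.sum_subtype (Finset.univ.filter fun c => 1 ≤ Z.deg c) (by simp)
      (fun c => Z.D a c * Z.D c b)]
    rw [Finset.sum_filter]
    refine Finset.sum_congr rfl fun c _ => ?_
    split_ifs with h
    · rfl
    · by_cases h2 : Z.D c b = 0
      · rw [h2, mul_zero]
      · exact absurd (by have := Z.hdeg c b h2; have := b.2; omega) h

/-- the shift by one, with the negative of the differential -/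
@[reducible] private def shf (X : FC R) : FC R where
  ι := X.ι
  deg a := X.deg a + 1
  D := -X.D
  hdeg a b h := by
    have := X.hdeg a b (by intro h0; apply h; simp [h0])
    omega
  hD := by rw [Matrix.neg_mul, Matrix.mul_neg, neg_neg, X.hD]

private theorem shf_hom {X : FC R} {k : ℤ} {v : X.ι → R} : (shf X).Hom (k + 1) v ↔ X.Hom k v := by
  constructor
  · intro h a ha
    have := h a ha
    have h2 : X.deg a + 1 = k + 1 := this
    omega
  · intro h a ha
    show X.deg a + 1 = k + 1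
    rw [h a ha]

private theorem shf_bd {X : FC R} {k : ℤ} {v : X.ι → R} (h : X.Bd k v) : (shf X).Bd (k + 1) v := by
  obtain ⟨w, hw, hw0⟩ := h
  refine ⟨-w, shf_hom.2 (sup_neg hw), ?_⟩
  show (-w) ᵥ* (-X.D) = v
  rw [neg_vecMul, vecMul_neg, neg_neg, hw0]

private theorem shf_ex {X : FC R} {k : ℤ} (h : X.Ex k) : (shf X).Ex (k + 1) := by
  rintro v ⟨hv, hv0⟩
  have h1 : v ᵥ* (-X.D) = 0 := hv0
  rw [vecMul_neg, neg_eq_zero] at h1
  exact shf_bd (h v ⟨shf_hom.1 hv, h1⟩)

theorem horseshoe {K L N : Type} [AddCommGroup K] [Module R K] [AddCommGroup L] [Module R L]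
    [AddCommGroup N] [Module R N] (f : K →ₗ[R] L) (g : L →ₗ[R] N) (hf : Function.Injective f)
    (hg : Function.Surjective g) (hfg : ∀ x, g x = 0 ↔ ∃ y, f y = x)
    {X Z : FC R} {ε : X.ι → K} {ζ : Z.ι → N} (hX : IsRes X ε) (hZ : IsRes Z ζ) :
    ∃ (Y : FC R) (δ : Y.ι → L), IsRes Y δ := by
  classical
  -- lifts of the generators
  choose l hl using fun a : Z.ι => hg (ζ a)
  have hgl : ∀ z : Z.ι → R, g (ev l z) = ev ζ z := fun z => by
    rw [ev_apply, ev_apply, map_sum]
    exact Finset.sum_congr rfl fun a _ => by rw [map_smul, hl]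
  have hk : ∀ a : Z.ι, ∃ k : K, Z.deg a = 1 → f k = -ev l (Z.D a) := by
    intro a
    by_cases ha : Z.deg a = 1
    · have h1 : ev ζ (Z.D a) = 0 := by
        have h2 := hZ.aug (Pi.single a 1) (by have := sup_single Z a (1 : R); rwa [ha] at this)
        rwa [Matrix.single_one_vecMul] at h2
      obtain ⟨k, hk⟩ := (hfg (-ev l (Z.D a))).1 (by rw [map_neg, hgl, h1, neg_zero])
      exact ⟨k, fun _ => hk⟩
    · exact ⟨0, fun h => absurd h ha⟩
  choose k hk using hk
  choose f0 hf1 hf2 using fun a : Z.ι => hX.surj (k a)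
  obtain ⟨F, hF, hF0⟩ := lift_ex (X := tr1 Z) (Y := shf X) 1 (fun a => a.2)
    (fun i hi => by
      have := shf_ex (hX.exact (i - 1) (by omega))
      rwa [sub_add_cancel] at this)
    (fun a => f0 a)
    (fun a _ => by
      refine ⟨shf_hom.2 (hf1 a) , ?_⟩
      show f0 a ᵥ* (-X.D) = 0
      rw [vecMul_neg, (mem_Z_zero hX.nonneg (hf1 a)).2, neg_zero])
    (by
      intro a ha
      have ha' : Z.deg a = 2 := by
        have : Z.deg a = 1 + 1 := ha
        omega
      have hs : X.Hom 0 (∑ b : (tr1 Z).ι, (tr1 Z).D a b • f0 b) :=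
        sup_sum _ fun b _ => sup_smul _ (hf1 b)
      refine shf_bd (k := 0) (hX.ker _ hs ?_)
      apply hf
      rw [map_zero, map_sum, map_sum]
      have e1 : ∀ b : (tr1 Z).ι, f (ev ε ((tr1 Z).D a b • f0 b)) = -(Z.D a b • ev l (Z.D b)) := by
        intro b
        by_cases hb : Z.D a b = 0
        · have : (tr1 Z).D a b = 0 := hb
          rw [this, hb, zero_smul, zero_smul, map_zero, map_zero, neg_zero]
        · have hb1 : Z.deg b = 1 := by have := Z.hdeg a b hb; omega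
          rw [map_smul, map_smul, hf2, hk b hb1, smul_neg]
          rfl
      rw [Finset.sum_congr rfl fun b _ => e1 b, Finset.sum_neg_distrib, neg_eq_zero]
      have e2 : ∑ b : (tr1 Z).ι, Z.D a b • ev l (Z.D b) = ∑ b : Z.ι, Z.D a b • ev l (Z.D b) := by
        rw [← Finset.sum_subtype (Finset.univ.filter fun c => 1 ≤ Z.deg c) (by simp)
          (fun c => Z.D a c • ev l (Z.D c)), Finset.sum_filter]
        refine Finset.sum_congr rfl fun c _ => ?_
        split_ifs with h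
        · rfl
        · by_cases h2 : Z.D a c = 0
          · rw [h2, zero_smul]
          · exact absurd (by have := Z.hdeg a c h2; omega) h
      rw [e2, ← ev_row]
      have e3 : Z.D a ᵥ* Z.D = 0 := by
        have := vD_D Z (Pi.single a 1)
        rwa [Matrix.single_one_vecMul] at this
      rw [e3, map_zero])
  -- the connecting matrix
  let θ : Matrix Z.ι X.ι R := Matrix.of fun a b => if h : 1 ≤ Z.deg a then F ⟨a, h⟩ b else 0
  have hθ1 : ∀ a (h : 1 ≤ Z.deg a), θ a = F ⟨a, h⟩ := fun a h => by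
    funext b
    show (if h : 1 ≤ Z.deg a then F ⟨a, h⟩ b else 0) = _
    rw [dif_pos h]
  have hθ0 : ∀ a, ¬ 1 ≤ Z.deg a → θ a = 0 := fun a h => by
    funext b
    show (if h : 1 ≤ Z.deg a then F ⟨a, h⟩ b else 0) = _
    rw [dif_neg h]
    rfl
  have hθd : HD Z X (-1) θ := by
    intro a b hab
    by_cases h : 1 ≤ Z.deg a
    · rw [hθ1 a h] at hab
      have := hF.hom _ _ hab
      have h2 : Z.deg a = X.deg b + 1 := this
      omega
    · rw [hθ0 a h] at hab
      exact absurd rfl hab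
  have hθc : θ * X.D + Z.D * θ = 0 := by
    ext a b
    show (θ * X.D) a b + (Z.D * θ) a b = 0
    by_cases h : 1 ≤ Z.deg a
    · have h1 : (θ * X.D) a b = (F * X.D) ⟨a, h⟩ b := by
        rw [Matrix.mul_apply, Matrix.mul_apply]
        exact Finset.sum_congr rfl fun c _ => by rw [hθ1 a h]
      have h2 : (Z.D * θ) a b = ((tr1 Z).D * F) ⟨a, h⟩ b := by
        rw [Matrix.mul_apply, Matrix.mul_apply]
        show ∑ c, Z.D a c * θ c b = ∑ c : {c : Z.ι // 1 ≤ Z.deg c}, Z.D a c * F c b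
        have h3 : ∀ c : {c : Z.ι // 1 ≤ Z.deg c}, Z.D a c * F c b = Z.D a c * θ c b := fun c => by
          rw [hθ1 c c.2]
        rw [Finset.sum_congr rfl fun c _ => h3 c,
          ← Finset.sum_subtype (Finset.univ.filter fun c => 1 ≤ Z.deg c) (by simp)
          (fun c => Z.D a c * θ c b), Finset.sum_filter]
        refine Finset.sum_congr rfl fun c _ => ?_
        split_ifs with h4
        · rfl
        · rw [hθ0 c h4, Pi.zero_apply, mul_zero]
      have h3 : ((tr1 Z).D * F) = -(F * X.D) := by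
        rw [hF.comm, Matrix.mul_neg]
      rw [h1, h2, h3, Matrix.neg_apply, add_neg_cancel]
    · have h1 : (θ * X.D) a b = 0 := by
        rw [Matrix.mul_apply]
        exact Finset.sum_eq_zero fun c _ => by rw [hθ0 a h, Pi.zero_apply, zero_mul]
      have h2 : (Z.D * θ) a b = 0 := by
        rw [Matrix.mul_apply]
        refine Finset.sum_eq_zero fun c _ => ?_
        by_cases h3 : Z.D a c = 0
        · rw [h3, zero_mul]
        · rw [hθ0 c (by have := Z.hdeg a c h3; omega), Pi.zero_apply, mul_zero]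
      rw [h1, h2, add_zero]
  have hθe : ∀ z, Z.Hom 1 z → f (ev ε (z ᵥ* θ)) = -ev l (z ᵥ* Z.D) := by
    intro z hz
    rw [ev_row, ev_row, map_sum, ← Finset.sum_neg_distrib]
    refine Finset.sum_congr rfl fun a _ => ?_
    by_cases ha : z a = 0
    · rw [ha, zero_smul, zero_smul, map_zero, neg_zero]
    · have h1 : Z.deg a = 1 := hz a ha
      have h2 : θ a = f0 a := by
        rw [hθ1 a (by omega)]
        exact hF0 ⟨a, by omega⟩ h1
      rw [h2, map_smul, hf2, hk a h1, smul_neg]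
  let Y : FC R :=
    { ι := X.ι ⊕ Z.ι
      deg := Sum.elim X.deg Z.deg
      D := fromBlocks X.D 0 θ Z.D
      hdeg := by
        rintro (a | a) (b | b) h
        · exact X.hdeg a b h
        · exact absurd rfl h
        · have := hθd a b h
          show Z.deg a = X.deg b + 1
          omega
        · exact Z.hdeg a b h
      hD := by
        rw [fromBlocks_multiply]
        simp [X.hD, Z.hD, hθc] }
  have hYD : ∀ (x : X.ι → R) (z : Z.ι → R), (Sum.elim x z : X.ι ⊕ Z.ι → R) ᵥ* Y.D =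
      Sum.elim (x ᵥ* X.D + z ᵥ* θ) (z ᵥ* Z.D) := by
    intro x z
    show (Sum.elim x z : X.ι ⊕ Z.ι → R) ᵥ* fromBlocks X.D 0 θ Z.D = _
    rw [vecMul_fromBlocks, vecMul_zero, zero_add]
    rfl
  have hYh : ∀ (k : ℤ) (x : X.ι → R) (z : Z.ι → R), Y.Hom k (Sum.elim x z : X.ι ⊕ Z.ι → R) ↔
      X.Hom k x ∧ Z.Hom k z := by
    intro k x z
    constructor
    · intro h
      exact ⟨fun a ha => h (Sum.inl a) ha, fun a ha => h (Sum.inr a) ha⟩
    · rintro ⟨h1, h2⟩ (a | a) ha
      · exact h1 a ha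
      · exact h2 a ha
  have hYv : ∀ v : X.ι ⊕ Z.ι → R, ∃ x z, v = Sum.elim x z := fun v =>
    ⟨fun a => v (Sum.inl a), fun a => v (Sum.inr a), by funext a; rcases a with a | a <;> rfl⟩
  let δ : X.ι ⊕ Z.ι → L := Sum.elim (fun a => f (ε a)) l
  have hδ : ∀ (x : X.ι → R) (z : Z.ι → R), ev δ (Sum.elim x z : X.ι ⊕ Z.ι → R) =
      f (ev ε x) + ev l z := by
    intro x z
    rw [ev_apply, Fintype.sum_sum_type, ev_apply, ev_apply, map_sum]
    congr 1
    exact Finset.sum_congr rfl fun a _ => (map_smul f _ _).symm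
  -- reduction: a vector with `z` a boundary
  have key : ∀ (k : ℤ) (x : X.ι → R) (z z' : Z.ι → R), X.Hom k x → Z.Hom (k + 1) z' →
      z' ᵥ* Z.D = z → X.Bd k (x - z' ᵥ* θ) → Y.Bd k (Sum.elim x z : X.ι ⊕ Z.ι → R) := by
    rintro k x z z' hx hz' h1 ⟨x', hx', h2⟩
    refine ⟨(Sum.elim x' z' : X.ι ⊕ Z.ι → R), (hYh _ _ _).2 ⟨hx', hz'⟩, ?_⟩
    rw [hYD, h1, h2, sub_add_cancel]
  refine ⟨Y, δ, ?_, ?_, ?_, ?_, ?_⟩
  · rintro (a | a)
    · exact hX.nonneg a
    · exact hZ.nonneg a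
  · rintro k hk v ⟨hv, hv0⟩
    obtain ⟨x, z, rfl⟩ := hYv v
    obtain ⟨hx, hz⟩ := (hYh _ _ _).1 hv
    rw [hYD] at hv0
    have e1 : z ᵥ* Z.D = 0 := funext fun a => congrFun hv0 (Sum.inr a)
    have e2 : x ᵥ* X.D + z ᵥ* θ = 0 := funext fun a => congrFun hv0 (Sum.inl a)
    obtain ⟨z', hz', h1⟩ := hZ.exact k hk z ⟨hz, e1⟩
    refine key k x z z' hx hz' h1 (hX.exact k hk _ ⟨sup_sub hx ?_, ?_⟩)
    · have := sup_vecMul hθd hz'
      rwa [add_neg_cancel_right] at this
    · have h3 : z' ᵥ* θ ᵥ* X.D = -(z ᵥ* θ) := by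
        rw [vecMul_vecMul, eq_neg_of_add_eq_zero_left hθc, vecMul_neg, ← vecMul_vecMul, h1]
      rw [sub_vecMul, h3, sub_neg_eq_add, e2]
  · intro w hw
    obtain ⟨x, z, rfl⟩ := hYv w
    obtain ⟨hx, hz⟩ := (hYh _ _ _).1 hw
    rw [hYD, hδ, map_add, hX.aug x hx, zero_add, hθe z hz, neg_add_cancel]
  · intro v hv hv0
    obtain ⟨x, z, rfl⟩ := hYv v
    obtain ⟨hx, hz⟩ := (hYh _ _ _).1 hv
    rw [hδ] at hv0
    have h1 : ev ζ z = 0 := by
      have h2 := congrArg g hv0
      rw [map_add, (hfg _).2 ⟨_, rfl⟩, zero_add, hgl, map_zero] at h2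
      exact h2
    obtain ⟨z', hz', h2⟩ := hZ.ker z hz h1
    have hz1 : Z.Hom 1 z' := by simpa using hz'
    refine key 0 x z z' hx hz' h2 (hX.ker _ (sup_sub hx ?_) ?_)
    · have := sup_vecMul hθd hz'
      rwa [add_neg_cancel_right] at this
    · apply hf
      rw [map_zero, map_sub, map_sub, hθe z' hz1, h2, sub_neg_eq_add, hv0]
  · intro y
    obtain ⟨z, hz, h1⟩ := hZ.surj (g y)
    obtain ⟨k, hk⟩ := (hfg (y - ev l z)).1 (by rw [map_sub, hgl, h1, sub_self])
    obtain ⟨x, hx, h2⟩ := hX.surj k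
    exact ⟨(Sum.elim x z : X.ι ⊕ Z.ι → R), (hYh _ _ _).2 ⟨hx, hz⟩, by
      rw [hδ, h2, hk, sub_add_cancel]⟩

end Pool.Agent.H19.UR
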