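import Pool.Agent.H19.UR.Hsh

/-!
# Interface, part A: `res_self`, finiteness, extensions and quotients
-/

set_option autoImplicit false

open Matrix Pool.Agent.H16.UN Pool.Agent.H42.UR

namespace Pool.Agent.H19.UR

section

variable {R : Type} [Ring R]

private def homS (Y : FC R) (k : ℤ) : Submodule R (Y.ι → R) where
  carrier := {v | Y.Hom k v}
  add_mem' := sup_add
  zero_mem' := sup_zero Y k
  smul_mem' r _ h := sup_smul r h

private def bdS (Y : FC R) (k : ℤ) : Submodule R (Y.ι → R) where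
  carrier := {v | Y.Bd k v}
  add_mem' := bd_add
  zero_mem' := bd_zero Y k
  smul_mem' r _ h := bd_smul r h

theorem finite_of_res {K : Type} [AddCommGroup K] [Module R K] {X : FC R} {ε : X.ι → K}
    (hX : IsRes X ε) : Module.Finite R K := by
  classical
  refine Module.Finite.of_surjective (ev ε) fun x => ?_
  obtain ⟨v, -, h⟩ := hX.surj x
  exact ⟨v, h⟩

theorem res_self' (Y : FC R) (h0 : ∀ a, 0 ≤ Y.deg a) (h1 : ∀ k, 0 < k → Y.Ex k) :
    ∃ (N : Type) (_ : AddCommGroup N) (_ : Module R N) (ε : Y.ι → N), IsRes Y ε ∧ Module.Finite R N := by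
  classical
  let P := homS Y 0
  let Q : Submodule R P := (bdS Y 0).submoduleOf P
  let ε : Y.ι → P ⧸ Q := fun a =>
    Q.mkQ ⟨pj Y 0 (Pi.single a 1), sup_pj Y 0 _⟩
  have hev : ∀ (v : Y.ι → R) (hv : Y.Hom 0 v), ev ε v = Q.mkQ ⟨v, hv⟩ := by
    intro v hv
    rw [ev_apply]
    show ∑ a, v a • Q.mkQ ⟨pj Y 0 (Pi.single a 1), sup_pj Y 0 _⟩ = _
    rw [← Finset.sum_congr rfl (fun a _ => map_smul Q.mkQ (v a) _), ← map_sum]
    congr 1
    apply Subtype.ext
    rw [Submodule.coe_sum]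
    funext b
    rw [Finset.sum_apply, Finset.sum_eq_single b]
    · show v b • pj Y 0 (Pi.single b 1) b = v b
      unfold pj
      by_cases hb : Y.deg b = 0
      · rw [if_pos hb]; simp
      · rw [if_neg hb]
        by_contra h3
        exact hb (hv b (fun h4 => h3 (by rw [h4]; simp)))
    · intro a _ hab
      show v a • pj Y 0 (Pi.single a 1) b = 0
      unfold pj
      split_ifs
      · rw [Pi.single_eq_of_ne (Ne.symm hab)]; simp
      · simp
    · intro h; exact absurd (Finset.mem_univ b) h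
  have hres : IsRes Y ε := by
    refine ⟨h0, h1, ?_, ?_, ?_⟩
    · intro w hw
      have h2 : Y.Bd 0 (w ᵥ* Y.D) := ⟨w, by simpa using hw, rfl⟩
      rw [hev _ (bd_hom h2)]
      exact (Submodule.Quotient.mk_eq_zero Q).2 h2
    · intro v hv hv0
      rw [hev v hv] at hv0
      exact (Submodule.Quotient.mk_eq_zero Q).1 hv0
    · intro x
      obtain ⟨⟨v, hv⟩, rfl⟩ := Submodule.Quotient.mk_surjective Q x
      exact ⟨v, hv, hev v hv⟩
  exact ⟨P ⧸ Q, inferInstance, inferInstance, ε, hres, finite_of_res hres⟩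

end

section

variable {R : Type} [Ring R] [StarRing R] {K L N : Type} [AddCommGroup K] [Module R K]
  [AddCommGroup L] [Module R L] [AddCommGroup N] [Module R N]

theorem gr_ext {j : ℕ} (f : K →ₗ[R] L) (g : L →ₗ[R] N) (hf : Function.Injective f)
    (hg : Function.Surjective g) (hfg : ∀ x, g x = 0 ↔ ∃ y, f y = x)
    (hK : Gr R j K) (hN : Gr R j N) : Gr R j L := by
  obtain ⟨X, ε, hX, h1⟩ := hK
  obtain ⟨Z, ζ, hZ, h2⟩ := hN
  obtain ⟨Y, δ, hY⟩ := horseshoe f g hf hg hfg hX hZ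
  obtain ⟨F, hF, hF0⟩ := lift_lin hX hY f
  have hC := cone_res hX hY hF hF0 hf hg hfg
  exact ⟨Y, δ, hY, fun i hi =>
    cone_coex_b hF ((Pool.Agent.H42.UR.coex_iff hZ hC i).1 (h2 i hi)) (h1 i hi)⟩

theorem gr_quot {j : ℕ} (f : K →ₗ[R] L) (g : L →ₗ[R] N) (hf : Function.Injective f)
    (hg : Function.Surjective g) (hfg : ∀ x, g x = 0 ↔ ∃ y, f y = x) (hK : Gr R j K)
    (hL : Gr R j L) : Gr R j N := by
  obtain ⟨X, ε, hX, h1⟩ := hK
  obtain ⟨Y, η, hY, h2⟩ := hL
  obtain ⟨F, hF, hF0⟩ := lift_lin hX hY f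
  refine ⟨_, _, cone_res hX hY hF hF0 hf hg hfg, fun i hi => ?_⟩
  exact cone_coex_a hF (h2 i hi) (h1 (i - 1) (by omega))

theorem gr_zero (j : ℕ) [Subsingleton K] : Gr R j K := by
  refine ⟨FC.zero R, fun a => a.elim, ⟨fun a => a.elim, ?_, ?_, ?_, ?_⟩, ?_⟩
  · intro k _ v _
    exact ⟨v, fun a => a.elim, funext fun a => a.elim⟩
  · intro w _
    exact Subsingleton.elim _ _
  · intro v _ _
    exact ⟨v, fun a => a.elim, funext fun a => a.elim⟩
  · intro x
    exact ⟨fun a => a.elim, fun a => a.elim, Subsingleton.elim _ _⟩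
  · intro i _ v _ _
    exact ⟨v, fun a => a.elim, funext fun a => a.elim⟩

end

section

variable {R : Type} [Ring R] {K L : Type} [AddCommGroup K] [Module R K] [AddCommGroup L]
  [Module R L] {X : FC R}

private theorem tw_hom (τ : R ≃+* R) {k : ℤ} {v : X.ι → R} :
    (X.map (τ : R →+* R)).Hom k (fun a => τ (v a)) ↔ X.Hom k v := by
  constructor
  · intro h a ha
    exact h a fun h0 => ha (τ.injective (by
      have : τ (v a) = 0 := h0
      rw [this, map_zero]))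
  · intro h a ha
    exact h a fun h0 => ha (by
      show τ (v a) = 0
      rw [h0, map_zero])

private theorem tw_vecMul {m n : Type} [Fintype m] (τ : R ≃+* R) (v : m → R) (D : Matrix m n R) :
    (fun a => τ (v a)) ᵥ* D.map (τ : R →+* R) = fun b => τ ((v ᵥ* D) b) := by
  funext b
  show ∑ a, τ (v a) * τ (D a b) = τ (∑ a, v a * D a b)
  rw [map_sum]
  exact Finset.sum_congr rfl fun a _ => (map_mul τ _ _).symm

private theorem tw_rep {m : Type} (τ : R ≃+* R) (v : m → R) : ∃ u : m → R, (fun a => τ (u a)) = v :=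
  ⟨fun a => τ.symm (v a), funext fun a => τ.apply_symm_apply _⟩

private theorem tw_zero {m : Type} (τ : R ≃+* R) {v : m → R} (h : (fun a => τ (v a)) = 0) : v = 0 :=
  funext fun a => τ.injective ((congrFun h a).trans (map_zero τ).symm)

theorem res_equiv {ε : X.ι → K} (hX : IsRes X ε) (e : K ≃ₗ[R] L) : IsRes X (fun a => e (ε a)) := by
  have hev : ∀ v : X.ι → R, ev (fun a => e (ε a)) v = e (ev ε v) := fun v => by
    rw [ev_apply, ev_apply, map_sum]
    exact Finset.sum_congr rfl fun a _ => (map_smul e _ _).symm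
  refine ⟨hX.nonneg, hX.exact, ?_, ?_, ?_⟩
  · intro w hw
    rw [hev, hX.aug w hw, map_zero]
  · intro v hv h0
    rw [hev] at h0
    exact hX.ker v hv (e.injective (by rw [h0, map_zero]))
  · intro x
    obtain ⟨v, hv, h0⟩ := hX.surj (e.symm x)
    exact ⟨v, hv, by rw [hev, h0, e.apply_symm_apply]⟩

theorem res_twist {ε : X.ι → K} (hX : IsRes X ε) (τ : R ≃+* R) (e : K ≃+ L)
    (he : ∀ (r : R) (x : K), e (r • x) = τ r • e x) :
    IsRes (X.map (τ : R →+* R)) (fun a => e (ε a) : X.ι → L) := by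
  have hev : ∀ v : X.ι → R, ev (fun a => e (ε a)) (fun a => τ (v a)) = e (ev ε v) := fun v => by
    rw [ev_apply, ev_apply, map_sum]
    exact Finset.sum_congr rfl fun a _ => (he _ _).symm
  have hbd : ∀ (k : ℤ) (v : X.ι → R), X.Bd k v → (X.map (τ : R →+* R)).Bd k (fun a => τ (v a)) := by
    rintro k v ⟨w, hw, rfl⟩
    exact ⟨fun a => τ (w a), (tw_hom τ).2 hw, tw_vecMul τ w X.D⟩
  refine ⟨hX.nonneg, ?_, ?_, ?_, ?_⟩
  · rintro k hk v ⟨hv, hv0⟩
    obtain ⟨u, rfl⟩ := tw_rep τ v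
    have h1 : (fun a => τ (u a)) ᵥ* X.D.map (τ : R →+* R) = 0 := hv0
    rw [tw_vecMul] at h1
    exact hbd k u (hX.exact k hk u ⟨(tw_hom τ).1 hv, tw_zero τ h1⟩)
  · intro w hw
    obtain ⟨u, rfl⟩ := tw_rep τ w
    show ev (fun a => e (ε a)) ((fun a => τ (u a)) ᵥ* X.D.map (τ : R →+* R)) = 0
    rw [tw_vecMul, hev, hX.aug u ((tw_hom τ).1 hw), map_zero]
  · intro v hv hv0
    obtain ⟨u, rfl⟩ := tw_rep τ v
    rw [hev] at hv0
    exact hbd 0 u (hX.ker u ((tw_hom τ).1 hv) (e.injective (by rw [hv0, map_zero])))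
  · intro x
    obtain ⟨v, hv, h0⟩ := hX.surj (e.symm x)
    exact ⟨fun a => τ (v a), (tw_hom τ).2 hv, by rw [hev, h0, e.apply_symm_apply]⟩

theorem gr_twist [StarRing R] {j : ℕ} (h : Gr R j K) (τ : R ≃+* R)
    (hτ : ∀ r, τ (star r) = star (τ r)) (e : K ≃+ L)
    (he : ∀ (r : R) (x : K), e (r • x) = τ r • e x) : Gr R j L := by
  obtain ⟨X, ε, hX, h1⟩ := h
  refine ⟨_, _, res_twist hX τ e he, fun i hi v hv hv0 => ?_⟩
  obtain ⟨u, rfl⟩ := tw_rep τ v
  have hD : (X.D.map (τ : R →+* R))ᴴ = X.Dᴴ.map (τ : R →+* R) := by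
    ext a b
    exact (hτ _).symm
  have h2 : (fun a => τ (u a)) ᵥ* (X.D.map (τ : R →+* R))ᴴ = 0 := hv0
  rw [hD, tw_vecMul] at h2
  obtain ⟨w, hw, hw0⟩ := h1 i hi u ((tw_hom τ).1 hv) (tw_zero τ h2)
  refine ⟨fun a => τ (w a), (tw_hom τ).2 hw, ?_⟩
  show (fun a => τ (w a)) ᵥ* (X.D.map (τ : R →+* R))ᴴ = _
  rw [hD, tw_vecMul, hw0]

end

end Pool.Agent.H19.UR
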