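import Pool.Agent.H19.UR.ItA

/-!
# Interface: facts on resolutions and grade used by the Laurent step (proofs: H42/UR, ItA)
-/

set_option autoImplicit false

open Matrix Pool.Agent.H16.UN

namespace Pool.Agent.H19.UR

variable {R : Type} [Ring R]

section res

variable {K L N : Type} [AddCommGroup K] [Module R K] [AddCommGroup L] [Module R L] [AddCommGroup N]
  [Module R N]

/-- a linear map lifts to resolutions -/
theorem lift_exists {X Y : FC R} {ε : X.ι → K} {η : Y.ι → L} (hX : IsRes X ε) (hY : IsRes Y η)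
    (g : K →ₗ[R] L) :
    ∃ F : Matrix X.ι Y.ι R, IsMap X Y F ∧ ∀ v, X.Hom 0 v → ev η (v ᵥ* F) = g (ev ε v) :=
  Pool.Agent.H42.UR.lift_lin hX hY g

/-- the cone of a lift of an injective map is a resolution of the cokernel -/
theorem cone_res {X Y : FC R} {ε : X.ι → K} {η : Y.ι → L} (hX : IsRes X ε) (hY : IsRes Y η)
    {F : Matrix X.ι Y.ι R} (hF : IsMap X Y F) {g : K →ₗ[R] L}
    (hg : ∀ v, X.Hom 0 v → ev η (v ᵥ* F) = g (ev ε v)) (hi : Function.Injective g)
    {π : L →ₗ[R] N} (hπ : Function.Surjective π) (hk : ∀ x, π x = 0 ↔ ∃ y, g y = x) :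
    IsRes (FC.cone X Y F hF) (Sum.elim (fun a => π (η a)) (fun _ => 0) : Y.ι ⊕ X.ι → N) :=
  Pool.Agent.H42.UR.cone_res hX hY hF hg hi hπ hk

/-- twisting a resolution by an automorphism of the ring -/
theorem IsRes.twist {X : FC R} {ε : X.ι → K} (hX : IsRes X ε) (τ : R ≃+* R) (e : K ≃+ L)
    (he : ∀ (r : R) (x : K), e (r • x) = τ r • e x) :
    IsRes (X.map (τ : R →+* R)) (fun a => e (ε a) : X.ι → L) :=
  res_twist hX τ e he

/-- a linear equivalence -/
theorem IsRes.equiv {X : FC R} {ε : X.ι → K} (hX : IsRes X ε) (e : K ≃ₗ[R] L) :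
    IsRes X (fun a => e (ε a)) :=
  Pool.Agent.H19.UR.res_equiv hX e

/-- every complex in degrees `≥ 0`, exact in degrees `> 0`, is a resolution -/
theorem res_self (Y : FC R) (h0 : ∀ a, 0 ≤ Y.deg a) (h1 : ∀ k, 0 < k → Y.Ex k) :
    ∃ (N : Type) (_ : AddCommGroup N) (_ : Module R N) (ε : Y.ι → N), IsRes Y ε ∧ Module.Finite R N :=
  res_self' Y h0 h1

/-- a module with a resolution is finitely generated -/
theorem IsRes.finite {X : FC R} {ε : X.ι → K} (hX : IsRes X ε) : Module.Finite R K :=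
  finite_of_res hX

end res

section grade

variable [StarRing R] {K L N : Type} [AddCommGroup K] [Module R K] [AddCommGroup L] [Module R L]
  [AddCommGroup N] [Module R N]

/-- independence of the resolution -/
theorem coex_iff {X X' : FC R} {ε : X.ι → K} {ε' : X'.ι → K} (h : IsRes X ε) (h' : IsRes X' ε')
    (i : ℤ) : X.CoEx i ↔ X'.CoEx i :=
  Pool.Agent.H42.UR.coex_iff h h' i

/-- independence of the resolution, for the condition on the cohomology of the dual -/
theorem le_coh {X X' : FC R} {ε : X.ι → K} {ε' : X'.ι → K} (h : IsRes X ε) (h' : IsRes X' ε')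
    (i : ℤ) (q : ℕ) (hle : Le q (Bc X i) (Zc X i)) : Le q (Bc X' i) (Zc X' i) :=
  Pool.Agent.H42.UR.le_coh h h' i q hle

theorem Gr.all {j : ℕ} (h : Gr R j K) {X : FC R} {ε : X.ι → K} (hX : IsRes X ε) (i : ℤ)
    (hi : i < j) : X.CoEx i := by
  obtain ⟨Y, η, hY, h1⟩ := h
  exact (coex_iff hY hX i).1 (h1 i hi)

theorem Gr.equiv {j : ℕ} (h : Gr R j K) (e : K ≃ₗ[R] L) : Gr R j L := by
  obtain ⟨X, ε, hX, h1⟩ := h
  exact ⟨X, _, hX.equiv e, h1⟩

theorem Gr.mono {i j : ℕ} (hij : i ≤ j) (h : Gr R j K) : Gr R i K := by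
  obtain ⟨X, ε, hX, h1⟩ := h
  exact ⟨X, ε, hX, fun k hk => h1 k (by omega)⟩

theorem Gr.finite {j : ℕ} (h : Gr R j K) : Module.Finite R K := by
  obtain ⟨X, ε, hX, h1⟩ := h
  exact hX.finite

/-- extension -/
theorem Gr.ext {j : ℕ} (f : K →ₗ[R] L) (g : L →ₗ[R] N) (hf : Function.Injective f)
    (hg : Function.Surjective g) (hfg : ∀ x, g x = 0 ↔ ∃ y, f y = x) (hK : Gr R j K) (hN : Gr R j N) :
    Gr R j L :=
  gr_ext f g hf hg hfg hK hN

/-- quotient -/
theorem Gr.quot {j : ℕ} (f : K →ₗ[R] L) (g : L →ₗ[R] N) (hf : Function.Injective f)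
    (hg : Function.Surjective g) (hfg : ∀ x, g x = 0 ↔ ∃ y, f y = x) (hK : Gr R j K) (hL : Gr R j L) :
    Gr R j N :=
  gr_quot f g hf hg hfg hK hL

theorem Gr.zero (j : ℕ) [Subsingleton K] : Gr R j K :=
  gr_zero j

/-- every finitely generated module has grade at least `0` -/
theorem Gr.of_zero {d : ℤ} (hA : Aus R d) [Module.Finite R K] : Gr R 0 K := by
  obtain ⟨X, ε, hX, h1⟩ := hA.res K inferInstance
  refine ⟨X, ε, hX, fun i hi v hv _ => ⟨0, fun a ha => absurd rfl ha, ?_⟩⟩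
  have h2 : v = 0 := by
    funext a
    by_contra h3
    have h4 := hv a h3
    have h5 := hX.nonneg a
    omega
  rw [h2, zero_vecMul]

/-- twisting by an automorphism of the ring with involution -/
theorem Gr.twist {j : ℕ} (h : Gr R j K) (τ : R ≃+* R) (hτ : ∀ r, τ (star r) = star (τ r)) (e : K ≃+ L)
    (he : ∀ (r : R) (x : K), e (r • x) = τ r • e x) : Gr R j L :=
  gr_twist h τ hτ e he

end grade

end Pool.Agent.H19.UR
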