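import Pool.Agent.H19.UR.Def

/-!
# Skew Laurent extensions `S = R[t, t⁻¹; σ]` with involution

Every `s ∈ S` is uniquely a finite sum `∑ t^n i(c_n)`; `t i(r) = i(σ r) t`; `star t = ± t⁻¹`.
`S`-modules are regarded as `R`-modules by `[Module R M] [IsScalarTower R S M]`.
-/

set_option autoImplicit false

open Pool.Agent.H16.UN

namespace Pool.Agent.H19.UR

/-- `S` is a skew Laurent extension of `R` -/
structure Lau (R S : Type) [Ring R] [StarRing R] [Ring S] [StarRing S] [Module R S] where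
  /-- the inclusion -/
  i : R →+* S
  smul_eq : ∀ (r : R) (s : S), r • s = i r * s
  istar : ∀ r, i (star r) = star (i r)
  /-- the variable -/
  t : Sˣ
  /-- the automorphism `r ↦ t r t⁻¹` -/
  σ : R ≃+* R
  comm : ∀ r, (t : S) * i r = i (σ r) * t
  /-- the sign in `star t = e t⁻¹` -/
  e : ℤ
  he : e * e = 1
  tstar : star (t : S) = (e : S) * ((t⁻¹ : Sˣ) : S)
  /-- the coefficients: `s = ∑ t^n i (co n s)` -/
  co : ℤ → S →+ R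
  fin : ∀ s, {n | co n s ≠ 0}.Finite
  expand : ∀ s, s = ∑ n ∈ (fin s).toFinset, ((t ^ n : Sˣ) : S) * i (co n s)
  co_mono : ∀ (m n : ℤ) (r : R), co n (((t ^ m : Sˣ) : S) * i r) = if m = n then r else 0

variable {R S : Type} [Ring R] [StarRing R] [Ring S] [StarRing S] [Module R S] (𝓛 : Lau R S)

namespace Lau

/-- additive maps on `S` which agree on monomials agree -/
theorem hom_ext {A : Type*} [AddCommGroup A] {f g : S →+ A}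
    (h : ∀ (m : ℤ) (r : R), f (((𝓛.t ^ m : Sˣ) : S) * 𝓛.i r) = g (((𝓛.t ^ m : Sˣ) : S) * 𝓛.i r)) (s : S) :
    f s = g s := by
  rw [𝓛.expand s, map_sum, map_sum]
  exact Finset.sum_congr rfl fun n _ => h n _

/-- induction: a property of `S` closed under sums which holds for monomials holds for all -/
theorem ind {p : S → Prop} (h0 : p 0) (hadd : ∀ x y, p x → p y → p (x + y))
    (hm : ∀ (m : ℤ) (r : R), p (((𝓛.t ^ m : Sˣ) : S) * 𝓛.i r)) (s : S) : p s := by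
  rw [𝓛.expand s]
  exact Finset.sum_induction _ p hadd h0 fun n _ => hm n _

theorem ext {s s' : S} (h : ∀ n, 𝓛.co n s = 𝓛.co n s') : s = s' := by
  have h1 : ∀ n, 𝓛.co n (s - s') = 0 := fun n => by rw [map_sub, h n, sub_self]
  have h2 := 𝓛.expand (s - s')
  rw [Finset.sum_eq_zero fun n _ => by rw [h1 n, map_zero, mul_zero]] at h2
  exact sub_eq_zero.1 h2

theorem co_i (n : ℤ) (r : R) : 𝓛.co n (𝓛.i r) = if n = 0 then r else 0 := by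
  have := 𝓛.co_mono 0 n r
  simpa [eq_comm] using this

theorem i_inj : Function.Injective 𝓛.i := fun a b h => by
  have h1 := 𝓛.co_i 0 a
  have h2 := 𝓛.co_i 0 b
  rw [h, h2] at h1
  simpa using h1.symm

theorem star_σ (r : R) : 𝓛.σ (star r) = star (𝓛.σ r) := by
  apply 𝓛.i_inj
  have h1 := congrArg star (𝓛.comm (star r))
  have e1 : ((𝓛.t⁻¹ : Sˣ) : S) * (𝓛.t : S) = 1 := by simp
  have e2 : (𝓛.t : S) * ((𝓛.t⁻¹ : Sˣ) : S) = 1 := by simp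
  have hc : ∀ x : S, (𝓛.e : S) * x = x * (𝓛.e : S) := fun x => (Int.cast_commute _ x).eq
  have hee : (𝓛.e : S) * (𝓛.e : S) = 1 := by rw [← Int.cast_mul, 𝓛.he, Int.cast_one]
  rw [star_mul, star_mul, 𝓛.tstar, ← 𝓛.istar, ← 𝓛.istar, star_star] at h1
  -- h1 : i r * (e * t⁻¹) = (e * t⁻¹) * i (star (σ (star r)))
  have h2 : 𝓛.i r * ((𝓛.t⁻¹ : Sˣ) : S) = ((𝓛.t⁻¹ : Sˣ) : S) * 𝓛.i (star (𝓛.σ (star r))) := by
    have h3 := congrArg (fun x => (𝓛.e : S) * x) h1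
    beta_reduce at h3
    rw [← mul_assoc, hc (𝓛.i r), mul_assoc, ← mul_assoc (𝓛.e : S) (𝓛.e : S), hee, one_mul,
      mul_assoc, ← mul_assoc (𝓛.e : S) (𝓛.e : S), hee, one_mul] at h3
    exact h3
  have h4 : 𝓛.i (𝓛.σ r) = 𝓛.i (star (𝓛.σ (star r))) := by
    calc 𝓛.i (𝓛.σ r) = 𝓛.i (𝓛.σ r) * ((𝓛.t : S) * ((𝓛.t⁻¹ : Sˣ) : S)) := by rw [e2, mul_one]
      _ = (𝓛.t : S) * (𝓛.i r * ((𝓛.t⁻¹ : Sˣ) : S)) := by
          rw [← mul_assoc, ← 𝓛.comm, mul_assoc]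
      _ = 𝓛.i (star (𝓛.σ (star r))) := by rw [h2, ← mul_assoc, e2, one_mul]
  have h5 := congrArg star (𝓛.i_inj h4)
  rw [star_star] at h5
  rw [h5]

/-- `t^m i r = i (σ^m r) t^m` -/
theorem comm_zpow (m : ℤ) (r : R) :
    ((𝓛.t ^ m : Sˣ) : S) * 𝓛.i r = 𝓛.i ((𝓛.σ ^ m) r) * ((𝓛.t ^ m : Sˣ) : S) := by
  induction m using Int.induction_on generalizing r with
  | zero => simp
  | succ k ih =>
    rw [zpow_add_one, zpow_add_one, Units.val_mul, mul_assoc, 𝓛.comm, ← mul_assoc, ih, mul_assoc]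
    rfl
  | pred k ih =>
    have hinv : ∀ r, ((𝓛.t⁻¹ : Sˣ) : S) * 𝓛.i r = 𝓛.i (𝓛.σ⁻¹ r) * ((𝓛.t⁻¹ : Sˣ) : S) := fun r => by
      have h1 := 𝓛.comm (𝓛.σ⁻¹ r)
      have h2 : 𝓛.σ (𝓛.σ⁻¹ r) = r := 𝓛.σ.apply_symm_apply r
      rw [h2] at h1
      calc ((𝓛.t⁻¹ : Sˣ) : S) * 𝓛.i r
          = ((𝓛.t⁻¹ : Sˣ) : S) * (𝓛.i r * (𝓛.t : S)) * ((𝓛.t⁻¹ : Sˣ) : S) := by
            rw [mul_assoc, mul_assoc, Units.mul_inv, mul_one]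
        _ = ((𝓛.t⁻¹ : Sˣ) : S) * ((𝓛.t : S) * 𝓛.i (𝓛.σ⁻¹ r)) * ((𝓛.t⁻¹ : Sˣ) : S) := by rw [h1]
        _ = _ := by rw [← mul_assoc, Units.inv_mul, one_mul]
    rw [zpow_sub_one, zpow_sub_one, Units.val_mul, mul_assoc, hinv, ← mul_assoc, ih, mul_assoc]
    rfl

theorem co_t_mul (m n : ℤ) (s : S) : 𝓛.co n (((𝓛.t ^ m : Sˣ) : S) * s) = 𝓛.co (n - m) s := by
  refine 𝓛.hom_ext (f := (𝓛.co n).comp (AddMonoidHom.mulLeft _)) (g := 𝓛.co (n - m)) (fun k r => ?_) s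
  show 𝓛.co n (((𝓛.t ^ m : Sˣ) : S) * (((𝓛.t ^ k : Sˣ) : S) * 𝓛.i r)) = _
  rw [← mul_assoc, ← Units.val_mul, ← zpow_add, 𝓛.co_mono, 𝓛.co_mono]
  have : m + k = n ↔ k = n - m := by constructor <;> intro h <;> omega
  simp only [this]

theorem co_mul_i (n : ℤ) (s : S) (r : R) : 𝓛.co n (s * 𝓛.i r) = 𝓛.co n s * r := by
  refine 𝓛.hom_ext (f := (𝓛.co n).comp (AddMonoidHom.mulRight (𝓛.i r)))
    (g := (AddMonoidHom.mulRight r).comp (𝓛.co n)) (fun k r' => ?_) s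
  show 𝓛.co n (((𝓛.t ^ k : Sˣ) : S) * 𝓛.i r' * 𝓛.i r) = 𝓛.co n (((𝓛.t ^ k : Sˣ) : S) * 𝓛.i r') * r
  rw [mul_assoc, ← map_mul, 𝓛.co_mono, 𝓛.co_mono]
  split_ifs
  · rfl
  · rw [zero_mul]

theorem co_i_mul (n : ℤ) (r : R) (s : S) : 𝓛.co n (𝓛.i r * s) = (𝓛.σ ^ (-n)) r * 𝓛.co n s := by
  refine 𝓛.hom_ext (f := (𝓛.co n).comp (AddMonoidHom.mulLeft (𝓛.i r)))
    (g := (AddMonoidHom.mulLeft ((𝓛.σ ^ (-n)) r)).comp (𝓛.co n)) (fun k r' => ?_) s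
  show 𝓛.co n (𝓛.i r * (((𝓛.t ^ k : Sˣ) : S) * 𝓛.i r')) =
    (𝓛.σ ^ (-n)) r * 𝓛.co n (((𝓛.t ^ k : Sˣ) : S) * 𝓛.i r')
  have h1 : 𝓛.i r * ((𝓛.t ^ k : Sˣ) : S) = ((𝓛.t ^ k : Sˣ) : S) * 𝓛.i ((𝓛.σ ^ (-k)) r) := by
    rw [𝓛.comm_zpow]
    congr 2
    rw [← RingAut.mul_apply, ← zpow_add, add_neg_cancel, zpow_zero]
    rfl
  rw [← mul_assoc, h1, mul_assoc, ← map_mul, 𝓛.co_mono, 𝓛.co_mono]
  split_ifs with h
  · rw [h]
  · rw [mul_zero]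

theorem co_mul_t (n : ℤ) (s : S) : 𝓛.co n (s * (𝓛.t : S)) = 𝓛.σ⁻¹ (𝓛.co (n - 1) s) := by
  refine 𝓛.hom_ext (f := (𝓛.co n).comp (AddMonoidHom.mulRight (𝓛.t : S)))
    (g := (𝓛.σ⁻¹ : R ≃+* R).toAddMonoidHom.comp (𝓛.co (n - 1))) (fun k r => ?_) s
  show 𝓛.co n (((𝓛.t ^ k : Sˣ) : S) * 𝓛.i r * (𝓛.t : S)) =
    𝓛.σ⁻¹ (𝓛.co (n - 1) (((𝓛.t ^ k : Sˣ) : S) * 𝓛.i r))
  have h1 : 𝓛.i r * (𝓛.t : S) = (𝓛.t : S) * 𝓛.i (𝓛.σ⁻¹ r) := by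
    rw [𝓛.comm]
    congr 2
    exact (𝓛.σ.apply_symm_apply r).symm
  rw [mul_assoc, h1, ← mul_assoc]
  have h2 : ((𝓛.t ^ k : Sˣ) : S) * (𝓛.t : S) = ((𝓛.t ^ (k + 1) : Sˣ) : S) := by
    rw [zpow_add_one, Units.val_mul]
  rw [h2, 𝓛.co_mono, 𝓛.co_mono]
  have : k + 1 = n ↔ k = n - 1 := by constructor <;> intro h <;> omega
  simp only [this]
  split_ifs
  · rfl
  · rw [map_zero]

theorem co_mul_tinv (n : ℤ) (s : S) :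
    𝓛.co n (s * ((𝓛.t⁻¹ : Sˣ) : S)) = 𝓛.σ (𝓛.co (n + 1) s) := by
  have h1 := 𝓛.co_mul_t (n + 1) (s * ((𝓛.t⁻¹ : Sˣ) : S))
  rw [mul_assoc, Units.inv_mul, mul_one, add_sub_cancel_right] at h1
  rw [h1]
  exact (𝓛.σ.apply_symm_apply _).symm

end Lau

end Pool.Agent.H19.UR
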