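import Pool.Agent.H19.UR.Itf

/-!
# Module LeA: calculus of `Le`, part 1

`Le q A B`: for every f.g. `K ≤ B`, `K / (K ∩ A)` (`K ⧸ A.submoduleOf K`) has grade `≥ q`.

* `of_le`: `K ≤ B ≤ A`, so `A.submoduleOf K = ⊤` and the quotient is trivial (`Gr.zero`).
* `level`: `Gr.mono`. `right`: clear. `inf`: `(A ⊓ B).submoduleOf K = A.submoduleOf K` for `K ≤ B`.
* THREE (private): for `A ≤ A'` and any `K` the maps
  `f : (K ⊓ A') ⧸ A.submoduleOf (K ⊓ A') → K ⧸ A.submoduleOf K` (`Submodule.mapQ` of `inclusion`) and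
  `g : K ⧸ A.submoduleOf K → K ⧸ A'.submoduleOf K` (`Submodule.factor` / `mapQ id`) form an exact sequence:
  `f` injective, `g` surjective, `g x = 0 ↔ x ∈ range f`.
* `left`: `K ≤ B` f.g., `K ⊓ A'` is f.g. (`R` noetherian: submodules of f.g. modules are f.g.) and `≤ B`, so the left
  and the middle term have grade `≥ q`: `Gr.quot`.
* `trans`: `K ≤ C` f.g.; THREE for `A ≤ B`: left term by `Le q A B` (`K ⊓ B` f.g.), right term by `Le q B C`:
  `Gr.ext`. -/

set_option autoImplicit false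

open Pool.Agent.H16.UN

namespace Pool.Agent.H19.UR

variable {R : Type} [Ring R] [StarRing R] {M : Type} [AddCommGroup M] [Module R M] {q : ℕ}
  {A A' B B' C : Submodule R M}

omit [StarRing R] in
private theorem leA_three (K A A' : Submodule R M) (hA : A ≤ A') :
    ∃ (f : (↥(K ⊓ A') ⧸ A.submoduleOf (K ⊓ A')) →ₗ[R] (K ⧸ A.submoduleOf K))
      (g : (K ⧸ A.submoduleOf K) →ₗ[R] (K ⧸ A'.submoduleOf K)),
      Function.Injective f ∧ Function.Surjective g ∧ ∀ x, g x = 0 ↔ ∃ y, f y = x := by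
  have h1 : A.submoduleOf (K ⊓ A') ≤
      (A.submoduleOf K).comap (Submodule.inclusion (inf_le_left : K ⊓ A' ≤ K)) := fun x hx => hx
  have h2 : A.submoduleOf K ≤ (A'.submoduleOf K).comap LinearMap.id := fun x hx => hA hx
  refine ⟨Submodule.mapQ _ _ (Submodule.inclusion inf_le_left) h1,
    Submodule.mapQ _ _ LinearMap.id h2, ?_, ?_, ?_⟩
  · rw [injective_iff_map_eq_zero]
    intro x hx
    obtain ⟨x, rfl⟩ := Submodule.Quotient.mk_surjective _ x
    rw [Submodule.mapQ_apply, Submodule.Quotient.mk_eq_zero] at hx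
    rw [Submodule.Quotient.mk_eq_zero]
    exact hx
  · intro x
    obtain ⟨x, rfl⟩ := Submodule.Quotient.mk_surjective _ x
    exact ⟨Submodule.Quotient.mk x, by rw [Submodule.mapQ_apply]; rfl⟩
  · intro x
    obtain ⟨x, rfl⟩ := Submodule.Quotient.mk_surjective _ x
    rw [Submodule.mapQ_apply, Submodule.Quotient.mk_eq_zero]
    constructor
    · intro hx
      have hx' : (x : M) ∈ A' := hx
      exact ⟨Submodule.Quotient.mk ⟨x, x.2, hx'⟩, by rw [Submodule.mapQ_apply]; rfl⟩
    · rintro ⟨y, hy⟩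
      obtain ⟨y, rfl⟩ := Submodule.Quotient.mk_surjective _ y
      rw [Submodule.mapQ_apply, Submodule.Quotient.eq] at hy
      have h3 : (y : M) - (x : M) ∈ A := hy
      have h4 : (y : M) ∈ A' := y.2.2
      have h5 : (x : M) = (y : M) - ((y : M) - (x : M)) := by abel
      show (x : M) ∈ A'
      rw [h5]
      exact A'.sub_mem h4 (hA h3)

omit [StarRing R] in
private theorem leA_fg [IsNoetherianRing R] {K : Submodule R M} (hK : K.FG) (A : Submodule R M) :
    (K ⊓ A).FG :=
  isNoetherian_submodule.1 (isNoetherian_of_fg_of_noetherian K hK) (K ⊓ A) inf_le_left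

theorem Le.of_le (q : ℕ) (h : B ≤ A) : Le q A B := by
  intro K _ hKB
  have e : A.submoduleOf K = ⊤ := Submodule.comap_subtype_eq_top.2 (hKB.trans h)
  have : Subsingleton (K ⧸ A.submoduleOf K) := Submodule.Quotient.subsingleton_iff.2 e
  exact Gr.zero q

theorem Le.level {q' : ℕ} (hq : q' ≤ q) (h : Le q A B) : Le q' A B := by
  exact fun K hK hKB => (h K hK hKB).mono hq

theorem Le.right (hB : B' ≤ B) (h : Le q A B) : Le q A B' := by
  exact fun K hK hKB => h K hK (hKB.trans hB)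

theorem Le.inf (h : Le q A B) : Le q (A ⊓ B) B := by
  intro K hK hKB
  have e : (A ⊓ B).submoduleOf K = A.submoduleOf K := by
    ext x
    exact ⟨fun hx => hx.1, fun hx => ⟨hx, hKB x.2⟩⟩
  rw [e]
  exact h K hK hKB

theorem Le.left [IsNoetherianRing R] (hA : A ≤ A') (h : Le q A B) : Le q A' B := by
  intro K hK hKB
  obtain ⟨f, g, hf, hg, hfg⟩ := leA_three K A A' hA
  exact Gr.quot f g hf hg hfg (h (K ⊓ A') (leA_fg hK A') (inf_le_left.trans hKB)) (h K hK hKB)

theorem Le.trans [IsNoetherianRing R] (hAB : A ≤ B) (h : Le q A B) (h' : Le q B C) : Le q A C := by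
  intro K hK hKC
  obtain ⟨f, g, hf, hg, hfg⟩ := leA_three K A B hAB
  exact Gr.ext f g hf hg hfg (h (K ⊓ B) (leA_fg hK B) inf_le_right) (h' K hK hKC)

end Pool.Agent.H19.UR
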