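import Pool.Agent.H19.UR.LeA

/-!
# Module LeB: calculus of `Le`, part 2

* ISO1 (private): if `A ⊔ K = A ⊔ K'` then `K ⧸ A.submoduleOf K ≃ₗ K' ⧸ A.submoduleOf K'`: both are isomorphic to
  `(A ⊔ K) ⧸ A.submoduleOf (A ⊔ K)`: the map `K ⧸ A.submoduleOf K → (A ⊔ K) ⧸ A.submoduleOf (A ⊔ K)` induced by the
  inclusion is bijective (or `LinearMap.quotientInfEquivSupQuotient`).
* `sup_self`: `K ≤ A ⊔ B` f.g., generators `k_j = a_j + b_j` (`Submodule.mem_sup`); `K' = span {b_j} ≤ B` is f.g. and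
  `A ⊔ K' = A ⊔ K`; ISO1 and `Gr.equiv`.
* `sup`: `A ≼ B`, `A ≼ C`. `left`: `A ⊔ B ≼ C`; `sup_self`: `A ⊔ B ≼ (A ⊔ B) ⊔ C`; `sup_self`: `A ≼ A ⊔ B`;
  `trans`: `A ≼ (A ⊔ B) ⊔ C`; `right`.
* `directed`: a f.g. submodule of a directed union is contained in a member (`Submodule.FG`: finitely many generators,
  `Submodule.mem_iSup_of_directed`). -/

set_option autoImplicit false

open Pool.Agent.H16.UN

namespace Pool.Agent.H19.UR

variable {R : Type} [Ring R] [StarRing R] {M : Type} [AddCommGroup M] [Module R M] {q : ℕ}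
  {A B C : Submodule R M}

omit [StarRing R] in
private theorem leB_iso {K L : Submodule R M} (hKL : K ≤ L) (hL : L ≤ A ⊔ K) :
    Nonempty ((K ⧸ A.submoduleOf K) ≃ₗ[R] (L ⧸ A.submoduleOf L)) := by
  have h1 : A.submoduleOf K ≤ (A.submoduleOf L).comap (Submodule.inclusion hKL) := fun x hx => hx
  refine ⟨LinearEquiv.ofBijective (Submodule.mapQ _ _ (Submodule.inclusion hKL) h1) ⟨?_, ?_⟩⟩
  · rw [injective_iff_map_eq_zero]
    intro x hx
    obtain ⟨x, rfl⟩ := Submodule.Quotient.mk_surjective _ x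
    rw [Submodule.mapQ_apply, Submodule.Quotient.mk_eq_zero] at hx
    rw [Submodule.Quotient.mk_eq_zero]
    exact hx
  · intro y
    obtain ⟨y, rfl⟩ := Submodule.Quotient.mk_surjective _ y
    obtain ⟨a, ha, k, hk, hak⟩ := Submodule.mem_sup.1 (hL y.2)
    refine ⟨Submodule.Quotient.mk ⟨k, hk⟩, ?_⟩
    rw [Submodule.mapQ_apply, Submodule.Quotient.eq]
    show k - (y : M) ∈ A
    rw [← hak, show k - (a + k) = -a by abel]
    exact A.neg_mem ha

omit [StarRing R] in
private theorem leB_iso' {K K' : Submodule R M} (h : A ⊔ K = A ⊔ K') :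
    Nonempty ((K ⧸ A.submoduleOf K) ≃ₗ[R] (K' ⧸ A.submoduleOf K')) := by
  obtain ⟨e⟩ := leB_iso (A := A) (K := K) (L := A ⊔ K) le_sup_right le_rfl
  obtain ⟨e'⟩ := leB_iso (A := A) (K := K') (L := A ⊔ K) (h ▸ le_sup_right) h.le
  exact ⟨e.trans e'.symm⟩

theorem Le.sup_self (h : Le q A B) : Le q A (A ⊔ B) := by
  intro K hK hKB
  obtain ⟨s, rfl⟩ := hK
  have h1 : ∀ x : s, ∃ b ∈ B, (x : M) - b ∈ A := by
    intro x
    obtain ⟨a, ha, b, hb, hab⟩ := Submodule.mem_sup.1 (hKB (Submodule.subset_span x.2))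
    exact ⟨b, hb, by rw [← hab, add_sub_cancel_right]; exact ha⟩
  choose b hb hab using h1
  have h2 : Submodule.span R (Set.range b) ≤ B := Submodule.span_le.2 (by
    rintro _ ⟨x, rfl⟩
    exact hb x)
  have h3 : (Submodule.span R (Set.range b)).FG := Submodule.fg_span (Set.finite_range b)
  have h4 : A ⊔ Submodule.span R (Set.range b) = A ⊔ Submodule.span R (s : Set M) := by
    apply le_antisymm
    · refine sup_le le_sup_left (Submodule.span_le.2 ?_)
      rintro _ ⟨x, rfl⟩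
      have e : b x = -((x : M) - b x) + x := by abel
      rw [e]
      exact Submodule.add_mem_sup (A.neg_mem (hab x)) (Submodule.subset_span x.2)
    · refine sup_le le_sup_left (Submodule.span_le.2 ?_)
      intro x hx
      have e : x = (x - b ⟨x, hx⟩) + b ⟨x, hx⟩ := by abel
      rw [e]
      exact Submodule.add_mem_sup (hab ⟨x, hx⟩) (Submodule.subset_span ⟨_, rfl⟩)
  obtain ⟨e⟩ := leB_iso' h4
  exact (h _ h3 h2).equiv e

theorem Le.sup [IsNoetherianRing R] (h : Le q A B) (h' : Le q A C) : Le q A (B ⊔ C) := by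
  have h1 : Le q (A ⊔ B) C := Le.left le_sup_left h'
  have h2 : Le q (A ⊔ B) ((A ⊔ B) ⊔ C) := h1.sup_self
  have h3 : Le q A (A ⊔ B) := h.sup_self
  have h4 : Le q A ((A ⊔ B) ⊔ C) := Le.trans le_sup_left h3 h2
  exact Le.right (sup_le (le_sup_right.trans le_sup_left) le_sup_right) h4

theorem Le.directed {κ : Type} [Nonempty κ] (B : κ → Submodule R M) (hB : Directed (· ≤ ·) B)
    (h : ∀ k, Le q A (B k)) : Le q A (⨆ k, B k) := by
  intro K hK hKB
  obtain ⟨s, hs⟩ := hK
  have h1 : ∀ t : Finset M, (∀ x ∈ t, x ∈ ⨆ k, B k) → ∃ k, ∀ x ∈ t, x ∈ B k := by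
    intro t
    classical
    induction t using Finset.induction_on with
    | empty => exact fun _ => ⟨Classical.arbitrary κ, fun x hx => absurd hx (Finset.notMem_empty x)⟩
    | insert a t _ ih =>
      intro ht
      obtain ⟨k, hk⟩ := ih fun x hx => ht x (Finset.mem_insert_of_mem hx)
      obtain ⟨l, hl⟩ := (Submodule.mem_iSup_of_directed B hB).1 (ht a (Finset.mem_insert_self a t))
      obtain ⟨m, hkm, hlm⟩ := hB k l
      refine ⟨m, fun x hx => ?_⟩
      rcases Finset.mem_insert.1 hx with rfl | hx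
      · exact hlm hl
      · exact hkm (hk x hx)
  obtain ⟨k, hk⟩ := h1 s fun x hx => hKB (hs ▸ Submodule.subset_span hx)
  exact h k K ⟨s, hs⟩ (hs ▸ Submodule.span_le.2 hk)

end Pool.Agent.H19.UR
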