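import Pool.Agent.H19.UR.LeB

/-!
# Module LeC: calculus of `Le`, part 3 (images, preimages, twists, passage to modules)

* ISO2 (private): for `f : M →ₗ M'`, `A' ≤ M'`, `K ≤ M`:
  `K ⧸ (A'.comap f).submoduleOf K ≃ₗ (K.map f) ⧸ A'.submoduleOf (K.map f)`: the map `K → (K.map f) ⧸ ..` is onto with
  kernel `(A'.comap f).submoduleOf K` (`LinearMap.quotKerEquivOfSurjective`, `Submodule.quotEquivOfEq`).
* `map`: `K' ≤ B.map f` f.g.: lift generators to `B`: `K' = K.map f`, `K ≤ B` f.g.; ISO2 and `Gr.equiv`.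
* `comap`: `K ≤ B'.comap f` f.g., then `K.map f ≤ B'` f.g.; ISO2 backwards.
* `twist`: `K' ≤ B'` f.g.; `K = e⁻¹ K'` is an `R`-submodule (`e (r x) = τ r e x`, `e.symm (r y) = τ⁻¹ r e.symm y`), f.g.
  and `≤ B`; `Gr.twist` for the additive bijection `K ⧸ A.submoduleOf K → K' ⧸ A'.submoduleOf K'` induced by `e`.
* `gr`: `⊥.submoduleOf K = ⊥`, `K ⧸ ⊥ ≃ₗ K` (`Submodule.quotEquivOfEqBot`).
* `quot`: `Le q A B`, `B` f.g.: take `K = B`.
* `zero`: f.g. modules have grade `≥ 0` (`Gr.of_zero`; quotients of f.g. modules are f.g.). -/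

set_option autoImplicit false

open Pool.Agent.H16.UN

namespace Pool.Agent.H19.UR

variable {R : Type} [Ring R] [StarRing R] {M M' : Type} [AddCommGroup M] [Module R M]
  [AddCommGroup M'] [Module R M'] {q : ℕ}

omit [StarRing R] in
private theorem leC_iso (f : M →ₗ[R] M') (A' : Submodule R M') (K : Submodule R M) :
    Nonempty ((K ⧸ (A'.comap f).submoduleOf K) ≃ₗ[R] (K.map f ⧸ A'.submoduleOf (K.map f))) := by
  have h1 : (A'.comap f).submoduleOf K ≤ (A'.submoduleOf (K.map f)).comap (f.submoduleMap K) :=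
    fun x hx => hx
  refine ⟨LinearEquiv.ofBijective (Submodule.mapQ _ _ (f.submoduleMap K) h1) ⟨?_, ?_⟩⟩
  · rw [injective_iff_map_eq_zero]
    intro x hx
    obtain ⟨x, rfl⟩ := Submodule.Quotient.mk_surjective _ x
    rw [Submodule.mapQ_apply, Submodule.Quotient.mk_eq_zero] at hx
    rw [Submodule.Quotient.mk_eq_zero]
    exact hx
  · intro y
    obtain ⟨y, rfl⟩ := Submodule.Quotient.mk_surjective _ y
    obtain ⟨x, rfl⟩ := f.submoduleMap_surjective K y
    exact ⟨Submodule.Quotient.mk x, by rw [Submodule.mapQ_apply]⟩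

theorem Le.map (f : M →ₗ[R] M') {A' : Submodule R M'} {B : Submodule R M}
    (h : Le q (A'.comap f) B) : Le q A' (B.map f) := by
  intro K hK hKB
  obtain ⟨s, rfl⟩ := hK
  have h1 : ∀ x : s, ∃ b ∈ B, f b = x := fun x => hKB (Submodule.subset_span x.2)
  choose b hb hbx using h1
  have h2 : Submodule.span R (Set.range b) ≤ B := Submodule.span_le.2 (by
    rintro _ ⟨x, rfl⟩
    exact hb x)
  have h3 : (Submodule.span R (Set.range b)).FG := Submodule.fg_span (Set.finite_range b)
  have h4 : (Submodule.span R (Set.range b)).map f = Submodule.span R (s : Set M') := by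
    rw [Submodule.map_span, ← Set.range_comp]
    congr 1
    ext y
    constructor
    · rintro ⟨x, rfl⟩
      show f (b x) ∈ (s : Set M')
      rw [hbx x]
      exact x.2
    · intro hy
      exact ⟨⟨y, hy⟩, hbx ⟨y, hy⟩⟩
  obtain ⟨e⟩ := leC_iso f A' (Submodule.span R (Set.range b))
  rw [← h4]
  exact (h _ h3 h2).equiv e

theorem Le.comap (f : M →ₗ[R] M') {A' B' : Submodule R M'} (h : Le q A' B') :
    Le q (A'.comap f) (B'.comap f) := by
  intro K hK hKB
  obtain ⟨e⟩ := leC_iso f A' K
  exact (h _ (hK.map f) (Submodule.map_le_iff_le_comap.2 hKB)).equiv e.symm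

theorem Le.twist (τ : R ≃+* R) (hτ : ∀ r, τ (star r) = star (τ r)) (e : M ≃+ M')
    (he : ∀ (r : R) (x : M), e (r • x) = τ r • e x) {A B : Submodule R M} {A' B' : Submodule R M'}
    (hA : ∀ x, e x ∈ A' ↔ x ∈ A) (hB : ∀ x, e x ∈ B' ↔ x ∈ B) (h : Le q A B) : Le q A' B' := by
  intro K' hK' hKB
  obtain ⟨s, hs⟩ := hK'
  have he' : ∀ (r : R) (y : M'), e.symm (r • y) = τ.symm r • e.symm y := by
    intro r y
    apply e.injective
    rw [he, e.apply_symm_apply, e.apply_symm_apply, τ.apply_symm_apply]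
  have h1 : ∀ y ∈ K', e.symm y ∈ Submodule.span R (e.symm '' (s : Set M')) := by
    intro y hy
    rw [← hs] at hy
    induction hy using Submodule.span_induction with
    | mem x hx => exact Submodule.subset_span ⟨x, hx, rfl⟩
    | zero => rw [map_zero]; exact Submodule.zero_mem _
    | add x y _ _ hx hy => rw [map_add]; exact Submodule.add_mem _ hx hy
    | smul r x _ hx => rw [he']; exact Submodule.smul_mem _ _ hx
  have h2 : ∀ x ∈ Submodule.span R (e.symm '' (s : Set M')), e x ∈ K' := by
    intro x hx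
    induction hx using Submodule.span_induction with
    | mem x hx =>
      obtain ⟨y, hy, rfl⟩ := hx
      rw [e.apply_symm_apply, ← hs]
      exact Submodule.subset_span hy
    | zero => rw [map_zero]; exact Submodule.zero_mem _
    | add x y _ _ hx hy => rw [map_add]; exact Submodule.add_mem _ hx hy
    | smul r x _ hx => rw [he]; exact Submodule.smul_mem _ _ hx
  set K : Submodule R M := Submodule.span R (e.symm '' (s : Set M')) with hKdef
  have h3 : K.FG := Submodule.fg_span (s.finite_toSet.image _)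
  have h4 : K ≤ B := fun x hx => (hB x).1 (hKB (h2 x hx))
  let g : K →+ (K' ⧸ A'.submoduleOf K') :=
    { toFun := fun x => Submodule.Quotient.mk ⟨e x, h2 x x.2⟩
      map_zero' := by
        rw [Submodule.Quotient.mk_eq_zero]
        show e ((0 : K) : M) ∈ A'
        rw [ZeroMemClass.coe_zero, map_zero]
        exact A'.zero_mem
      map_add' := by
        intro x y
        rw [← Submodule.Quotient.mk_add, Submodule.Quotient.eq]
        show e ((x + y : K) : M) - (e x + e y) ∈ A'
        rw [Submodule.coe_add, map_add, sub_self]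
        exact A'.zero_mem }
  have g1 : ∀ x : K, g x = Submodule.Quotient.mk ⟨e x, h2 x x.2⟩ := fun x => rfl
  have g2 : ∀ x : K, x ∈ (A.submoduleOf K).toAddSubgroup → g x = 0 := by
    intro x hx
    rw [g1, Submodule.Quotient.mk_eq_zero]
    exact (hA x).2 hx
  let G : (K ⧸ A.submoduleOf K) →+ (K' ⧸ A'.submoduleOf K') :=
    QuotientAddGroup.lift (A.submoduleOf K).toAddSubgroup g g2
  have G1 : ∀ x : K, G (Submodule.Quotient.mk x) = g x := fun x => rfl
  have hG : Function.Bijective G := by
    constructor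
    · rw [injective_iff_map_eq_zero]
      intro x hx
      obtain ⟨x, rfl⟩ := Submodule.Quotient.mk_surjective _ x
      rw [G1, g1, Submodule.Quotient.mk_eq_zero] at hx
      rw [Submodule.Quotient.mk_eq_zero]
      exact (hA x).1 hx
    · intro y
      obtain ⟨y, rfl⟩ := Submodule.Quotient.mk_surjective _ y
      refine ⟨Submodule.Quotient.mk ⟨e.symm y, h1 y y.2⟩, ?_⟩
      rw [G1, g1, Submodule.Quotient.eq]
      show e (e.symm y) - y ∈ A'
      rw [e.apply_symm_apply, sub_self]
      exact A'.zero_mem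
  refine Gr.twist (h K h3 h4) τ hτ (AddEquiv.ofBijective G hG) ?_
  intro r x
  obtain ⟨x, rfl⟩ := Submodule.Quotient.mk_surjective _ x
  show G (Submodule.Quotient.mk (r • x)) = τ r • G (Submodule.Quotient.mk x)
  rw [G1, G1, g1, g1, ← Submodule.Quotient.mk_smul, Submodule.Quotient.eq]
  show e ((r • x : K) : M) - τ r • e x ∈ A'
  rw [Submodule.coe_smul, he, sub_self]
  exact A'.zero_mem

theorem Le.gr {B K : Submodule R M} (h : Le q ⊥ B) (hK : K.FG) (hKB : K ≤ B) : Gr R q K := by
  refine (h K hK hKB).equiv (Submodule.quotEquivOfEqBot _ ?_)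
  rw [eq_bot_iff]
  intro x hx
  have h1 : (x : M) = 0 := hx
  exact (Submodule.mem_bot R).2 (Subtype.ext h1)

theorem Le.quot {A B : Submodule R M} (h : Le q A B) (hB : B.FG) : Gr R q (B ⧸ A.submoduleOf B) :=
  h B hB le_rfl

theorem Le.zero {d : ℤ} (hR : Aus R d) (A B : Submodule R M) : Le 0 A B := by
  intro K hK _
  have : Module.Finite R K := Module.Finite.iff_fg.2 hK
  exact Gr.of_zero hR

end Pool.Agent.H19.UR
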