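import Pool.Agent.H19.UR.Lau

/-!
# Module Noe: Hilbert's basis theorem for skew Laurent extensions

`J` a left ideal of `S`. For `k : ℕ` let `F_k = {s | co n s = 0 unless 0 ≤ n ≤ k}`; it is an `R`-submodule of `S`
(`Lau.co_i_mul`), finitely generated: by `t^n` (as left module: `t^n i c = i (σ^n c) t^n = (σ^n c) • t^n`,
`Lau.comm_zpow`), so it and its submodules are noetherian.
`L_k = {co k s | s ∈ J, s ∈ F_k}` is a left ideal of `R`: `co k (i r * s) = σ^(-k)(r) * co k s` and `σ^(-k)` is onto.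
`L_k ≤ L_(k+1)` (multiply by `t`, `Lau.co_t_mul`). `R` noetherian: `L_k = L_N` for `k ≥ N`
(`monotone_stabilizes_iff_noetherian`). Let `J'` be the left ideal of `S` generated by a finite set of generators of
the `R`-module `J ∩ F_N`. Claim: `J ∩ F_k ≤ J'` for all `k`, induction on `k`: clear for `k ≤ N` (`F_k ≤ F_N`); for
`k + 1 > N`, `s ∈ J ∩ F_(k+1)`: there is `s' ∈ J ∩ F_N` with `co N s' = co (k+1) s`; `s'' = t^(k+1-N) s' ∈ J'` has the
same coefficient at `k+1` and lies in `F_(k+1)`; `s - s'' ∈ J ∩ F_k` (its coefficient at `k+1` vanishes).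
For `s ∈ J` there is `m` with `t^m s ∈ F_k` for some `k` (finite support), so `s = t^(-m) (t^m s) ∈ J'`.
So `J = J'` is finitely generated (`isNoetherian_def`; left ideals = `Submodule S S`). -/

set_option autoImplicit false

open Pool.Agent.H16.UN

namespace Pool.Agent.H19.UR

section Noe

variable {R S : Type} [Ring R] [StarRing R] [Ring S] [StarRing S] [Module R S] (𝓛 : Lau R S)

/-- elements with coefficients in degrees `0, .., k` -/
private def Noe_F (k : ℕ) : Submodule R S where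
  carrier := {s | ∀ n : ℤ, ¬ (0 ≤ n ∧ n ≤ k) → 𝓛.co n s = 0}
  add_mem' := fun {x y} hx hy n hn => by rw [map_add, hx n hn, hy n hn, add_zero]
  zero_mem' := fun n _ => map_zero _
  smul_mem' := fun r x hx n hn => by rw [𝓛.smul_eq, 𝓛.co_i_mul, hx n hn, mul_zero]

private theorem Noe_F_fg (k : ℕ) : (Noe_F 𝓛 k).FG := by
  classical
  refine ⟨(Finset.range (k + 1)).image (fun n : ℕ => ((𝓛.t ^ (n : ℤ) : Sˣ) : S)),
    le_antisymm (Submodule.span_le.2 ?_) ?_⟩
  · intro x hx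
    rw [Finset.mem_coe, Finset.mem_image] at hx
    obtain ⟨n, hn, rfl⟩ := hx
    have hn' := Finset.mem_range.1 hn
    intro m hm
    have h1 := 𝓛.co_mono (n : ℤ) m 1
    rw [map_one, mul_one] at h1
    rw [h1, if_neg]
    rintro rfl
    exact hm ⟨by omega, by omega⟩
  · intro s hs
    rw [𝓛.expand s]
    refine Submodule.sum_mem _ fun n hn => ?_
    have hn1 : 𝓛.co n s ≠ 0 := by
      rw [Set.Finite.mem_toFinset] at hn
      exact hn
    have hn2 : 0 ≤ n ∧ n ≤ k := by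
      by_contra h
      exact hn1 (hs n h)
    rw [𝓛.comm_zpow, ← 𝓛.smul_eq]
    refine Submodule.smul_mem _ _ (Submodule.subset_span ?_)
    rw [Finset.mem_coe, Finset.mem_image]
    refine ⟨n.toNat, Finset.mem_range.2 (by omega), ?_⟩
    rw [Int.toNat_of_nonneg hn2.1]

/-- a left ideal of `S` as `R`-module -/
private def Noe_J (J : Submodule S S) : Submodule R S where
  carrier := {s | s ∈ J}
  add_mem' := fun hx hy => J.add_mem hx hy
  zero_mem' := J.zero_mem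
  smul_mem' := fun r x hx => by
    show r • x ∈ J
    rw [𝓛.smul_eq]
    exact J.smul_mem (𝓛.i r) hx

/-- the left ideal of leading coefficients -/
private def Noe_L (J : Submodule S S) (k : ℕ) : Submodule R R where
  carrier := {c | ∃ s ∈ J, s ∈ Noe_F 𝓛 k ∧ 𝓛.co k s = c}
  add_mem' := by
    rintro _ _ ⟨s, h1, h2, rfl⟩ ⟨s', h3, h4, rfl⟩
    exact ⟨s + s', J.add_mem h1 h3, (Noe_F 𝓛 k).add_mem h2 h4, map_add _ _ _⟩
  zero_mem' := ⟨0, J.zero_mem, (Noe_F 𝓛 k).zero_mem, map_zero _⟩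
  smul_mem' := by
    rintro r _ ⟨s, h1, h2, rfl⟩
    refine ⟨𝓛.i ((𝓛.σ ^ (k : ℤ)) r) * s, J.smul_mem _ h1, ?_, ?_⟩
    · rw [← 𝓛.smul_eq]
      exact (Noe_F 𝓛 k).smul_mem _ h2
    · rw [𝓛.co_i_mul, smul_eq_mul]
      congr 1
      rw [← RingAut.mul_apply, ← zpow_add, neg_add_cancel, zpow_zero]
      rfl

private theorem Noe_shift {k m : ℕ} {s : S} (hs : s ∈ Noe_F 𝓛 k) :
    ((𝓛.t ^ (m : ℤ) : Sˣ) : S) * s ∈ Noe_F 𝓛 (k + m) := by
  intro n hn
  rw [𝓛.co_t_mul]
  refine hs _ fun h => hn ?_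
  push_cast
  omega

private theorem Noe_L_mono (J : Submodule S S) : Monotone (Noe_L 𝓛 J) := by
  refine monotone_nat_of_le_succ fun k => ?_
  rintro _ ⟨s, h1, h2, rfl⟩
  refine ⟨((𝓛.t ^ ((1 : ℕ) : ℤ) : Sˣ) : S) * s, J.smul_mem _ h1, Noe_shift 𝓛 h2, ?_⟩
  rw [𝓛.co_t_mul]
  congr 2
  push_cast
  ring

include 𝓛 in
private theorem Noe_fg (h : IsNoetherianRing R) (J : Submodule S S) : J.FG := by
  classical
  obtain ⟨N, hN⟩ := monotone_stabilizes_iff_noetherian.2 h ⟨Noe_L 𝓛 J, Noe_L_mono 𝓛 J⟩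
  have hN' : ∀ k, N ≤ k → Noe_L 𝓛 J N = Noe_L 𝓛 J k := hN
  have h1 : IsNoetherian R (Noe_F 𝓛 N) := isNoetherian_of_fg_of_noetherian _ (Noe_F_fg 𝓛 N)
  have h2 : (Noe_J 𝓛 J ⊓ Noe_F 𝓛 N).FG := isNoetherian_submodule.1 h1 _ inf_le_right
  obtain ⟨G, hG⟩ := h2
  have hGJ : ∀ x ∈ G, x ∈ J := fun x hx => by
    have h3 : x ∈ Submodule.span R (G : Set S) := Submodule.subset_span hx
    rw [hG] at h3
    exact h3.1
  have hsp : ∀ x ∈ Submodule.span R (G : Set S), x ∈ Submodule.span S (G : Set S) := by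
    intro x hx
    induction hx using Submodule.span_induction with
    | mem x hx => exact Submodule.subset_span hx
    | zero => exact Submodule.zero_mem _
    | add x y _ _ hx hy => exact Submodule.add_mem _ hx hy
    | smul r x _ hx =>
      rw [𝓛.smul_eq]
      exact Submodule.smul_mem _ (𝓛.i r) hx
  have hmem : ∀ k : ℕ, k ≤ N → ∀ s ∈ J, s ∈ Noe_F 𝓛 k → s ∈ Submodule.span S (G : Set S) := by
    intro k hk s hs hs'
    refine hsp s ?_
    rw [hG]
    refine ⟨hs, fun n hn => hs' n fun h3 => hn ?_⟩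
    omega
  have key : ∀ k : ℕ, ∀ s ∈ J, s ∈ Noe_F 𝓛 k → s ∈ Submodule.span S (G : Set S) := by
    intro k
    induction k with
    | zero => exact hmem 0 (Nat.zero_le _)
    | succ k ih =>
      intro s hs hs'
      rcases Nat.lt_or_ge N (k + 1) with hk | hk
      · have h3 : 𝓛.co ((k + 1 : ℕ) : ℤ) s ∈ Noe_L 𝓛 J (k + 1) := ⟨s, hs, hs', rfl⟩
        rw [← hN' (k + 1) hk.le] at h3
        obtain ⟨s', h4, h5, h6⟩ := h3
        obtain ⟨m, hm⟩ : ∃ m : ℕ, k + 1 = N + m := ⟨k + 1 - N, by omega⟩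
        have h7 : ((𝓛.t ^ (m : ℤ) : Sˣ) : S) * s' ∈ Submodule.span S (G : Set S) :=
          Submodule.smul_mem _ _ (hmem N le_rfl s' h4 h5)
        have h8 : ((𝓛.t ^ (m : ℤ) : Sˣ) : S) * s' ∈ J := J.smul_mem _ h4
        have h9 : ((𝓛.t ^ (m : ℤ) : Sˣ) : S) * s' ∈ Noe_F 𝓛 (k + 1) := by
          rw [hm]
          exact Noe_shift 𝓛 h5
        have h10 : s - ((𝓛.t ^ (m : ℤ) : Sˣ) : S) * s' ∈ Noe_F 𝓛 k := by
          intro n hn
          rcases eq_or_ne n ((k + 1 : ℕ) : ℤ) with rfl | hne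
          · rw [map_sub, 𝓛.co_t_mul, ← h6, sub_eq_zero]
            congr 2
            omega
          · have h11 : ¬ (0 ≤ n ∧ n ≤ ((k + 1 : ℕ) : ℤ)) := fun h12 => hn (by
              push_cast at h12 hne ⊢
              omega)
            rw [map_sub, hs' n h11, h9 n h11, sub_zero]
        have h12 := ih _ (J.sub_mem hs h8) h10
        have h13 := Submodule.add_mem _ h12 h7
        rwa [sub_add_cancel] at h13
      · exact hmem (k + 1) hk s hs hs'
  refine ⟨G, le_antisymm (Submodule.span_le.2 fun x hx => hGJ x hx) fun s hs => ?_⟩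
  have hb : ∃ m : ℕ, ∀ n : ℤ, 𝓛.co n s ≠ 0 → n.natAbs ≤ m := by
    refine ⟨(𝓛.fin s).toFinset.sup Int.natAbs, fun n hn => ?_⟩
    have h3 : n ∈ (𝓛.fin s).toFinset := by
      rw [Set.Finite.mem_toFinset]
      exact hn
    exact Finset.le_sup (f := Int.natAbs) h3
  obtain ⟨m, hm⟩ := hb
  have h3 : ((𝓛.t ^ (m : ℤ) : Sˣ) : S) * s ∈ Noe_F 𝓛 (2 * m) := by
    intro n hn
    rw [𝓛.co_t_mul]
    by_contra h4
    have h5 := hm _ h4
    apply hn
    push_cast
    omega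
  have h4 := Submodule.smul_mem _ ((𝓛.t ^ (-(m : ℤ)) : Sˣ) : S) (key _ _ (J.smul_mem _ hs) h3)
  rw [smul_eq_mul, smul_eq_mul, ← mul_assoc, ← Units.val_mul, ← zpow_add, neg_add_cancel, zpow_zero,
    Units.val_one, one_mul] at h4
  exact h4

end Noe

theorem Lau.noeth {R S : Type} [Ring R] [StarRing R] [Ring S] [StarRing S] [Module R S] (𝓛 : Lau R S)
    (h : IsNoetherianRing R) : IsNoetherianRing S := by
  exact isNoetherian_def.2 (Noe_fg 𝓛 h)

end Pool.Agent.H19.UR
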