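import Pool.Agent.H19.UR.Lau
import Pool.Agent.H19.UR.LeC

/-!
# Module Sh: the translates `t^n A` of an `R`-submodule of an `S`-module

`M` is an `S`-module, regarded as an `R`-module (`[Module R M] [IsScalarTower R S M]`); `𝓛.i r • x = r • x` (`i_smul`:
`r • x = r • ((1 : S) • x) = (r • (1 : S)) • x = (𝓛.i r * 1) • x`). `t^n (r x) = σ^n(r) t^n x` (`zpow_smul`, from
`Lau.comm_zpow`). -/

set_option autoImplicit false

open Pool.Agent.H16.UN

namespace Pool.Agent.H19.UR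

variable {R S : Type} [Ring R] [StarRing R] [Ring S] [StarRing S] [Module R S] (𝓛 : Lau R S)
  {M : Type} [AddCommGroup M] [Module R M] [Module S M] [IsScalarTower R S M]

theorem Lau.i_smul (r : R) (x : M) : 𝓛.i r • x = r • x := by
  have h : (r • (1 : S)) • x = r • ((1 : S) • x) := smul_assoc r (1 : S) x
  rw [𝓛.smul_eq, mul_one, one_smul] at h
  exact h

theorem Lau.zpow_smul (n : ℤ) (r : R) (x : M) :
    ((𝓛.t ^ n : Sˣ) : S) • (r • x) = (𝓛.σ ^ n) r • (((𝓛.t ^ n : Sˣ) : S) • x) := by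
  rw [← 𝓛.i_smul r x, ← 𝓛.i_smul, smul_smul, smul_smul, 𝓛.comm_zpow]

/-- `t^n A` -/
def sh (n : ℤ) (A : Submodule R M) : Submodule R M where
  carrier := {x | ((𝓛.t ^ (-n) : Sˣ) : S) • x ∈ A}
  add_mem' := fun {x y} hx hy => by
    show ((𝓛.t ^ (-n) : Sˣ) : S) • (x + y) ∈ A
    rw [smul_add]
    exact A.add_mem hx hy
  zero_mem' := by
    show ((𝓛.t ^ (-n) : Sˣ) : S) • (0 : M) ∈ A
    rw [smul_zero]
    exact A.zero_mem
  smul_mem' := fun r x hx => by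
    show ((𝓛.t ^ (-n) : Sˣ) : S) • (r • x) ∈ A
    rw [𝓛.zpow_smul]
    exact A.smul_mem _ hx

theorem mem_sh {n : ℤ} {A : Submodule R M} {x : M} :
    x ∈ sh 𝓛 n A ↔ ((𝓛.t ^ (-n) : Sˣ) : S) • x ∈ A := Iff.rfl

/-- the sum of the translates `t^n A`, `a ≤ n ≤ b` -/
def win (a b : ℤ) (A : Submodule R M) : Submodule R M := ⨆ (n : ℤ) (_ : a ≤ n ∧ n ≤ b), sh 𝓛 n A

omit [Module R M] [IsScalarTower R S M] in
private theorem Sh_can (n : ℤ) (x : M) :
    ((𝓛.t ^ (-n) : Sˣ) : S) • (((𝓛.t ^ n : Sˣ) : S) • x) = x := by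
  rw [smul_smul, ← Units.val_mul, ← zpow_add, neg_add_cancel, zpow_zero, Units.val_one, one_smul]

omit [Module R M] [IsScalarTower R S M] in
private theorem Sh_can' (n : ℤ) (x : M) :
    ((𝓛.t ^ n : Sˣ) : S) • (((𝓛.t ^ (-n) : Sˣ) : S) • x) = x := by
  rw [smul_smul, ← Units.val_mul, ← zpow_add, add_neg_cancel, zpow_zero, Units.val_one, one_smul]

private theorem Sh_inv_star (r : R) : 𝓛.σ⁻¹ (star r) = star (𝓛.σ⁻¹ r) := by
  apply 𝓛.σ.injective
  have h1 : 𝓛.σ (𝓛.σ⁻¹ (star r)) = star r := 𝓛.σ.apply_symm_apply _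
  have h2 : 𝓛.σ (𝓛.σ⁻¹ r) = r := 𝓛.σ.apply_symm_apply _
  rw [h1, 𝓛.star_σ, h2]

private theorem Sh_star (n : ℤ) (r : R) : (𝓛.σ ^ n) (star r) = star ((𝓛.σ ^ n) r) := by
  induction n using Int.induction_on generalizing r with
  | zero => simp
  | succ k ih =>
    rw [zpow_add_one, RingAut.mul_apply, RingAut.mul_apply, 𝓛.star_σ, ih]
  | pred k ih =>
    rw [zpow_sub_one, RingAut.mul_apply, RingAut.mul_apply, Sh_inv_star, ih]

/-- multiplication by `t^n` -/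
private def Sh_e (M : Type) [AddCommGroup M] [Module S M] (n : ℤ) : M ≃+ M where
  toFun x := ((𝓛.t ^ n : Sˣ) : S) • x
  invFun x := ((𝓛.t ^ (-n) : Sˣ) : S) • x
  left_inv x := by
    show ((𝓛.t ^ (-n) : Sˣ) : S) • (((𝓛.t ^ n : Sˣ) : S) • x) = x
    rw [smul_smul, ← Units.val_mul, ← zpow_add, neg_add_cancel, zpow_zero, Units.val_one, one_smul]
  right_inv x := by
    show ((𝓛.t ^ n : Sˣ) : S) • (((𝓛.t ^ (-n) : Sˣ) : S) • x) = x
    rw [smul_smul, ← Units.val_mul, ← zpow_add, add_neg_cancel, zpow_zero, Units.val_one, one_smul]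
  map_add' x y := smul_add _ _ _

theorem sh_sh (m n : ℤ) (A : Submodule R M) : sh 𝓛 m (sh 𝓛 n A) = sh 𝓛 (m + n) A := by
  ext x
  rw [mem_sh, mem_sh, mem_sh, smul_smul, ← Units.val_mul, ← zpow_add, neg_add, add_comm (-m)]

theorem sh_zero (A : Submodule R M) : sh 𝓛 0 A = A := by
  ext x
  rw [mem_sh, neg_zero, zpow_zero, Units.val_one, one_smul]

theorem sh_mono (n : ℤ) {A B : Submodule R M} (h : A ≤ B) : sh 𝓛 n A ≤ sh 𝓛 n B := by
  exact fun x hx => h hx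

theorem sh_inf (n : ℤ) (A B : Submodule R M) : sh 𝓛 n (A ⊓ B) = sh 𝓛 n A ⊓ sh 𝓛 n B := by
  rfl

/-- translates commute with arbitrary suprema: `sh n` is an order isomorphism with inverse `sh (-n)` -/
theorem sh_iSup (n : ℤ) {κ : Sort*} (A : κ → Submodule R M) :
    sh 𝓛 n (⨆ k, A k) = ⨆ k, sh 𝓛 n (A k) := by
  refine le_antisymm ?_ (iSup_le fun k => sh_mono 𝓛 n (le_iSup A k))
  have h1 : ⨆ k, A k ≤ sh 𝓛 (-n) (⨆ k, sh 𝓛 n (A k)) := by
    refine iSup_le fun k => ?_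
    have h2 := sh_mono 𝓛 (-n) (le_iSup (fun k => sh 𝓛 n (A k)) k)
    rw [sh_sh, neg_add_cancel, sh_zero] at h2
    exact h2
  have h3 := sh_mono 𝓛 n h1
  rw [sh_sh, add_neg_cancel, sh_zero] at h3
  exact h3

theorem sh_sup (n : ℤ) (A B : Submodule R M) : sh 𝓛 n (A ⊔ B) = sh 𝓛 n A ⊔ sh 𝓛 n B := by
  refine le_antisymm ?_ (sup_le (sh_mono 𝓛 n le_sup_left) (sh_mono 𝓛 n le_sup_right))
  have h1 : A ⊔ B ≤ sh 𝓛 (-n) (sh 𝓛 n A ⊔ sh 𝓛 n B) := by
    refine sup_le ?_ ?_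
    · have h2 := sh_mono 𝓛 (-n) (le_sup_left : sh 𝓛 n A ≤ sh 𝓛 n A ⊔ sh 𝓛 n B)
      rw [sh_sh, neg_add_cancel, sh_zero] at h2
      exact h2
    · have h2 := sh_mono 𝓛 (-n) (le_sup_right : sh 𝓛 n B ≤ sh 𝓛 n A ⊔ sh 𝓛 n B)
      rw [sh_sh, neg_add_cancel, sh_zero] at h2
      exact h2
  have h3 := sh_mono 𝓛 n h1
  rw [sh_sh, add_neg_cancel, sh_zero] at h3
  exact h3

/-- if `A` is spanned by `x_j`, `t^n A` is spanned by `t^n x_j` -/
theorem sh_fg (n : ℤ) {A : Submodule R M} (h : A.FG) : (sh 𝓛 n A).FG := by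
  classical
  obtain ⟨s, hs⟩ := h
  refine ⟨s.image (fun x => ((𝓛.t ^ n : Sˣ) : S) • x), le_antisymm (Submodule.span_le.2 ?_) ?_⟩
  · intro x hx
    rw [Finset.mem_coe, Finset.mem_image] at hx
    obtain ⟨y, hy, rfl⟩ := hx
    show ((𝓛.t ^ (-n) : Sˣ) : S) • (((𝓛.t ^ n : Sˣ) : S) • y) ∈ A
    rw [Sh_can, ← hs]
    exact Submodule.subset_span hy
  · intro x hx
    rw [mem_sh, ← hs] at hx
    have key : ∀ y ∈ Submodule.span R (s : Set M), ((𝓛.t ^ n : Sˣ) : S) • y ∈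
        Submodule.span R (((s.image (fun x => ((𝓛.t ^ n : Sˣ) : S) • x) : Finset M)) : Set M) := by
      intro y hy
      induction hy using Submodule.span_induction with
      | mem x hx => exact Submodule.subset_span (Finset.mem_coe.2 (Finset.mem_image_of_mem _ hx))
      | zero =>
        rw [smul_zero]
        exact Submodule.zero_mem _
      | add x y _ _ hx hy =>
        rw [smul_add]
        exact Submodule.add_mem _ hx hy
      | smul r x _ hx =>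
        rw [𝓛.zpow_smul]
        exact Submodule.smul_mem _ _ hx
    have h1 := key _ hx
    rw [Sh_can'] at h1
    exact h1

/-- an `S`-submodule is invariant -/
theorem sh_restrict (n : ℤ) (P : Submodule S M) :
    sh 𝓛 n (P.restrictScalars R) = P.restrictScalars R := by
  ext x
  rw [mem_sh]
  constructor
  · intro h
    have h1 : ((𝓛.t ^ n : Sˣ) : S) • (((𝓛.t ^ (-n) : Sˣ) : S) • x) ∈ P := P.smul_mem _ h
    rw [Sh_can'] at h1
    exact h1
  · intro h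
    exact P.smul_mem _ h

/-- `Le.twist` with `τ = σ^n`, `e x = t^n x` -/
theorem Le.sh {q : ℕ} {A B : Submodule R M} (n : ℤ) (h : Le q A B) : Le q (sh 𝓛 n A) (sh 𝓛 n B) := by
  refine Le.twist (𝓛.σ ^ n) (Sh_star 𝓛 n) (Sh_e 𝓛 M n) (fun r x => 𝓛.zpow_smul n r x)
    (fun x => ?_) (fun x => ?_) h
  · rw [mem_sh]
    show ((𝓛.t ^ (-n) : Sˣ) : S) • (((𝓛.t ^ n : Sˣ) : S) • x) ∈ A ↔ x ∈ A
    rw [Sh_can]
  · rw [mem_sh]
    show ((𝓛.t ^ (-n) : Sˣ) : S) • (((𝓛.t ^ n : Sˣ) : S) • x) ∈ B ↔ x ∈ B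
    rw [Sh_can]

end Pool.Agent.H19.UR
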