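import Pool.Agent.H19.UR.GrA
import Pool.Agent.H19.UR.BFin

/-!
# Module StA: the Auslander condition over `S` for `T` (step (4c))

`K ≤ Zc T (q+1)` a finitely generated `S`-submodule. `K̄ = K ⧸ (Bc T (q+1)).submoduleOf K`, an `S`-module, finite over `S`; `K` and `K̄` are
`R`-modules too (`R` acts on `S`-submodules and quotients through `IsScalarTower R S _`; the instances `Submodule.module'`,
`Submodule.Quotient.module'` exist). `ι : K →ₗ[R] W` the inclusion (`K.subtype.restrictScalars R`), `ρ : K →ₗ[R] K̄`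
(`(mkQ _).restrictScalars R`). `V̄ = ((V ⊔ BT).comap ι).map ρ`, `V = D.VT q`, `BT = D.BT q`.
* `V̄.FG` over `R`: the module `(V ⊔ BT) / BT` is f.g. over the noetherian ring `R` (generated by the images of generators of `V`,
  `TD.VT_fg`), and `V̄` embeds in it: for instance let `π = D.BT.mkQ : W → W ⧸ BT`; `V.map π` is f.g., so noetherian; the
  `R`-linear map `K̄ → W ⧸ BT` induced by `ι` is injective (`liftQ`, kernel `= (BT).comap ι = ker ρ`) and sends `V̄` into
  `(V ⊔ BT).map π = V.map π`; a submodule whose image under an injective map lies in a noetherian submodule is f.g.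
* `Le q ⊥ V̄`: `TD.le_VT`, `Le.sup` with `Le.of_le` (`BT ≤ BT`): `Le q BT (V ⊔ BT)`; `Le.comap ι`; `(⊥).comap ρ = BT.comap ι` (ker of
  `mkQ`); `Le.map ρ`.
* `Le (q+1) V̄ ⊤`: `TD.le_ZT`, `Le.comap ι`; `ZT.comap ι = ⊤` (`K ≤ Zc T (q+1)`); `(V ⊔ BT).comap ι ≤ V̄.comap ρ`, `Le.left`, `Le.map ρ`,
  `⊤.map ρ = ⊤` (surjective).
* `gr_of_V 𝓛 hR q V̄`: the claim. (`Le` at level `q + 1` over `S` is the statement for all such `K`.) -/

set_option autoImplicit false

open Matrix Pool.Agent.H16.UN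

namespace Pool.Agent.H19.UR

variable {R S : Type} [Ring R] [StarRing R] [Ring S] [StarRing S] [Module R S] {𝓛 : Lau R S}
  {M : Type} [AddCommGroup M] [Module R M] [Module S M] [IsScalarTower R S M]
  {M₁ N' : Submodule R M} [IsScalarTower R S S]

theorem TD.aus_T {d : ℤ} (hR : Aus R d) (h : GP 𝓛 M₁ N') (D : TD 𝓛 M₁ N') (q : ℕ) :
    Le (q + 1) (Bc D.T ((q : ℤ) + 1)) (Zc D.T ((q : ℤ) + 1)) := by
  intro K hK hKZ
  have := hR.noeth
  have : Module.Finite S K := Module.Finite.iff_fg.2 hK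
  set B : Submodule S K := (Bc D.T ((q : ℤ) + 1)).submoduleOf K with hB
  -- the maps over `R`
  let i₀ : K →ₗ[R] (D.T.ι → S) := K.subtype.restrictScalars R
  let ρ : K →ₗ[R] (K ⧸ B) := B.mkQ.restrictScalars R
  let π : (D.T.ι → S) →ₗ[R] ((D.T.ι → S) ⧸ Bc D.T ((q : ℤ) + 1)) :=
    (Bc D.T ((q : ℤ) + 1)).mkQ.restrictScalars R
  have hρ0 : ∀ x : K, ρ x = 0 ↔ (x : D.T.ι → S) ∈ Bc D.T ((q : ℤ) + 1) := fun x =>
    Submodule.Quotient.mk_eq_zero B
  have hπ0 : ∀ x : D.T.ι → S, π x = 0 ↔ x ∈ Bc D.T ((q : ℤ) + 1) := fun x =>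
    Submodule.Quotient.mk_eq_zero _
  have hρs : Function.Surjective ρ := Submodule.mkQ_surjective B
  let g : (K ⧸ B) →ₗ[R] ((D.T.ι → S) ⧸ Bc D.T ((q : ℤ) + 1)) :=
    (B.mapQ (Bc D.T ((q : ℤ) + 1)) K.subtype (le_refl _)).restrictScalars R
  have hg : ∀ x : K, g (ρ x) = π (i₀ x) := fun x => rfl
  have hgi : Function.Injective g := by
    rw [injective_iff_map_eq_zero]
    intro y hy
    obtain ⟨x, rfl⟩ := hρs y
    rw [hg] at hy
    exact (hρ0 x).2 ((hπ0 _).1 hy)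
  have hbot : (⊥ : Submodule R (K ⧸ B)).comap ρ = (D.BT q).comap i₀ := by
    ext x
    rw [Submodule.mem_comap, Submodule.mem_bot, Submodule.mem_comap, D.mem_BT]
    exact hρ0 x
  have htop : (D.ZT q).comap i₀ = ⊤ := by
    rw [eq_top_iff]
    intro x _
    rw [Submodule.mem_comap, D.mem_ZT]
    exact hKZ x.2
  -- finitely generated
  have hfg : (((D.VT q ⊔ D.BT q).comap i₀).map ρ).FG := by
    refine Submodule.fg_of_fg_map_injective g hgi ?_
    have h1 : ((D.VT q).map π).FG := (D.VT_fg hR q).map π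
    refine (isNoetherian_submodule.1 (isNoetherian_of_fg_of_noetherian _ h1)) _ ?_
    rintro _ ⟨_, ⟨x, hx, rfl⟩, rfl⟩
    rw [hg]
    obtain ⟨v, hv, b, hb, hvb⟩ := Submodule.mem_sup.1 (Submodule.mem_comap.1 hx)
    rw [← hvb, map_add, (hπ0 b).2 (D.mem_BT.1 hb), add_zero]
    exact Submodule.mem_map_of_mem hv
  -- the two relations
  have h1 : Le q ⊥ (((D.VT q ⊔ D.BT q).comap i₀).map ρ) := by
    refine Le.map ρ ?_
    rw [hbot]
    exact Le.comap i₀ ((D.le_VT hR q).sup (Le.of_le q le_rfl))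
  have h2 : Le (q + 1) (((D.VT q ⊔ D.BT q).comap i₀).map ρ) ⊤ := by
    have h3 : (⊤ : Submodule R K).map ρ = ⊤ := by
      rw [Submodule.map_top]
      exact LinearMap.range_eq_top.2 hρs
    rw [← h3]
    refine Le.map ρ (Le.left (Submodule.le_comap_map ρ _) ?_)
    rw [← htop]
    exact Le.comap i₀ (D.le_ZT hR h q)
  exact gr_of_V 𝓛 hR q _ hfg h1 h2

end Pool.Agent.H19.UR
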