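import Pool.Agent.H19.UR.Win

/-!
# Module Stab: the good pair `M₁ ≥ N'`

`M` is a f.g. `S`-module. `M₀ = R`-span of a finite set of `S`-generators. `R` is noetherian, so f.g. `R`-modules are
noetherian. Choose `r : ℕ` such that
(i) `M₀ ⊓ win 1 l M₀ = M₀ ⊓ win 1 r M₀` for `l ≥ r` (ascending chain of submodules of `M₀`),
(ii) `V ⊓ win (-l) (-1) M₀ = V ⊓ win (-r) (-1) M₀` for `l ≥ r` (submodules of `V`);
(stabilisation: `monotone_stabilizes_iff_noetherian` for the chain in `Submodule R M₀`, or: `⨆` of the chain is f.g. and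
hence reached.) Put `M₁ = win 0 r M₀`, `N' = win 1 r M₀`. `r ≥ 1` may be assumed.
* `le`, `le'`: `win 1 r M₀ ≤ win 1 (r+1) M₀ = t M₁` (`win_sh`).
* `sep`: `win 1 l M₁ = win 1 (l+r) M₀` (`win_win`, for `l ≥ 1`; `win 1 0 = ⊥` for `l = 0`) and `M₁ = M₀ ⊔ N'`
  (`win_pred`, `sh_zero`). Modular law (`N' ≤ win 1 (l+r) M₀`): `M₁ ⊓ win 1 (l+r) M₀ = N' ⊔ (M₀ ⊓ win 1 (l+r) M₀) ≤ N'` by (i).
* last claim: `Le q V ⊤`. Let `E_l = win (-l) (-1) M₀`. `t^(-(r+1)) M₁ = E_(r+1)`, `t^(-(r+1)) N' = E_r` (`win_sh`).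
  `Le.right`: `Le q V E_(r+1)`; `Le.inf`: `Le q (V ⊓ E_(r+1)) E_(r+1)`; (ii): `V ⊓ E_(r+1) ≤ E_r`, so `Le.left`:
  `Le q E_r E_(r+1)`; `Le.sh (r+1)`, `sh_sh`, `sh_zero`. -/

set_option autoImplicit false

open Pool.Agent.H16.UN

namespace Pool.Agent.H19.UR

variable {R S : Type} [Ring R] [StarRing R] [Ring S] [StarRing S] [Module R S] (𝓛 : Lau R S)
  {M : Type} [AddCommGroup M] [Module R M] [Module S M] [IsScalarTower R S M]

/-- a good pair of `R`-submodules of the `S`-module `M` -/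
structure GP (M₁ N' : Submodule R M) : Prop where
  fg₁ : M₁.FG
  fg' : N'.FG
  le : N' ≤ M₁
  le' : N' ≤ sh 𝓛 1 M₁
  sep : ∀ l : ℕ, M₁ ⊓ win 𝓛 1 l M₁ ≤ N'
  span : ∀ x, ∃ n : ℕ, x ∈ win 𝓛 (-(n : ℤ)) n M₁

omit [StarRing R] in
/-- an ascending chain of submodules of a noetherian submodule becomes stationary -/
private theorem Stab_chain [IsNoetherianRing R] {N : Submodule R M} (hN : N.FG)
    (f : ℕ → Submodule R M) (hf : Monotone f) (hfN : ∀ l, f l ≤ N) : ∃ r, ∀ l, r ≤ l → f l = f r := by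
  have hn : IsNoetherian R N := isNoetherian_of_fg_of_noetherian N hN
  obtain ⟨r, hr⟩ := monotone_stabilizes_iff_noetherian.2 hn
    ⟨fun l => (f l).comap N.subtype, fun a b hab => Submodule.comap_mono (hf hab)⟩
  refine ⟨r, fun l hl => ?_⟩
  have h1 : (f r).comap N.subtype = (f l).comap N.subtype := hr l hl
  have h2 : ∀ l, ((f l).comap N.subtype).map N.subtype = f l := fun l => by
    rw [Submodule.map_comap_subtype]
    exact inf_eq_right.2 (hfN l)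
  rw [← h2 l, ← h2 r, h1]

theorem exists_GP [IsNoetherianRing R] [Module.Finite S M] (V : Submodule R M) (hV : V.FG) :
    ∃ M₁ N' : Submodule R M, GP 𝓛 M₁ N' ∧ ∀ q : ℕ, Le q V ⊤ → Le q N' M₁ := by
  obtain ⟨s, hs⟩ := (Module.Finite.fg_top : (⊤ : Submodule S M).FG)
  obtain ⟨M₀, hM₀⟩ : ∃ M₀ : Submodule R M, M₀ = Submodule.span R (s : Set M) := ⟨_, rfl⟩
  have hfg : M₀.FG := ⟨s, hM₀.symm⟩
  have hspan : Submodule.span S (M₀ : Set M) = ⊤ := by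
    rw [← top_le_iff, ← hs, hM₀]
    exact Submodule.span_mono Submodule.subset_span
  obtain ⟨r₁, hr₁⟩ := Stab_chain hfg (fun l : ℕ => M₀ ⊓ win 𝓛 1 l M₀)
    (fun a b hab => inf_le_inf le_rfl (win_mono 𝓛 le_rfl (by exact_mod_cast hab) le_rfl))
    fun l => inf_le_left
  obtain ⟨r₂, hr₂⟩ := Stab_chain hV (fun l : ℕ => V ⊓ win 𝓛 (-(l : ℤ)) (-1) M₀)
    (fun a b hab => inf_le_inf le_rfl (win_mono 𝓛 (by
      have : (a : ℤ) ≤ b := by exact_mod_cast hab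
      omega) le_rfl le_rfl))
    fun l => inf_le_left
  obtain ⟨r, hr⟩ : ∃ r : ℕ, r = max r₁ r₂ := ⟨_, rfl⟩
  have hi : ∀ l : ℕ, r ≤ l → M₀ ⊓ win 𝓛 1 l M₀ = M₀ ⊓ win 𝓛 1 r M₀ := fun l hl =>
    (hr₁ l (by omega)).trans (hr₁ r (by omega)).symm
  have hii : V ⊓ win 𝓛 (-((r + 1 : ℕ) : ℤ)) (-1) M₀ = V ⊓ win 𝓛 (-(r : ℤ)) (-1) M₀ :=
    (hr₂ (r + 1) (by omega)).trans (hr₂ r (by omega)).symm
  have hr0 : (0 : ℤ) ≤ r := Int.natCast_nonneg r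
  have h01 : M₀ ≤ win 𝓛 0 r M₀ := by
    have h := sh_le_win 𝓛 (le_refl (0 : ℤ)) hr0 M₀
    rwa [sh_zero] at h
  refine ⟨win 𝓛 0 r M₀, win 𝓛 1 r M₀, ⟨win_fg 𝓛 _ _ hfg, win_fg 𝓛 _ _ hfg,
    win_mono 𝓛 zero_le_one le_rfl le_rfl, ?_, fun l => ?_, fun x => ?_⟩, fun q hq => ?_⟩
  · rw [win_sh, zero_add]
    exact win_mono 𝓛 le_rfl (by omega) le_rfl
  · rcases Nat.eq_zero_or_pos l with hl | hl
    · subst hl
      refine inf_le_right.trans (win_le 𝓛 fun n hn hn' => ?_)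
      push_cast at hn'
      omega
    · have e1 : win 𝓛 1 l (win 𝓛 0 r M₀) = win 𝓛 1 ((l + r : ℕ) : ℤ) M₀ := by
        rw [win_win 𝓛 (by omega) hr0, add_zero]
        push_cast
        rfl
      have e2 : win 𝓛 0 r M₀ = M₀ ⊔ win 𝓛 1 r M₀ := by
        rw [win_pred 𝓛 hr0, sh_zero, zero_add]
      rw [e1]
      intro x hx
      obtain ⟨hx1, hx2⟩ := Submodule.mem_inf.1 hx
      rw [e2] at hx1
      obtain ⟨m, hm, n, hn, rfl⟩ := Submodule.mem_sup.1 hx1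
      have hn2 : n ∈ win 𝓛 1 ((l + r : ℕ) : ℤ) M₀ :=
        win_mono 𝓛 le_rfl (by push_cast; omega) le_rfl hn
      have hm2 : m ∈ win 𝓛 1 ((l + r : ℕ) : ℤ) M₀ := by
        have h := Submodule.sub_mem _ hx2 hn2
        rwa [add_sub_cancel_right] at h
      have hm3 : m ∈ M₀ ⊓ win 𝓛 1 r M₀ := by
        rw [← hi (l + r) (by omega)]
        exact ⟨hm, hm2⟩
      exact Submodule.add_mem _ hm3.2 hn
  · obtain ⟨n, hn⟩ := exists_win 𝓛 hspan x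
    exact ⟨n, win_mono 𝓛 le_rfl le_rfl h01 hn⟩
  · have h1 : Le q V (win 𝓛 (-((r + 1 : ℕ) : ℤ)) (-1) M₀) := hq.right le_top
    have h2 := h1.inf
    rw [hii] at h2
    have h3 : Le q (win 𝓛 (-(r : ℤ)) (-1) M₀) (win 𝓛 (-((r + 1 : ℕ) : ℤ)) (-1) M₀) :=
      h2.left inf_le_right
    have h4 := Le.sh 𝓛 ((r : ℤ) + 1) h3
    rw [win_sh, win_sh] at h4
    have e1 : -(r : ℤ) + ((r : ℤ) + 1) = 1 := by ring
    have e2 : (-1 : ℤ) + ((r : ℤ) + 1) = r := by ring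
    have e3 : -((r + 1 : ℕ) : ℤ) + ((r : ℤ) + 1) = 0 := by push_cast; ring
    rw [e1, e2, e3] at h4
    exact h4

end Pool.Agent.H19.UR
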