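import Pool.Agent.H19.UR.StA
import Pool.Agent.H19.UR.Noe

/-!
# Module Step: the Auslander condition passes to skew Laurent extensions

`letI : Module R S := Module.compHom S 𝓛.i`... the structure `Lau R S` already carries `[Module R S]`; `haveI := 𝓛.tower`.
* `noeth`: `Lau.noeth`. `res`: `aus_res`.
* `aus`: `Y` over `S`, nonnegative, exact in positive degrees, `q ≥ 1`, `q = q' + 1`. `res_self Y`: `N`, `ε`, `IsRes Y ε`, `N` finite over `S`. `N` is an
  `R`-module by `Module.compHom N 𝓛.i`, `IsScalarTower R S N` by `𝓛.smul_eq`. `exists_GP 𝓛 (⊥ : Submodule R N) fg_bot`, `exists_TD`,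
  `TD.res`: `IsRes D.T _`; `TD.aus_T` and `le_coh`. -/

set_option autoImplicit false

open Matrix Pool.Agent.H16.UN

namespace Pool.Agent.H19.UR

theorem aus_step {R S : Type} [Ring R] [StarRing R] [Ring S] [StarRing S] [Module R S] (𝓛 : Lau R S)
    {d : ℤ} (h : Aus R d) : Aus S (d + 1) := by
  refine ⟨𝓛.noeth h.noeth, ?_, ?_⟩
  · intro K _ _ hK
    exact aus_res 𝓛 h K
  · intro Y h0 h1 q hq
    have := h.noeth
    have := 𝓛.tower
    obtain ⟨N, _, _, ε, hε, hN⟩ := res_self Y h0 h1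
    obtain ⟨q', rfl⟩ : ∃ q', q = q' + 1 := ⟨q - 1, by omega⟩
    let _ : Module R N := Module.compHom N 𝓛.i
    have : IsScalarTower R S N := ⟨fun r s x => by
      rw [𝓛.smul_eq, mul_smul]
      rfl⟩
    obtain ⟨M₁, N', hGP, -⟩ := exists_GP 𝓛 (⊥ : Submodule R N) Submodule.fg_bot
    obtain ⟨D, -, -⟩ := exists_TD h hGP
    have h2 := TD.aus_T h hGP D q'
    have e : ((q' + 1 : ℕ) : ℤ) = (q' : ℤ) + 1 := by push_cast; ring
    rw [e]
    exact le_coh (D.res hGP) hε _ _ h2

end Pool.Agent.H19.UR
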