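import Pool.Agent.H19.UR.Lau

/-!
# Base change of complexes along a skew Laurent extension: coefficients of row vectors
-/

set_option autoImplicit false

open Matrix Pool.Agent.H16.UN

namespace Pool.Agent.H19.UR

variable {R S : Type} [Ring R] [StarRing R] [Ring S] [StarRing S] [Module R S] (𝓛 : Lau R S)

/-- the `n`-th coefficient of a row vector over `S` -/
def cf {ι : Type} (n : ℤ) (v : ι → S) : ι → R := fun a => 𝓛.co n (v a)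

section cf

variable {ι κ : Type}

@[simp] theorem cf_apply (n : ℤ) (v : ι → S) (a : ι) : cf 𝓛 n v a = 𝓛.co n (v a) := rfl

theorem cf_zero (n : ℤ) : cf 𝓛 n (0 : ι → S) = 0 := by
  funext a; simp

theorem cf_add (n : ℤ) (v w : ι → S) : cf 𝓛 n (v + w) = cf 𝓛 n v + cf 𝓛 n w := by
  funext a; simp

theorem cf_sub (n : ℤ) (v w : ι → S) : cf 𝓛 n (v - w) = cf 𝓛 n v - cf 𝓛 n w := by
  funext a; simp

theorem cf_neg (n : ℤ) (v : ι → S) : cf 𝓛 n (-v) = -cf 𝓛 n v := by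
  funext a; simp

theorem cf_ext {v w : ι → S} (h : ∀ n, cf 𝓛 n v = cf 𝓛 n w) : v = w := by
  funext a
  exact 𝓛.ext fun n => congrFun (h n) a

theorem cf_fin [Fintype ι] (v : ι → S) : {n | cf 𝓛 n v ≠ 0}.Finite := by
  have h : {n | cf 𝓛 n v ≠ 0} ⊆ ⋃ a, {n | 𝓛.co n (v a) ≠ 0} := by
    intro n hn
    by_contra h0
    apply hn
    funext a
    by_contra h1
    exact h0 (Set.mem_iUnion.2 ⟨a, h1⟩)
  exact (Set.finite_iUnion fun a => 𝓛.fin (v a)).subset h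

/-- row vectors with prescribed coefficients -/
theorem exists_cf (w : ℤ → ι → R) (h : {n | w n ≠ 0}.Finite) : ∃ v : ι → S, ∀ n, cf 𝓛 n v = w n := by
  refine ⟨fun a => ∑ n ∈ h.toFinset, ((𝓛.t ^ n : Sˣ) : S) * 𝓛.i (w n a), fun n => ?_⟩
  funext a
  rw [cf_apply, map_sum]
  by_cases hn : w n = 0
  · rw [hn, Pi.zero_apply]
    refine Finset.sum_eq_zero fun m hm => ?_
    rw [𝓛.co_mono]
    split_ifs with h1
    · rw [h1, hn, Pi.zero_apply]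
    · rfl
  · rw [Finset.sum_eq_single n]
    · rw [𝓛.co_mono, if_pos rfl]
    · intro m _ hm
      rw [𝓛.co_mono, if_neg hm]
    · intro h1
      exact absurd (h.mem_toFinset.2 hn) h1

theorem cf_vecMul [Fintype ι] (n : ℤ) (v : ι → S) (D : Matrix ι κ R) :
    cf 𝓛 n (v ᵥ* D.map 𝓛.i) = cf 𝓛 n v ᵥ* D := by
  funext b
  simp only [cf_apply, vecMul, dotProduct, Matrix.map_apply, map_sum]
  exact Finset.sum_congr rfl fun a _ => 𝓛.co_mul_i n _ _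

theorem cf_i (n : ℤ) (v : ι → R) : cf 𝓛 n (fun a => 𝓛.i (v a)) = if n = 0 then v else 0 := by
  funext a
  rw [cf_apply, 𝓛.co_i]
  split_ifs <;> rfl

theorem cf_t_smul (m n : ℤ) (v : ι → S) :
    cf 𝓛 n (((𝓛.t ^ m : Sˣ) : S) • v) = cf 𝓛 (n - m) v := by
  funext a
  exact 𝓛.co_t_mul m n _

theorem cf_i_smul (n : ℤ) (r : R) (v : ι → S) : cf 𝓛 n (𝓛.i r • v) = (𝓛.σ ^ (-n)) r • cf 𝓛 n v := by
  funext a
  exact 𝓛.co_i_mul n r _

theorem i_conjTranspose (D : Matrix ι κ R) : (D.map 𝓛.i)ᴴ = Dᴴ.map 𝓛.i := by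
  ext a b
  simp [𝓛.istar]

theorem i_vecMul [Fintype ι] (v : ι → R) (D : Matrix ι κ R) :
    (fun a => 𝓛.i (v a)) ᵥ* D.map 𝓛.i = fun b => 𝓛.i ((v ᵥ* D) b) := by
  funext b
  simp [vecMul, dotProduct]

end cf

section complexes

variable {X : FC R}

theorem hom_cf {k : ℤ} {v : X.ι → S} : (X.map 𝓛.i).Hom k v ↔ ∀ n, X.Hom k (cf 𝓛 n v) := by
  constructor
  · intro h n a ha
    exact h a fun h0 => ha (by rw [cf_apply, h0, map_zero])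
  · intro h a ha
    by_contra h1
    apply ha
    refine 𝓛.ext fun n => ?_
    rw [map_zero]
    by_contra h2
    exact h1 (h n a h2)

theorem ex_map {k : ℤ} (h : X.Ex k) : (X.map 𝓛.i).Ex k := by
  classical
  rintro v ⟨hv, hv0⟩
  have h1 : ∀ n, ∃ w, X.Hom (k + 1) w ∧ w ᵥ* X.D = cf 𝓛 n v ∧ (cf 𝓛 n v = 0 → w = 0) := fun n => by
    by_cases h0 : cf 𝓛 n v = 0
    · exact ⟨0, fun a ha => absurd rfl ha, by rw [h0, zero_vecMul], fun _ => rfl⟩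
    · have hv0' : v ᵥ* X.D.map 𝓛.i = 0 := hv0
      obtain ⟨w, h2, h3⟩ := h _ ⟨(hom_cf 𝓛).1 hv n, by rw [← cf_vecMul, hv0', cf_zero]⟩
      exact ⟨w, h2, h3, fun h4 => absurd h4 h0⟩
  choose w hw1 hw2 hw3 using h1
  obtain ⟨u, hu⟩ := exists_cf 𝓛 w ((cf_fin 𝓛 v).subset fun n hn h0 => hn (hw3 n h0))
  refine ⟨u, (hom_cf 𝓛).2 fun n => by rw [hu]; exact hw1 n, cf_ext 𝓛 fun n => ?_⟩
  show cf 𝓛 n (u ᵥ* X.D.map 𝓛.i) = _
  rw [cf_vecMul, hu, hw2]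

theorem coex_map {k : ℤ} (h : X.CoEx k) : (X.map 𝓛.i).CoEx k := by
  classical
  intro v hv hv0
  have hD : (X.map 𝓛.i).Dᴴ = X.Dᴴ.map 𝓛.i := i_conjTranspose 𝓛 X.D
  rw [hD] at hv0 ⊢
  have h1 : ∀ n, ∃ w, X.Hom (k - 1) w ∧ w ᵥ* X.Dᴴ = cf 𝓛 n v ∧ (cf 𝓛 n v = 0 → w = 0) := fun n => by
    by_cases h0 : cf 𝓛 n v = 0
    · exact ⟨0, fun a ha => absurd rfl ha, by rw [h0, zero_vecMul], fun _ => rfl⟩
    · obtain ⟨w, h2, h3⟩ := h _ ((hom_cf 𝓛).1 hv n) (by rw [← cf_vecMul, hv0, cf_zero])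
      exact ⟨w, h2, h3, fun h4 => absurd h4 h0⟩
  choose w hw1 hw2 hw3 using h1
  obtain ⟨u, hu⟩ := exists_cf 𝓛 w ((cf_fin 𝓛 v).subset fun n hn h0 => hn (hw3 n h0))
  refine ⟨u, (hom_cf 𝓛).2 fun n => by rw [hu]; exact hw1 n, cf_ext 𝓛 fun n => ?_⟩
  rw [cf_vecMul, hu, hw2]

end complexes

end Pool.Agent.H19.UR
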