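import Pool.Agent.H19.UR.Stab
import Pool.Agent.H19.UR.Up

/-!
# The complex `T` over `S` of a good pair

`X₁`, `X₂` are resolutions over `R` of `M₁` and `N'`, `f₀ : X₂ → X₁` lifts the inclusion and
`f₁ : X₂^(σ⁻¹) → X₁` lifts `x ↦ t⁻¹ x` (linear for the twisted structure). Over `S`: `φ = t f₁ - f₀ : X₂ → X₁`, and
`T` is its cone; the basis of `T` is `X₁.ι ⊕ X₂.ι`.
-/

set_option autoImplicit false

open Matrix Pool.Agent.H16.UN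

namespace Pool.Agent.H19.UR

variable {R S : Type} [Ring R] [StarRing R] [Ring S] [StarRing S] [Module R S] (𝓛 : Lau R S)
  {M : Type} [AddCommGroup M] [Module R M] [Module S M] [IsScalarTower R S M]

/-- `X` twisted by `σ⁻¹` -/
abbrev tw (X : FC R) : FC R := X.map ((𝓛.σ⁻¹ : R ≃+* R) : R →+* R)

/-- resolutions of a pair of submodules with the lifts of the inclusion and of `t⁻¹` -/
structure TD (M₁ N' : Submodule R M) where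
  X₁ : FC R
  X₂ : FC R
  ε₁ : X₁.ι → M₁
  ε₂ : X₂.ι → N'
  h₁ : IsRes X₁ ε₁
  h₂ : IsRes X₂ ε₂
  f₀ : Matrix X₂.ι X₁.ι R
  f₁ : Matrix X₂.ι X₁.ι R
  m₀ : IsMap X₂ X₁ f₀
  m₁ : IsMap (tw 𝓛 X₂) X₁ f₁
  l₀ : ∀ v, X₂.Hom 0 v → ((ev ε₁ (v ᵥ* f₀) : M₁) : M) = ((ev ε₂ v : N') : M)
  l₁ : ∀ v, X₂.Hom 0 v → ((ev ε₁ (v ᵥ* f₁) : M₁) : M) =
    ((𝓛.t⁻¹ : Sˣ) : S) • ((ev ε₂ (fun a => 𝓛.σ (v a)) : N') : M)

set_option linter.unusedSectionVars false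

variable {𝓛} {M₁ N' : Submodule R M} (D : TD 𝓛 M₁ N')

namespace TD

/-- `t f₁ - f₀` -/
def phi : Matrix D.X₂.ι D.X₁.ι S := Matrix.of fun a b => (𝓛.t : S) * 𝓛.i (D.f₁ a b) - 𝓛.i (D.f₀ a b)

theorem phi_apply (a : D.X₂.ι) (b : D.X₁.ι) :
    D.phi a b = (𝓛.t : S) * 𝓛.i (D.f₁ a b) - 𝓛.i (D.f₀ a b) := rfl

theorem phi_map : IsMap (D.X₂.map 𝓛.i) (D.X₁.map 𝓛.i) D.phi where
  hom a b h := by
    by_cases h0 : D.f₀ a b = 0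
    · by_cases h1 : D.f₁ a b = 0
      · exact absurd (by rw [phi_apply, h0, h1, map_zero, mul_zero, sub_zero]) h
      · exact D.m₁.hom a b h1
    · exact D.m₀.hom a b h0
  comm := by
    have e0 := D.m₀.comm
    have e1 : (D.X₂.D.map (𝓛.σ⁻¹ : R ≃+* R)) * D.f₁ = D.f₁ * D.X₁.D := D.m₁.comm
    ext a b
    have e0' := congrFun (congrFun e0 a) b
    have e1' := congrFun (congrFun e1 a) b
    simp only [mul_apply, Matrix.map_apply] at e0' e1'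
    show (D.X₂.D.map 𝓛.i * D.phi) a b = (D.phi * D.X₁.D.map 𝓛.i) a b
    simp only [mul_apply, Matrix.map_apply, phi_apply, mul_sub, sub_mul, Finset.sum_sub_distrib]
    congr 1
    · calc ∑ c, 𝓛.i (D.X₂.D a c) * ((𝓛.t : S) * 𝓛.i (D.f₁ c b))
          = (𝓛.t : S) * 𝓛.i (∑ c, (𝓛.σ⁻¹ : R ≃+* R) (D.X₂.D a c) * D.f₁ c b) := by
            rw [map_sum, Finset.mul_sum]
            refine Finset.sum_congr rfl fun c _ => ?_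
            have h1 := 𝓛.comm ((𝓛.σ⁻¹ : R ≃+* R) (D.X₂.D a c))
            have h2 : 𝓛.σ ((𝓛.σ⁻¹ : R ≃+* R) (D.X₂.D a c)) = D.X₂.D a c := 𝓛.σ.apply_symm_apply _
            rw [h2] at h1
            rw [← mul_assoc, ← h1, map_mul, mul_assoc]
        _ = (𝓛.t : S) * 𝓛.i (∑ c, D.f₁ a c * D.X₁.D c b) := by rw [e1']
        _ = ∑ c, (𝓛.t : S) * 𝓛.i (D.f₁ a c) * 𝓛.i (D.X₁.D c b) := by
            rw [map_sum, Finset.mul_sum]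
            exact Finset.sum_congr rfl fun c _ => by rw [map_mul, mul_assoc]
    · calc ∑ c, 𝓛.i (D.X₂.D a c) * 𝓛.i (D.f₀ c b)
          = 𝓛.i (∑ c, D.X₂.D a c * D.f₀ c b) := by rw [map_sum]; simp
        _ = _ := by rw [e0', map_sum]; simp

/-- the cone of `φ` -/
@[reducible] def T : FC S := FC.cone (D.X₂.map 𝓛.i) (D.X₁.map 𝓛.i) D.phi D.phi_map

/-- the cone of `f₀` (a resolution of `M₁ / N'`) -/
@[reducible] def C₀ : FC R := FC.cone D.X₂ D.X₁ D.f₀ D.m₀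

/-- the cone of `f₁` (a resolution of `M₁ / t⁻¹ N'`) -/
@[reducible] def C₁ : FC R := FC.cone (tw 𝓛 D.X₂) D.X₁ D.f₁ D.m₁

/-- `(v, u) D_T = (v D₁ + u φ, - u D₂)` -/
theorem vecMul_T (v : D.X₁.ι → S) (u : D.X₂.ι → S) :
    Sum.elim v u ᵥ* D.T.D =
      Sum.elim (v ᵥ* D.X₁.D.map 𝓛.i + u ᵥ* D.phi) (-(u ᵥ* D.X₂.D.map 𝓛.i)) := by
  show Sum.elim v u ᵥ* fromBlocks (D.X₁.D.map 𝓛.i) 0 D.phi (-(D.X₂.D.map 𝓛.i)) = _
  rw [vecMul_fromBlocks, vecMul_zero, zero_add, vecMul_neg]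
  rfl

/-- `(v, u) D_T^H = (v D₁^H, v φ^H - u D₂^H)` -/
theorem vecMul_TH (v : D.X₁.ι → S) (u : D.X₂.ι → S) :
    Sum.elim v u ᵥ* D.T.Dᴴ =
      Sum.elim (v ᵥ* D.X₁.Dᴴ.map 𝓛.i) (v ᵥ* D.phiᴴ - u ᵥ* D.X₂.Dᴴ.map 𝓛.i) := by
  have h : D.T.Dᴴ = fromBlocks (D.X₁.Dᴴ.map 𝓛.i) D.phiᴴ 0 (-(D.X₂.Dᴴ.map 𝓛.i)) := by
    show (fromBlocks (D.X₁.D.map 𝓛.i) 0 D.phi (-(D.X₂.D.map 𝓛.i)))ᴴ = _
    rw [fromBlocks_conjTranspose, conjTranspose_zero, conjTranspose_neg, i_conjTranspose,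
      i_conjTranspose]
  rw [h, vecMul_fromBlocks, vecMul_zero, add_zero, vecMul_neg, sub_eq_add_neg]
  rfl

/-- coefficients of `u φ` -/
theorem cf_phi (n : ℤ) (u : D.X₂.ι → S) :
    cf 𝓛 n (u ᵥ* D.phi) =
      (fun a => (𝓛.σ⁻¹ : R ≃+* R) (cf 𝓛 (n - 1) u a)) ᵥ* D.f₁ - cf 𝓛 n u ᵥ* D.f₀ := by
  funext b
  simp only [cf_apply, vecMul, dotProduct, phi_apply, mul_sub, map_sum, map_sub,
    Finset.sum_sub_distrib, Pi.sub_apply]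
  congr 1
  · refine Finset.sum_congr rfl fun a _ => ?_
    rw [← mul_assoc, 𝓛.co_mul_i, 𝓛.co_mul_t]
  · exact Finset.sum_congr rfl fun a _ => 𝓛.co_mul_i n _ _

/-- coefficients of `v φ^H` -/
theorem cf_phiH (n : ℤ) (v : D.X₁.ι → S) :
    cf 𝓛 n (v ᵥ* D.phiᴴ) =
      𝓛.e • (fun a => 𝓛.σ ((cf 𝓛 (n + 1) v ᵥ* D.f₁ᴴ) a)) - cf 𝓛 n v ᵥ* D.f₀ᴴ := by
  funext a
  simp only [cf_apply, vecMul, dotProduct, conjTranspose_apply, phi_apply, star_sub, star_mul,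
    ← 𝓛.istar, 𝓛.tstar, mul_sub, map_sum, map_sub, Finset.sum_sub_distrib, Pi.sub_apply,
    Pi.smul_apply, Finset.smul_sum]
  congr 1
  · refine Finset.sum_congr rfl fun b _ => ?_
    have h1 : v b * (𝓛.i (star (D.f₁ a b)) * ((𝓛.e : S) * ((𝓛.t⁻¹ : Sˣ) : S))) =
        𝓛.e • (v b * 𝓛.i (star (D.f₁ a b)) * ((𝓛.t⁻¹ : Sˣ) : S)) := by
      rw [← zsmul_eq_mul, mul_smul_comm, mul_smul_comm, mul_assoc]
    rw [h1, map_zsmul, 𝓛.co_mul_tinv, 𝓛.co_mul_i]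
  · exact Finset.sum_congr rfl fun b _ => 𝓛.co_mul_i n _ _

end TD

end Pool.Agent.H19.UR
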