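import Pool.Agent.H19.UR.TDef

/-!
# Module TEx: existence of the data `TD`, and the cones `C₀`, `C₁`

* `exists_TD`: `hR.res` for the f.g. modules `M₁`, `N'`: `X₁, ε₁`, `X₂, ε₂` of length `≤ d`. `f₀`: `lift_exists` for
  `Submodule.inclusion hGP.le`. `f₁`: let `N'' = sh 𝓛 (-1) N' = t⁻¹ N'` (`x ∈ N'' ↔ t x ∈ N'`), the additive
  bijection `e : N' ≃+ N''`, `e x = t⁻¹ x`, satisfies `e (r x) = σ⁻¹(r) e x` (`Lau.zpow_smul` with `n = -1`); by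
  `IsRes.twist` the complex `tw 𝓛 X₂` with `a ↦ e (ε₂ a)` is a resolution of `N''`; `N'' ≤ M₁` by `hGP.le'` (`t x ∈ N' ≤ t M₁`);
  `lift_exists` for the inclusion `N'' → M₁` gives `f₁`; `l₁`: `∑ v_a t⁻¹ ε₂ a = t⁻¹ ∑ σ(v_a) ε₂ a`.
* `C₀_res`, `C₁_res`: `cone_res` with `g` the inclusions `N' → M₁`, `N'' → M₁` and
  `π = (N'.submoduleOf M₁).mkQ`, `((sh 𝓛 (-1) N').submoduleOf M₁).mkQ`. -/

set_option autoImplicit false

open Matrix Pool.Agent.H16.UN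

namespace Pool.Agent.H19.UR

variable {R S : Type} [Ring R] [StarRing R] [Ring S] [StarRing S] [Module R S] {𝓛 : Lau R S}
  {M : Type} [AddCommGroup M] [Module R M] [Module S M] [IsScalarTower R S M]
  {M₁ N' : Submodule R M}

/-- multiplication by `t⁻¹` -/
private def TEx_e (𝓛 : Lau R S) (N' : Submodule R M) : N' ≃+ sh 𝓛 (-1) N' where
  toFun x := ⟨((𝓛.t⁻¹ : Sˣ) : S) • (x : M), by
    rw [mem_sh, neg_neg, zpow_one, smul_smul, Units.mul_inv, one_smul]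
    exact x.2⟩
  invFun x := ⟨((𝓛.t : Sˣ) : S) • (x : M), by
    have h := x.2
    rw [mem_sh, neg_neg, zpow_one] at h
    exact h⟩
  left_inv x := Subtype.ext (by
    show ((𝓛.t : Sˣ) : S) • (((𝓛.t⁻¹ : Sˣ) : S) • (x : M)) = x
    rw [smul_smul, Units.mul_inv, one_smul])
  right_inv x := Subtype.ext (by
    show ((𝓛.t⁻¹ : Sˣ) : S) • (((𝓛.t : Sˣ) : S) • (x : M)) = x
    rw [smul_smul, Units.inv_mul, one_smul])
  map_add' x y := Subtype.ext (smul_add _ _ _)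

private theorem TEx_he (𝓛 : Lau R S) (N' : Submodule R M) (r : R) (x : N') :
    TEx_e 𝓛 N' (r • x) = (𝓛.σ⁻¹ : R ≃+* R) r • TEx_e 𝓛 N' x := by
  apply Subtype.ext
  have h := 𝓛.zpow_smul (-1) r (x : M)
  rw [_root_.zpow_neg_one, _root_.zpow_neg_one] at h
  exact h

private theorem TEx_ev (𝓛 : Lau R S) (N' : Submodule R M) {ι : Type} [Fintype ι] (ε : ι → N')
    (v : ι → R) :
    ev (fun a => TEx_e 𝓛 N' (ε a)) v = TEx_e 𝓛 N' (ev ε (fun a => 𝓛.σ (v a))) := by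
  show ∑ a, v a • TEx_e 𝓛 N' (ε a) = TEx_e 𝓛 N' (∑ a, 𝓛.σ (v a) • ε a)
  rw [map_sum]
  refine Finset.sum_congr rfl fun a _ => ?_
  rw [TEx_he]
  have h : (𝓛.σ⁻¹ : R ≃+* R) (𝓛.σ (v a)) = v a := 𝓛.σ.symm_apply_apply _
  rw [h]

private theorem TEx_le (h : GP 𝓛 M₁ N') : sh 𝓛 (-1) N' ≤ M₁ := by
  have h1 := sh_mono 𝓛 (-1) h.le'
  rw [sh_sh, neg_add_cancel, sh_zero] at h1
  exact h1

theorem exists_TD {d : ℤ} (hR : Aus R d) (h : GP 𝓛 M₁ N') :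
    ∃ D : TD 𝓛 M₁ N', (∀ a, D.X₁.deg a ≤ d) ∧ ∀ a, D.X₂.deg a ≤ d := by
  obtain ⟨X₁, ε₁, r₁, d₁⟩ := hR.res M₁ (Module.Finite.iff_fg.2 h.fg₁)
  obtain ⟨X₂, ε₂, r₂, d₂⟩ := hR.res N' (Module.Finite.iff_fg.2 h.fg')
  obtain ⟨f₀, m₀, l₀⟩ := lift_exists r₂ r₁ (Submodule.inclusion h.le)
  obtain ⟨f₁, m₁, l₁⟩ := lift_exists
    (r₂.twist (𝓛.σ⁻¹ : R ≃+* R) (TEx_e 𝓛 N') (TEx_he 𝓛 N')) r₁ (Submodule.inclusion (TEx_le h))
  refine ⟨⟨X₁, X₂, ε₁, ε₂, r₁, r₂, f₀, f₁, m₀, m₁, ?_, ?_⟩, d₁, d₂⟩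
  · intro v hv
    exact congrArg Subtype.val (l₀ v hv)
  · intro v hv
    have h1 := congrArg Subtype.val (l₁ v hv)
    rw [TEx_ev] at h1
    exact h1

theorem C₀_res (h : GP 𝓛 M₁ N') (D : TD 𝓛 M₁ N') :
    ∃ ε : D.C₀.ι → (M₁ ⧸ N'.submoduleOf M₁), IsRes D.C₀ ε := by
  refine ⟨_, cone_res D.h₂ D.h₁ D.m₀ (g := Submodule.inclusion h.le)
    (fun v hv => Subtype.ext (D.l₀ v hv)) (Submodule.inclusion_injective h.le)
    (π := (N'.submoduleOf M₁).mkQ) (Submodule.mkQ_surjective _) ?_⟩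
  intro x
  rw [Submodule.mkQ_apply, Submodule.Quotient.mk_eq_zero]
  constructor
  · intro hx
    exact ⟨⟨(x : M), hx⟩, rfl⟩
  · rintro ⟨y, rfl⟩
    exact y.2

theorem C₁_res (h : GP 𝓛 M₁ N') (D : TD 𝓛 M₁ N') :
    ∃ ε : D.C₁.ι → (M₁ ⧸ (sh 𝓛 (-1) N').submoduleOf M₁), IsRes D.C₁ ε := by
  refine ⟨_, cone_res (D.h₂.twist (𝓛.σ⁻¹ : R ≃+* R) (TEx_e 𝓛 N') (TEx_he 𝓛 N')) D.h₁ D.m₁
    (g := Submodule.inclusion (TEx_le h))
    ?_ (Submodule.inclusion_injective (TEx_le h))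
    (π := ((sh 𝓛 (-1) N').submoduleOf M₁).mkQ) (Submodule.mkQ_surjective _) ?_⟩
  · intro v hv
    apply Subtype.ext
    rw [TEx_ev]
    exact D.l₁ v hv
  · intro x
    rw [Submodule.mkQ_apply, Submodule.Quotient.mk_eq_zero]
    constructor
    · intro hx
      exact ⟨⟨(x : M), hx⟩, rfl⟩
    · rintro ⟨y, rfl⟩
      exact y.2

end Pool.Agent.H19.UR
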